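import Mathlib

/-!
# R, job R22: numerical estimates, upper bound (pure analysis)

PROOF. All the powers are real powers of the real number `n`. Take
`M1 = ⌈n ^ (1/2 + 2 θ)⌉₊`, `q = (M1 + 1) / (l1 + 1)` (natural division), `t = n ^ (1/2 + 2 θ)`,
`L' = n ^ θ`. For `n` large, `M1 ≥ 2 (l1 + 1)`, so `q ≥ 1` and
`q ≥ (M1 + 1) / (l1 + 1) - 1 ≥ M1 / (2 (l1 + 1))` (real division), so
`n / q ≤ 2 (l1 + 1) n ^ (1/2 - 2 θ)` and `1 + n / q ≤ 3 (l1 + 1) n ^ (1/2 - 2 θ)` (`θ ≤ 1/16`, the last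
power is `≥ 1`). Hence `t / (8224 C7 ^ 2 n ^ θ (1 + n / q)) ≥ n ^ (3 θ) / (24672 C7 ^ 2 (l1 + 1))`,
and `n ^ 2 exp (-...) → 0` (a positive power of `n` beats `log n`; e.g. `exp (-y) ≤ k ! / y ^ k` with
`k` large, or `Real.tendsto_pow_mul_exp_neg_atTop_nhds_zero` / `isLittleO_log_rpow_atTop`).
`2 M1 + 4 (t + 1) K L' ≤ 2 (n ^ (1/2 + 2 θ) + 1) + 8 K n ^ (1/2 + 3 θ) ≤ (4 + 8 K) n ^ (1/2 + 3 θ) ≤
n ^ (1/2 + 4 θ) ≤ n ^ (1/2 + ε)` as soon as `n ^ θ ≥ 4 + 8 K`.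
The last sum is `4 / n + (→ 0) + n ^ (-θ) → 0`.
-/

namespace RST.R

private lemma AsyU_tend (θ : ℝ) (hθ : 0 < θ) :
    Filter.Tendsto (fun n : ℕ => (n : ℝ) ^ θ) Filter.atTop Filter.atTop :=
  (tendsto_rpow_atTop hθ).comp tendsto_natCast_atTop_atTop

private lemma AsyU_exp (k : ℕ) (θ c ε' : ℝ) (hθ : 0 < θ) (hc : 0 < c) (hε' : 0 < ε') :
    ∀ᶠ n : ℕ in Filter.atTop, (n : ℝ) ^ k * Real.exp (-(c * (n : ℝ) ^ θ)) ≤ ε' := by
  have h1 : ∀ᶠ x : ℝ in Filter.atTop, ‖Real.log x‖ ≤ (c / (2 * (k + 1))) * ‖x ^ θ‖ :=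
    (isLittleO_log_rpow_atTop hθ).def (by positivity)
  have h2 := (tendsto_natCast_atTop_atTop (R := ℝ)).eventually h1
  have h3 : ∀ᶠ n : ℕ in Filter.atTop, (1 : ℝ) ≤ n :=
    tendsto_natCast_atTop_atTop.eventually (Filter.eventually_ge_atTop _)
  have h4 : Filter.Tendsto (fun n : ℕ => Real.exp (-(c / 2 * (n : ℝ) ^ θ))) Filter.atTop
      (nhds 0) := by
    refine Real.tendsto_exp_atBot.comp (Filter.tendsto_neg_atTop_atBot.comp ?_)
    exact (AsyU_tend θ hθ).const_mul_atTop (by positivity)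
  have h5 := h4.eventually (gt_mem_nhds hε')
  filter_upwards [h2, h3, h5] with n hn h1n h5n
  have hx : 0 ≤ (n : ℝ) ^ θ := by positivity
  have hlog : 0 ≤ Real.log n := Real.log_nonneg h1n
  rw [Real.norm_of_nonneg hlog, Real.norm_of_nonneg hx] at hn
  have hnpos : (0 : ℝ) < n := by linarith
  have e1 : (n : ℝ) ^ k = Real.exp (k * Real.log n) := by
    rw [Real.exp_nat_mul, Real.exp_log hnpos]
  rw [e1, ← Real.exp_add]
  refine le_trans (Real.exp_le_exp.2 ?_) h5n.le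
  have hk : (k : ℝ) * Real.log n ≤ c / 2 * (n : ℝ) ^ θ := by
    calc (k : ℝ) * Real.log n ≤ (k + 1) * Real.log n := by nlinarith
      _ ≤ (k + 1) * (c / (2 * (k + 1)) * (n : ℝ) ^ θ) := by gcongr
      _ = c / 2 * (n : ℝ) ^ θ := by
        have : (k : ℝ) + 1 ≠ 0 := by positivity
        field_simp
  linarith

theorem asyU (θ ε ε' C7 K : ℝ) (l1 : ℕ) (hθ : 0 < θ) (hθ1 : θ ≤ 1 / 16) (hε : 4 * θ ≤ ε)
    (hε' : 0 < ε') (hC7 : 1 ≤ C7) (hK : 0 ≤ K) : ∃ n₀ : ℕ, ∀ n : ℕ, n₀ ≤ n →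
    ∃ (M1 q : ℕ) (t L' : ℝ), 1 ≤ q ∧ q * (l1 + 1) ≤ M1 + 1 ∧ 0 < t ∧ 1 ≤ L' ∧
      2 * (M1 : ℝ) + 4 * (t + 1) * K * L' ≤ (n : ℝ) ^ (1 / 2 + ε) ∧
      2 * (1 / (n : ℝ)) + 2 / n + (n : ℝ) ^ 2 *
        Real.exp (-(t / (8224 * C7 ^ 2 * (n : ℝ) ^ θ * (1 + n / q)))) + 1 / L' ≤ ε' := by
  set c : ℝ := 1 / (24672 * C7 ^ 2 * (l1 + 1)) with hc
  have hcpos : 0 < c := by positivity
  have E1 := (AsyU_tend θ hθ).eventually (Filter.eventually_ge_atTop (4 + 8 * K))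
  have E2 := (AsyU_tend θ hθ).eventually (Filter.eventually_ge_atTop (4 / ε'))
  have E3 := AsyU_exp 2 θ c (ε' / 4) hθ hcpos (by positivity)
  have E4 : ∀ᶠ n : ℕ in Filter.atTop, (16 / ε' + 1) ≤ (n : ℝ) :=
    tendsto_natCast_atTop_atTop.eventually (Filter.eventually_ge_atTop _)
  have E5 := (AsyU_tend θ hθ).eventually (Filter.eventually_ge_atTop (2 * ((l1 : ℝ) + 1)))
  obtain ⟨n₀, hn₀⟩ := Filter.eventually_atTop.1 (E1.and (E2.and (E3.and (E4.and E5))))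
  refine ⟨n₀, fun n hn => ?_⟩
  obtain ⟨e1, e2, e3, e4, e5⟩ := hn₀ n hn
  have hn1 : (1 : ℝ) ≤ n := by
    have : 0 < 16 / ε' := by positivity
    linarith
  have hnpos : (0 : ℝ) < n := by linarith
  set x : ℝ := (n : ℝ) ^ θ with hx
  set h : ℝ := (n : ℝ) ^ (1 / 2 : ℝ) with hh
  have hx1 : 1 ≤ x := by linarith
  have hxpos : 0 < x := by linarith
  have hh2 : h * h = n := by
    rw [hh, ← Real.rpow_add hnpos]; norm_num
  have hhx : x ^ 8 ≤ h := by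
    rw [hx, hh, ← Real.rpow_natCast, ← Real.rpow_mul hnpos.le]
    exact Real.rpow_le_rpow_of_exponent_le hn1 (by push_cast; linarith)
  have hh1 : 1 ≤ h := le_trans (one_le_pow₀ hx1) hhx
  have hhpos : 0 < h := by linarith
  have hx2h : x ^ 2 ≤ h := le_trans (pow_le_pow_right₀ hx1 (by norm_num)) hhx
  have ht : 1 ≤ h * x ^ 2 := by
    have := one_le_pow₀ hx1 (n := 2)
    nlinarith
  have hl1 : (0 : ℝ) ≤ l1 := by positivity
  -- the natural numbers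
  set M1 : ℕ := ⌈h * x ^ 2⌉₊ with hM1
  have hM1l : h * x ^ 2 ≤ M1 := Nat.le_ceil _
  have hM1u : (M1 : ℝ) < h * x ^ 2 + 1 := Nat.ceil_lt_add_one (by positivity)
  have hM1x : x ≤ M1 := by
    have : x ≤ h * x ^ 2 := by nlinarith
    linarith
  have hM1big : 2 * ((l1 : ℝ) + 1) ≤ M1 := by linarith
  have hM1bigN : 2 * (l1 + 1) ≤ M1 := by exact_mod_cast hM1big
  set q : ℕ := (M1 + 1) / (l1 + 1) with hq
  have hq1 : 1 ≤ q := by
    rw [hq]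
    exact (Nat.one_le_div_iff (by omega)).2 (by omega)
  have hqM : q * (l1 + 1) ≤ M1 + 1 := Nat.div_mul_le_self _ _
  have hqM2 : M1 + 1 < (q + 1) * (l1 + 1) := by
    have h7 := Nat.div_add_mod (M1 + 1) (l1 + 1)
    have h8 := Nat.mod_lt (M1 + 1) (show 0 < l1 + 1 by omega)
    rw [← hq] at h7
    nlinarith
  have hqM2' : (M1 : ℝ) + 1 < (q + 1) * (l1 + 1) := by exact_mod_cast hqM2
  have hqlow : (M1 : ℝ) ≤ 2 * (l1 + 1) * q := by nlinarith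
  have hqpos : (0 : ℝ) < q := by exact_mod_cast hq1
  have hnq : (n : ℝ) / q ≤ 2 * (l1 + 1) * (h / x ^ 2) := by
    rw [div_le_iff₀ hqpos]
    have e6 : h * x ^ 2 ≤ 2 * (l1 + 1) * q := le_trans hM1l hqlow
    have e7 : 0 ≤ h / x ^ 2 := by positivity
    calc (n : ℝ) = (h / x ^ 2) * (h * x ^ 2) := by
          rw [← hh2]; field_simp
      _ ≤ (h / x ^ 2) * (2 * (l1 + 1) * q) := by gcongr
      _ = 2 * (l1 + 1) * (h / x ^ 2) * q := by ring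
  have hhx2 : 1 ≤ h / x ^ 2 := by
    rw [le_div_iff₀ (by positivity)]; linarith
  have hnq1 : 1 + (n : ℝ) / q ≤ 3 * (l1 + 1) * (h / x ^ 2) := by nlinarith
  have hnq0 : 0 < 1 + (n : ℝ) / q := by positivity
  refine ⟨M1, q, h * x ^ 2, x, hq1, hqM, by positivity, hx1, ?_, ?_⟩
  · have e6 : h * x ^ 4 ≤ (n : ℝ) ^ (1 / 2 + ε) := by
      rw [hh, hx, ← Real.rpow_natCast, ← Real.rpow_mul hnpos.le, ← Real.rpow_add hnpos]
      exact Real.rpow_le_rpow_of_exponent_le hn1 (by push_cast; linarith)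
    refine le_trans ?_ e6
    have e7 : h * x ^ 2 ≤ h * x ^ 3 := by
      have : x ^ 2 ≤ x ^ 3 := pow_le_pow_right₀ hx1 (by norm_num)
      gcongr
    have e8 : 4 * (h * x ^ 2 + 1) * K * x ≤ 8 * K * (h * x ^ 3) := by
      have : (h * x ^ 2 + 1) ≤ 2 * (h * x ^ 2) := by linarith
      calc 4 * (h * x ^ 2 + 1) * K * x ≤ 4 * (2 * (h * x ^ 2)) * K * x := by gcongr
        _ = 8 * K * (h * x ^ 3) := by ring
    calc 2 * (M1 : ℝ) + 4 * (h * x ^ 2 + 1) * K * x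
        ≤ 2 * (2 * (h * x ^ 3)) + 8 * K * (h * x ^ 3) := by nlinarith
      _ = (4 + 8 * K) * (h * x ^ 3) := by ring
      _ ≤ x * (h * x ^ 3) := by gcongr
      _ = h * x ^ 4 := by ring
  · have e6 : c * x ≤ h * x ^ 2 / (8224 * C7 ^ 2 * x * (1 + n / q)) := by
      rw [le_div_iff₀ (by positivity)]
      calc c * x * (8224 * C7 ^ 2 * x * (1 + n / q))
          ≤ c * x * (8224 * C7 ^ 2 * x * (3 * (l1 + 1) * (h / x ^ 2))) := by gcongr
        _ = h := by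
          rw [hc]
          have : (l1 : ℝ) + 1 ≠ 0 := by positivity
          field_simp
          norm_num
        _ ≤ h * x ^ 2 := by
          have := one_le_pow₀ hx1 (n := 2)
          nlinarith
    have e7 : (n : ℝ) ^ 2 * Real.exp (-(h * x ^ 2 / (8224 * C7 ^ 2 * x * (1 + n / q)))) ≤ ε' / 4 := by
      refine le_trans ?_ e3
      gcongr
    have e8 : 1 / x ≤ ε' / 4 := by
      rw [div_le_iff₀ hxpos]
      have e2' : 4 / ε' ≤ x := e2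
      rw [div_le_iff₀ hε'] at e2'
      linarith
    have e9 : 2 * (1 / (n : ℝ)) + 2 / n ≤ ε' / 4 := by
      have : 2 * (1 / (n : ℝ)) + 2 / n = 4 / n := by ring
      rw [this, div_le_iff₀ hnpos]
      have : 16 / ε' ≤ n := by linarith
      rw [div_le_iff₀ hε'] at this
      linarith
    linarith

end RST.R
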