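import Pool.Agent.Lib.MP_7946c7_pr.R.Basic

/-!
# R, job R17: sums of conductances from the labels (deterministic)

PROOF. Split the sum over `y ≠ x` according to `lab s(x, y) ≤ L` or not. In the first part there are
`dg (gr lab L) univ x ≤ C7 D` terms (`gr lab L x y ↔ x ≠ y ∧ lab s(x, y) ≤ L`), each at most
`exp (-κ * (-1)) = exp κ ≤ exp C`. In the second part there are at most `n = card V` terms, each at
most `1 / n` by `hout` (`n > 0` because of `x`). Total `≤ exp C * C7 * D + 1 ≤ (exp C * C7 + 1) * D`.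
-/

open Finset

namespace RST.R

variable {V : Type} [Fintype V] [DecidableEq V]

theorem csum_labels (lab : Sym2 V → ℝ) (κ C D L C7 : ℝ) (hκ0 : 0 ≤ κ) (hκC : κ ≤ C)
    (hlab : ∀ e, -1 ≤ lab e) (hD : 1 ≤ D)
    (hdeg : ∀ x, (dg (gr lab L) univ x : ℝ) ≤ C7 * D)
    (hout : ∀ e, L < lab e → Fintype.card V * Real.exp (-κ * lab e) ≤ 1) (x : V) :
    ∑ y ∈ univ.erase x, Real.exp (-κ * lab s(x, y)) ≤ (Real.exp C * C7 + 1) * D := by
  classical
  have hn : (0 : ℝ) < Fintype.card V := by
    have : 0 < Fintype.card V := Fintype.card_pos_iff.mpr ⟨x⟩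
    exact_mod_cast this
  rw [← Finset.sum_filter_add_sum_filter_not (univ.erase x) (fun y => lab s(x, y) ≤ L)]
  have h1 : ∑ y ∈ (univ.erase x).filter (fun y => lab s(x, y) ≤ L),
      Real.exp (-κ * lab s(x, y)) ≤ Real.exp C * (C7 * D) := by
    have hb : ∀ y ∈ (univ.erase x).filter (fun y => lab s(x, y) ≤ L),
        Real.exp (-κ * lab s(x, y)) ≤ Real.exp C := by
      intro y _
      apply Real.exp_le_exp.mpr
      nlinarith [hlab s(x, y)]
    have hcard : (((univ.erase x).filter (fun y => lab s(x, y) ≤ L)).card : ℝ) ≤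
        (dg (gr lab L) univ x : ℝ) := by
      have : ((univ.erase x).filter (fun y => lab s(x, y) ≤ L)).card ≤ dg (gr lab L) univ x := by
        unfold dg
        apply Finset.card_le_card
        intro y hy
        simp only [Finset.mem_filter, Finset.mem_erase, Finset.mem_univ, and_true, true_and] at hy ⊢
        exact ⟨fun h => hy.1 h.symm, hy.2⟩
      exact_mod_cast this
    calc ∑ y ∈ (univ.erase x).filter (fun y => lab s(x, y) ≤ L), Real.exp (-κ * lab s(x, y))
        ≤ ((univ.erase x).filter (fun y => lab s(x, y) ≤ L)).card • Real.exp C :=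
          Finset.sum_le_card_nsmul _ _ _ hb
      _ = Real.exp C * (((univ.erase x).filter (fun y => lab s(x, y) ≤ L)).card : ℝ) := by
          rw [nsmul_eq_mul]; ring
      _ ≤ Real.exp C * (C7 * D) :=
          mul_le_mul_of_nonneg_left (hcard.trans (hdeg x)) (Real.exp_pos C).le
  have h2 : ∑ y ∈ (univ.erase x).filter (fun y => ¬ lab s(x, y) ≤ L),
      Real.exp (-κ * lab s(x, y)) ≤ 1 := by
    have hb : ∀ y ∈ (univ.erase x).filter (fun y => ¬ lab s(x, y) ≤ L),
        Real.exp (-κ * lab s(x, y)) ≤ 1 / Fintype.card V := by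
      intro y hy
      rw [Finset.mem_filter] at hy
      have h := hout s(x, y) (not_le.mp hy.2)
      rw [le_div_iff₀ hn]
      linarith
    have hcard : (((univ.erase x).filter (fun y => ¬ lab s(x, y) ≤ L)).card : ℝ) ≤
        Fintype.card V := by
      have := Finset.card_le_univ ((univ.erase x).filter (fun y => ¬ lab s(x, y) ≤ L))
      exact_mod_cast this
    calc ∑ y ∈ (univ.erase x).filter (fun y => ¬ lab s(x, y) ≤ L), Real.exp (-κ * lab s(x, y))
        ≤ ((univ.erase x).filter (fun y => ¬ lab s(x, y) ≤ L)).card • (1 / Fintype.card V : ℝ) :=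
          Finset.sum_le_card_nsmul _ _ _ hb
      _ = (((univ.erase x).filter (fun y => ¬ lab s(x, y) ≤ L)).card : ℝ) *
            (1 / Fintype.card V) := by rw [nsmul_eq_mul]
      _ ≤ (Fintype.card V : ℝ) * (1 / Fintype.card V) :=
          mul_le_mul_of_nonneg_right hcard (by positivity)
      _ = 1 := by field_simp
  nlinarith

end RST.R
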