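import Pool.Agent.Lib.MP_7946c7_pr.R.Basic

/-!
# R, job R13: the masses (deterministic)

`n = card V`. PROOFS.
`mm_sum`: `∑ x, mm = #S D + #Sᶜ δ / n ^ 2 ≥ #S D ≥ n D / 2`.
`mm_out`: `∑ x ∈ Sᶜ, mm = #Sᶜ δ / n ^ 2 ≤ n δ / n ^ 2 ≤ 1 / n`, and
`(1 / n) * ∑ x, mm ≥ (1 / n) (n D / 2) ≥ 1 / 2 ≥ 1 / n`.
`mm_le`: `δ / n ^ 2 ≤ 1 ≤ D`. `mm_sq`: `∑ mm ^ 2 ≤ D * ∑ mm` and `D ≤ (2 / n) * ∑ mm`.
-/

open Finset

namespace RST.R

variable {V : Type} [Fintype V] [DecidableEq V]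

theorem mm_pos (S : Finset V) (D δ : ℝ) (hD : 1 ≤ D) (hδ : 0 < δ) (hn : 2 ≤ Fintype.card V)
    (x : V) : 0 < mm S D δ x := by
  have hn0 : (2 : ℝ) ≤ Fintype.card V := by exact_mod_cast hn
  unfold mm
  split_ifs
  · linarith
  · positivity

theorem mm_le (S : Finset V) (D δ : ℝ) (hD : 1 ≤ D) (hδ : 0 < δ) (hδ1 : δ ≤ 1)
    (hn : 2 ≤ Fintype.card V) (x : V) : mm S D δ x ≤ D := by
  have hn0 : (2 : ℝ) ≤ Fintype.card V := by exact_mod_cast hn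
  unfold mm
  split_ifs
  · exact le_rfl
  · rw [div_le_iff₀ (by positivity)]
    nlinarith

private theorem mass_out (S : Finset V) (D δ : ℝ) :
    ∑ x ∈ Sᶜ, mm S D δ x = Sᶜ.card * (δ / (Fintype.card V : ℝ) ^ 2) := by
  rw [Finset.sum_congr rfl (g := fun _ => δ / (Fintype.card V : ℝ) ^ 2), Finset.sum_const,
    nsmul_eq_mul]
  intro x hx
  unfold mm
  rw [if_neg (Finset.mem_compl.1 hx)]

private theorem mass_split (S : Finset V) (D δ : ℝ) :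
    ∑ x, mm S D δ x = S.card * D + Sᶜ.card * (δ / (Fintype.card V : ℝ) ^ 2) := by
  rw [← Finset.sum_add_sum_compl S, mass_out]
  congr 1
  rw [Finset.sum_congr rfl (g := fun _ => D), Finset.sum_const, nsmul_eq_mul]
  intro x hx
  unfold mm
  rw [if_pos hx]

theorem mm_sum (S : Finset V) (D δ : ℝ) (hD : 1 ≤ D) (hδ : 0 < δ)
    (hS : (Fintype.card V : ℝ) ≤ 2 * S.card) :
    D * Fintype.card V / 2 ≤ ∑ x, mm S D δ x := by
  rw [mass_split]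
  have h1 : 0 ≤ (Sᶜ.card : ℝ) * (δ / (Fintype.card V : ℝ) ^ 2) := by positivity
  nlinarith

theorem mm_out (S : Finset V) (D δ : ℝ) (hD : 1 ≤ D) (hδ : 0 < δ) (hδ1 : δ ≤ 1)
    (hn : 2 ≤ Fintype.card V) (hS : (Fintype.card V : ℝ) ≤ 2 * S.card) :
    ∑ x ∈ Sᶜ, mm S D δ x ≤ 1 / Fintype.card V * ∑ x, mm S D δ x := by
  have hn0 : (2 : ℝ) ≤ Fintype.card V := by exact_mod_cast hn
  have h1 := mm_sum S D δ hD hδ hS
  have h2 : (Sᶜ.card : ℝ) ≤ Fintype.card V := by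
    exact_mod_cast Finset.card_le_univ Sᶜ
  rw [mass_out, div_mul_eq_mul_div, one_mul, le_div_iff₀ (by linarith)]
  have h3 : (Sᶜ.card : ℝ) * (δ / (Fintype.card V : ℝ) ^ 2) * Fintype.card V =
      Sᶜ.card * δ / Fintype.card V := by
    field_simp
  rw [h3, div_le_iff₀ (by linarith)]
  have h4 : 1 ≤ ∑ x, mm S D δ x := by nlinarith
  have h5 : (Sᶜ.card : ℝ) * δ ≤ Fintype.card V := by nlinarith
  nlinarith

theorem mm_sq (S : Finset V) (D δ : ℝ) (hD : 1 ≤ D) (hδ : 0 < δ) (hδ1 : δ ≤ 1)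
    (hn : 2 ≤ Fintype.card V) (hS : (Fintype.card V : ℝ) ≤ 2 * S.card) :
    ∑ x, mm S D δ x ^ 2 ≤ 2 / Fintype.card V * (∑ x, mm S D δ x) ^ 2 := by
  have hn0 : (2 : ℝ) ≤ Fintype.card V := by exact_mod_cast hn
  have h1 := mm_sum S D δ hD hδ hS
  have h2 : ∑ x, mm S D δ x ^ 2 ≤ D * ∑ x, mm S D δ x := by
    rw [Finset.mul_sum]
    apply Finset.sum_le_sum
    intro x _
    rw [pow_two]
    exact mul_le_mul_of_nonneg_right (mm_le S D δ hD hδ hδ1 hn x) (mm_pos S D δ hD hδ hn x).le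
  have h3 : D ≤ 2 / Fintype.card V * ∑ x, mm S D δ x := by
    rw [div_mul_eq_mul_div, le_div_iff₀ (by linarith)]
    linarith
  have h4 : 0 ≤ ∑ x, mm S D δ x := by nlinarith
  calc ∑ x, mm S D δ x ^ 2 ≤ D * ∑ x, mm S D δ x := h2
    _ ≤ (2 / Fintype.card V * ∑ x, mm S D δ x) * ∑ x, mm S D δ x :=
        mul_le_mul_of_nonneg_right h3 h4
    _ = 2 / Fintype.card V * (∑ x, mm S D δ x) ^ 2 := by ring

end RST.R
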