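import Pool.Agent.Lib.MP_7946c7_pr.R.Energy
import Pool.Agent.Lib.MP_7946c7_pr.R.Mass

/-!
# R, job R16: sums of conductances (deterministic)

`n = card V`, `M = ∑ x, mm S D δ x ≥ D n / 2` (`mm_sum`). PROOFS.
`csum_edges`: `2 * ∑ e = ∑ x, ∑ y ≠ x, c s(x, y) ≤ n K D ≤ 2 K M` (`edge_sum`).
`inc_sum`: for a fixed vertex `x`, the non-diagonal `e` with `x ∈ e` are the `s(x, y)`, `y ≠ x`
(bijection).
`csum_PP`: a pair in the set has a common vertex `v`; union over `v`: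
`∑ p ≤ ∑ v, (∑ e ∋ v, c e) ^ 2 ≤ n (K D) ^ 2 ≤ 4 K ^ 2 / n * M ^ 2`.
`csum_QQ`: `∑ = ∑ x, mm x * ∑ e ∋ x, c e ≤ K D M ≤ 2 K / n * M ^ 2`.
-/

open Finset

namespace RST.R

variable {V : Type} [Fintype V] [DecidableEq V]

/-- Pairs of (non-diagonal) edges with a common vertex. -/
def PPs (V : Type) [Fintype V] [DecidableEq V] : Finset (Sym2 V × Sym2 V) :=
  univ.filter fun p => ¬ p.1.IsDiag ∧ ¬ p.2.IsDiag ∧ ∃ v, v ∈ p.1 ∧ v ∈ p.2

/-- Pairs (vertex, non-diagonal edge containing it). -/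
def QQs (V : Type) [Fintype V] [DecidableEq V] : Finset (V × Sym2 V) :=
  univ.filter fun p => ¬ p.2.IsDiag ∧ p.1 ∈ p.2

private theorem csum_card_sym2 (V : Type) [Fintype V] [DecidableEq V] :
    Fintype.card (Sym2 V) ≤ Fintype.card V * Fintype.card V := by
  rw [← Fintype.card_prod]
  refine Fintype.card_le_of_surjective (fun p : V × V => s(p.1, p.2)) ?_
  intro e
  induction e with
  | _ a b => exact ⟨(a, b), rfl⟩

theorem csum_edges (c : Sym2 V → ℝ) (hc : ∀ e, 0 ≤ c e) (K D δ : ℝ) (hK0 : 0 ≤ K) (hD : 1 ≤ D)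
    (hδ : 0 < δ) (hK : ∀ x, ∑ y ∈ univ.erase x, c s(x, y) ≤ K * D) (S : Finset V)
    (hS : (Fintype.card V : ℝ) ≤ 2 * S.card) :
    ∑ e ∈ (univ : Finset (Sym2 V)).filter (fun e => ¬ e.IsDiag), c e ≤
      K * ∑ x, mm S D δ x := by
  have h1 := edge_sum c
  have h2 : ∑ x, ∑ y ∈ univ.erase x, c s(x, y) ≤ (Fintype.card V : ℝ) * (K * D) := by
    calc ∑ x, ∑ y ∈ univ.erase x, c s(x, y) ≤ ∑ x : V, K * D := Finset.sum_le_sum fun x _ => hK x
      _ = (Fintype.card V : ℝ) * (K * D) := by simp [Finset.sum_const, nsmul_eq_mul]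
  have h3 := mm_sum S D δ hD hδ hS
  have h4 : K * (D * Fintype.card V / 2) ≤ K * ∑ x, mm S D δ x :=
    mul_le_mul_of_nonneg_left h3 hK0
  nlinarith

theorem inc_sum (c : Sym2 V → ℝ) (x : V) :
    ∑ e ∈ (univ : Finset (Sym2 V)).filter (fun e => ¬ e.IsDiag ∧ x ∈ e), c e =
      ∑ y ∈ univ.erase x, c s(x, y) := by
  have himg : (univ : Finset (Sym2 V)).filter (fun e => ¬ e.IsDiag ∧ x ∈ e) =
      (univ.erase x).image (fun y => s(x, y)) := by
    ext e
    simp only [Finset.mem_filter, Finset.mem_univ, true_and, Finset.mem_image, Finset.mem_erase,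
      and_true]
    constructor
    · rintro ⟨hd, hx⟩
      obtain ⟨y, rfl⟩ := Sym2.mem_iff_exists.mp hx
      refine ⟨y, ?_, rfl⟩
      intro h
      exact hd (by rw [Sym2.mk_isDiag_iff]; exact h.symm)
    · rintro ⟨y, hy, rfl⟩
      refine ⟨?_, Sym2.mem_mk_left x y⟩
      rw [Sym2.mk_isDiag_iff]
      exact fun h => hy h.symm
  rw [himg, Finset.sum_image]
  intro y _ y' _ h
  exact Sym2.congr_right.mp h

theorem csum_PP (c : Sym2 V → ℝ) (hc : ∀ e, 0 ≤ c e) (K D δ : ℝ) (hK0 : 0 ≤ K) (hD : 1 ≤ D)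
    (hδ : 0 < δ) (hn : 2 ≤ Fintype.card V) (hK : ∀ x, ∑ y ∈ univ.erase x, c s(x, y) ≤ K * D)
    (S : Finset V) (hS : (Fintype.card V : ℝ) ≤ 2 * S.card) :
    ∑ p ∈ PPs V, c p.1 * c p.2 ≤ 4 * K ^ 2 / Fintype.card V * (∑ x, mm S D δ x) ^ 2 := by
  classical
  have hnpos : (0 : ℝ) < Fintype.card V := by
    have : 0 < Fintype.card V := by omega
    exact_mod_cast this
  set I : V → Finset (Sym2 V) :=
    fun v => (univ : Finset (Sym2 V)).filter (fun e => ¬ e.IsDiag ∧ v ∈ e) with hI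
  have hIs : ∀ v, ∑ e ∈ I v, c e ≤ K * D := fun v => by
    rw [hI]
    simp only
    rw [inc_sum]
    exact hK v
  have hI0 : ∀ v, 0 ≤ ∑ e ∈ I v, c e := fun v => Finset.sum_nonneg fun e _ => hc e
  have h1 : ∑ p ∈ PPs V, c p.1 * c p.2 ≤
      ∑ p ∈ PPs V, ∑ v, if p ∈ I v ×ˢ I v then c p.1 * c p.2 else 0 := by
    apply Finset.sum_le_sum
    intro p hp
    unfold PPs at hp
    rw [Finset.mem_filter] at hp
    obtain ⟨_, hd1, hd2, v, hv1, hv2⟩ := hp
    have hmem : p ∈ I v ×ˢ I v := by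
      rw [Finset.mem_product]
      simp only [hI, Finset.mem_filter, Finset.mem_univ, true_and]
      exact ⟨⟨hd1, hv1⟩, hd2, hv2⟩
    have := Finset.single_le_sum
      (f := fun v => if p ∈ I v ×ˢ I v then c p.1 * c p.2 else 0)
      (fun v _ => by
        show 0 ≤ if p ∈ I v ×ˢ I v then c p.1 * c p.2 else 0
        split_ifs
        · exact mul_nonneg (hc _) (hc _)
        · exact le_rfl) (Finset.mem_univ v)
    simp only [hmem, if_true] at this
    exact this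
  have h2 : ∑ p ∈ PPs V, ∑ v, (if p ∈ I v ×ˢ I v then c p.1 * c p.2 else 0) ≤
      ∑ v, (∑ e ∈ I v, c e) ^ 2 := by
    rw [Finset.sum_comm]
    apply Finset.sum_le_sum
    intro v _
    rw [← Finset.sum_filter, pow_two, Finset.sum_mul_sum, ← Finset.sum_product']
    apply Finset.sum_le_sum_of_subset_of_nonneg
    · intro p hp
      exact (Finset.mem_filter.mp hp).2
    · intro p _ _
      exact mul_nonneg (hc _) (hc _)
  have h3 : ∑ v, (∑ e ∈ I v, c e) ^ 2 ≤ (Fintype.card V : ℝ) * (K * D) ^ 2 := by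
    calc ∑ v, (∑ e ∈ I v, c e) ^ 2 ≤ ∑ v : V, (K * D) ^ 2 :=
          Finset.sum_le_sum fun v _ => pow_le_pow_left₀ (hI0 v) (hIs v) 2
      _ = (Fintype.card V : ℝ) * (K * D) ^ 2 := by simp [Finset.sum_const, nsmul_eq_mul]
  have h4 := mm_sum S D δ hD hδ hS
  have h5 : (Fintype.card V : ℝ) * (K * D) ^ 2 ≤
      4 * K ^ 2 / Fintype.card V * (∑ x, mm S D δ x) ^ 2 := by
    have h6 : (D * Fintype.card V / 2) ^ 2 ≤ (∑ x, mm S D δ x) ^ 2 :=
      pow_le_pow_left₀ (by positivity) h4 2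
    have h7 : 4 * K ^ 2 / Fintype.card V * (D * Fintype.card V / 2) ^ 2 =
        (Fintype.card V : ℝ) * (K * D) ^ 2 := by
      field_simp
      ring
    rw [← h7]
    exact mul_le_mul_of_nonneg_left h6 (by positivity)
  exact h1.trans (h2.trans (h3.trans h5))

theorem csum_QQ (c : Sym2 V → ℝ) (hc : ∀ e, 0 ≤ c e) (K D δ : ℝ) (hK0 : 0 ≤ K) (hD : 1 ≤ D)
    (hδ : 0 < δ) (hn : 2 ≤ Fintype.card V) (hK : ∀ x, ∑ y ∈ univ.erase x, c s(x, y) ≤ K * D)
    (S : Finset V) (hS : (Fintype.card V : ℝ) ≤ 2 * S.card) :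
    ∑ p ∈ QQs V, mm S D δ p.1 * c p.2 ≤ 2 * K / Fintype.card V * (∑ x, mm S D δ x) ^ 2 := by
  classical
  have hnpos : (0 : ℝ) < Fintype.card V := by
    have : 0 < Fintype.card V := by omega
    exact_mod_cast this
  have hm0 : ∀ x, 0 ≤ mm S D δ x := fun x => (mm_pos S D δ hD hδ hn x).le
  have h1 : ∑ p ∈ QQs V, mm S D δ p.1 * c p.2 =
      ∑ x, mm S D δ x * ∑ e ∈ (univ : Finset (Sym2 V)).filter (fun e => ¬ e.IsDiag ∧ x ∈ e),
        c e := by
    unfold QQs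
    rw [Finset.sum_filter, Fintype.sum_prod_type]
    apply Finset.sum_congr rfl
    intro x _
    rw [Finset.mul_sum, Finset.sum_filter]
  rw [h1]
  have h2 : ∑ x, mm S D δ x *
      ∑ e ∈ (univ : Finset (Sym2 V)).filter (fun e => ¬ e.IsDiag ∧ x ∈ e), c e ≤
      (∑ x, mm S D δ x) * (K * D) := by
    rw [Finset.sum_mul]
    apply Finset.sum_le_sum
    intro x _
    rw [inc_sum]
    exact mul_le_mul_of_nonneg_left (hK x) (hm0 x)
  refine h2.trans ?_
  have h4 := mm_sum S D δ hD hδ hS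
  have hM0 : 0 ≤ ∑ x, mm S D δ x := Finset.sum_nonneg fun x _ => hm0 x
  have h5 : D ≤ 2 / Fintype.card V * ∑ x, mm S D δ x := by
    rw [div_mul_eq_mul_div, le_div_iff₀ hnpos]
    linarith
  have h6 : (∑ x, mm S D δ x) * K * D ≤
      (∑ x, mm S D δ x) * K * (2 / Fintype.card V * ∑ x, mm S D δ x) :=
    mul_le_mul_of_nonneg_left h5 (mul_nonneg hM0 hK0)
  calc (∑ x, mm S D δ x) * (K * D) = (∑ x, mm S D δ x) * K * D := by ring
    _ ≤ _ := h6
    _ = 2 * K / Fintype.card V * (∑ x, mm S D δ x) ^ 2 := by ring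

theorem card_PPs : ((PPs V).card : ℝ) ≤ (Fintype.card V : ℝ) ^ 4 := by
  have h1 : (PPs V).card ≤ Fintype.card (Sym2 V × Sym2 V) := Finset.card_le_univ _
  rw [Fintype.card_prod] at h1
  have h2 := csum_card_sym2 V
  have h3 : (PPs V).card ≤ Fintype.card V ^ 4 := by
    calc (PPs V).card ≤ Fintype.card (Sym2 V) * Fintype.card (Sym2 V) := h1
      _ ≤ (Fintype.card V * Fintype.card V) * (Fintype.card V * Fintype.card V) :=
        Nat.mul_le_mul h2 h2
      _ = Fintype.card V ^ 4 := by ring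
  exact_mod_cast h3

theorem card_QQs : ((QQs V).card : ℝ) ≤ (Fintype.card V : ℝ) ^ 3 := by
  have h1 : (QQs V).card ≤ Fintype.card (V × Sym2 V) := Finset.card_le_univ _
  rw [Fintype.card_prod] at h1
  have h2 := csum_card_sym2 V
  have h3 : (QQs V).card ≤ Fintype.card V ^ 3 := by
    calc (QQs V).card ≤ Fintype.card V * Fintype.card (Sym2 V) := h1
      _ ≤ Fintype.card V * (Fintype.card V * Fintype.card V) :=
        Nat.mul_le_mul le_rfl h2
      _ = Fintype.card V ^ 3 := by ring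
  exact_mod_cast h3

end RST.R
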