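import Pool.Agent.Lib.MP_7946c7_pr.Defs

/-!
# Stream R (regime 1), definitions
-/

open Finset

namespace RST.R

open Classical in
/-- Number of `R`-neighbours of `x` in `U`. -/
noncomputable def dg {V : Type} (R : V → V → Prop) (U : Finset V) (x : V) : ℕ :=
  (U.filter fun y => R x y).card

open Classical in
/-- Number of pairs of `X × Y` related by `R` (ordered pairs). -/
noncomputable def ep {V : Type} (R : V → V → Prop) (X Y : Finset V) : ℕ :=
  ((X ×ˢ Y).filter fun p => R p.1 p.2).card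

open Classical in
/-- The `d`-core of `W`: the union of the subsets of `W` of minimal degree at least `d`. -/
noncomputable def core {V : Type} (R : V → V → Prop) (d : ℝ) (W : Finset V) : Finset V :=
  W.filter fun v => ∃ U ⊆ W, v ∈ U ∧ ∀ x ∈ U, d ≤ (dg R U x : ℝ)

/-- The graph facts of regime 1. -/
structure Facts1 {V : Type} [Fintype V] [DecidableEq V] (RD RL : V → V → Prop) (D Δ : ℝ) (l1 : ℕ)
    (S : Finset V) : Prop where
  big : (Fintype.card V : ℝ) ≤ 2 * S.card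
  degL : ∀ x, (dg RL univ x : ℝ) ≤ Δ
  expa : ∀ X ⊆ S, 2 * X.card ≤ S.card → D / 16 * X.card ≤ (ep RD X (S \ X) : ℝ)
  arm : ∀ γ : ℕ → V, IsSAW RL γ l1 → ∃ i ≤ l1, D / 8 ≤ (dg RD S (γ i) : ℝ)

/-- The masses: `D` on `S`, `δ / n ^ 2` elsewhere. -/
noncomputable def mm {V : Type} [Fintype V] [DecidableEq V] (S : Finset V) (D δ : ℝ) (x : V) : ℝ :=
  if x ∈ S then D else δ / (Fintype.card V : ℝ) ^ 2

/-- The hypotheses of the deterministic part of regime 1. -/
structure Net {V : Type} [Fintype V] [DecidableEq V] (c : Sym2 V → ℝ) (RD RL : V → V → Prop)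
    (D η δ C7 : ℝ) (l1 : ℕ) (S : Finset V) : Prop where
  symD : ∀ u v, RD u v → RD v u
  sub : ∀ u v, RD u v → RL u v
  D1 : 1 ≤ D
  η1 : 1 ≤ η
  C71 : 1 ≤ C7
  δ0 : 0 < δ
  δ1 : δ ≤ 1
  cδ : ∀ e, δ ≤ c e
  cD : ∀ u v, RD u v → 1 / η ≤ c s(u, v)
  facts : Facts1 RD RL D (C7 * D) l1 S

end RST.R
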