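import Pool.Agent.Lib.MP_7946c7_pr.Defs

/-!
# R, job R12: energies as sums over ordered pairs (deterministic)

PROOFS. `sum_pairs`: for `g : Sym2 V → ℝ` vanishing on the diagonal,
`∑ x, ∑ y, g s(x, y) = 2 * ∑ e, g e`: group the pairs `(x, y)` by `e = s(x, y)`
(`Finset.sum_fiberwise`, `Finset.sum_comp`): a non-diagonal `e = s(a, b)` has exactly the two
preimages `(a, b)`, `(b, a)`; diagonal ones contribute `0`.
`dir_pairs`: `g e = c e * sqd f e`, `sqd f s(x, y) = (f x - f y) ^ 2`, zero on the diagonal.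
`rel_le`: for `p ∈ P`, `(f p.1 - f p.2) ^ 2 ≤ η * (c s(p.1, p.2) * (f p.1 - f p.2) ^ 2)`, and the sum
over `P` of nonnegative terms is at most the sum over all the pairs, which is `η * (2 * Dir c f)`.
`pair_le`: if `u = v` the left side is `0`; otherwise the term `e = s(u, v)` of `Dir c f` is at
least `δ (f u - f v) ^ 2` and the others are `≥ 0`.
`edge_sum`: `sum_pairs` with `g e = if e.IsDiag then 0 else c e`.
-/

open Finset

namespace RST.R

variable {V : Type} [Fintype V] [DecidableEq V]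

theorem sum_pairs (g : Sym2 V → ℝ) (hg : ∀ x, g s(x, x) = 0) :
    ∑ x, ∑ y, g s(x, y) = 2 * ∑ e, g e := by
  rw [← Fintype.sum_prod_type' (fun x y => g s(x, y))]
  have h1 : ∑ p : V × V, g s(p.1, p.2) = ∑ e : Sym2 V,
      ∑ p ∈ univ.filter (fun p : V × V => s(p.1, p.2) = e), g s(p.1, p.2) :=
    (Finset.sum_fiberwise_of_maps_to (fun _ _ => mem_univ _) _).symm
  rw [h1, mul_sum]
  apply sum_congr rfl
  intro e _
  induction e using Sym2.ind with
  | _ a b =>
    have h2 : ∑ p ∈ univ.filter (fun p : V × V => s(p.1, p.2) = s(a, b)), g s(p.1, p.2) =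
        ∑ p ∈ univ.filter (fun p : V × V => s(p.1, p.2) = s(a, b)), g s(a, b) := by
      apply sum_congr rfl
      intro p hp
      rw [(mem_filter.1 hp).2]
    rw [h2, sum_const, nsmul_eq_mul]
    by_cases hab : a = b
    · subst hab
      rw [hg]
      ring
    · have h3 : univ.filter (fun p : V × V => s(p.1, p.2) = s(a, b)) = {(a, b), (b, a)} := by
        ext ⟨x, y⟩
        simp only [mem_filter, mem_univ, true_and, Sym2.eq_iff, mem_insert, mem_singleton,
          Prod.mk.injEq]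
      rw [h3, card_pair]
      · norm_num
      · intro h
        exact hab (Prod.mk.inj h).1

theorem dir_pairs (c : Sym2 V → ℝ) (f : V → ℝ) :
    ∑ x, ∑ y, c s(x, y) * (f x - f y) ^ 2 = 2 * Dir c f := by
  have h := sum_pairs (fun e => c e * sqd f e) (fun x => by
    show c s(x, x) * (f x - f x) ^ 2 = 0
    ring)
  exact h

private theorem Energy_term (c : Sym2 V → ℝ) (hc : ∀ e, 0 ≤ c e) (f : V → ℝ) (e : Sym2 V) :
    0 ≤ c e * sqd f e := by
  induction e using Sym2.ind with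
  | _ a b =>
    show 0 ≤ c s(a, b) * (f a - f b) ^ 2
    exact mul_nonneg (hc _) (sq_nonneg _)

theorem dir_nonneg (c : Sym2 V → ℝ) (hc : ∀ e, 0 ≤ c e) (f : V → ℝ) : 0 ≤ Dir c f := by
  unfold Dir
  exact sum_nonneg fun e _ => Energy_term c hc f e

theorem rel_le (c : Sym2 V → ℝ) (hc : ∀ e, 0 ≤ c e) (η : ℝ) (hη : 0 < η) (P : Finset (V × V))
    (hP : ∀ p ∈ P, 1 / η ≤ c s(p.1, p.2)) (f : V → ℝ) :
    ∑ p ∈ P, (f p.1 - f p.2) ^ 2 ≤ 2 * η * Dir c f := by
  have h1 : ∑ p ∈ P, (f p.1 - f p.2) ^ 2 ≤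
      ∑ p ∈ P, η * (c s(p.1, p.2) * (f p.1 - f p.2) ^ 2) := by
    apply sum_le_sum
    intro p hp
    have h2 := hP p hp
    rw [div_le_iff₀ hη] at h2
    have h3 := mul_le_mul_of_nonneg_right h2 (sq_nonneg (f p.1 - f p.2))
    linarith
  have h4 : ∑ p ∈ P, η * (c s(p.1, p.2) * (f p.1 - f p.2) ^ 2) ≤
      ∑ p : V × V, η * (c s(p.1, p.2) * (f p.1 - f p.2) ^ 2) := by
    apply sum_le_sum_of_subset_of_nonneg (subset_univ _)
    intro p _ _
    exact mul_nonneg hη.le (mul_nonneg (hc _) (sq_nonneg _))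
  refine h1.trans (h4.trans (le_of_eq ?_))
  rw [← mul_sum, Fintype.sum_prod_type, dir_pairs]
  ring

theorem pair_le (c : Sym2 V → ℝ) (δ : ℝ) (hδ : 0 < δ) (hc : ∀ e, δ ≤ c e) (u v : V) (f : V → ℝ) :
    (f u - f v) ^ 2 ≤ Dir c f / δ := by
  rw [le_div_iff₀ hδ]
  have h1 : c s(u, v) * sqd f s(u, v) ≤ Dir c f := by
    unfold Dir
    exact single_le_sum (f := fun e => c e * sqd f e)
      (fun e _ => Energy_term c (fun e => hδ.le.trans (hc e)) f e) (mem_univ s(u, v))
  refine le_trans ?_ h1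
  show (f u - f v) ^ 2 * δ ≤ c s(u, v) * (f u - f v) ^ 2
  have := mul_le_mul_of_nonneg_right (hc s(u, v)) (sq_nonneg (f u - f v))
  linarith

/-- Sum over the non-diagonal edges. -/
theorem edge_sum (c : Sym2 V → ℝ) :
    2 * ∑ e ∈ (univ : Finset (Sym2 V)).filter (fun e => ¬ e.IsDiag), c e =
      ∑ x, ∑ y ∈ univ.erase x, c s(x, y) := by
  rw [sum_filter, ← sum_pairs (fun e => if ¬ e.IsDiag then c e else 0)]
  · apply sum_congr rfl
    intro x _
    rw [← sum_erase_add univ _ (mem_univ x)]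
    have h0 : (if ¬ (s(x, x) : Sym2 V).IsDiag then c s(x, x) else 0) = 0 := by
      rw [if_neg]
      simp
    rw [h0, add_zero]
    apply sum_congr rfl
    intro y hy
    rw [if_pos]
    intro h
    exact (mem_erase.1 hy).1 (Sym2.mk_isDiag_iff.1 h).symm
  · intro x
    rw [if_neg]
    simp

end RST.R
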