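import Pool.Agent.Lib.MP_7946c7_pr.IfC
import Pool.Agent.Lib.MP_7946c7_pr.R.Basic
import Pool.Agent.Lib.MP_7946c7_pr.R.Energy

/-!
# R, job R14: Poincaré inequality (deterministic)

PROOFS. `n = card V`; `S ≠ ∅` when `V ≠ ∅` (`h.facts.big`).
`poinc_S`: `cheeger S RD h.symD Δ _ (D / 16) _ _ f` with `Δ = ⌊C7 * D⌋₊` (`dg RD S u ≤ dg RL univ u`,
`h.sub`, `h.facts.degL`, `Nat.le_floor`; `h.facts.expa`): the sum over `S` of `(f - fbar) ^ 2` is at
most `Δ / (D / 16) ^ 2` times the sum over the pairs of `S × S` related by `RD` of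
`(f u - f v) ^ 2`, which is at most `2 η Dir c f` (`rel_le`, `h.cD`). `Δ / (D / 16) ^ 2 ≤ 256 C7 / D`.
`out_S`: for `v ∉ S`: `f v - fbar = (∑ u ∈ S, (f v - f u)) / #S`, so
`(f v - fbar) ^ 2 ≤ (∑ u ∈ S, (f v - f u) ^ 2) / #S` (Cauchy, `sq_sum_div_le_sum_sq_div` or
`inner_mul_le_norm_mul_norm`, `Finset.sum_div`...; or simply each `(f v - f u) ^ 2 ≤ Dir / δ` by
`pair_le`) `≤ Dir c f / δ`. Sum over at most `n` vertices `v`:
`δ / n ^ 2 * (n * (Dir c f / δ)) = Dir c f / n ≤ Dir c f`.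
`gap`: `∑ m f ^ 2 ≤ ∑ m (f - a) ^ 2` for every `a` when `∑ m f = 0` (expand: the difference is
`a ^ 2 ∑ m ≥ 0`); take `a = fbar` and split the sum over `S` and `Sᶜ`.
-/

open Finset

namespace RST.R

variable {V : Type} [Fintype V] [DecidableEq V] {c : Sym2 V → ℝ} {RD RL : V → V → Prop}
  {D η δ C7 : ℝ} {l1 : ℕ} {S : Finset V}

private theorem Poinc_dg (h : Net c RD RL D η δ C7 l1 S) (u : V) :
    (dg RD S u : ℝ) ≤ C7 * D := by
  refine le_trans ?_ (h.facts.degL u)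
  have h1 : dg RD S u ≤ dg RL univ u := by
    unfold dg
    apply card_le_card
    intro y hy
    simp only [mem_filter, mem_univ, true_and] at hy ⊢
    exact h.sub _ _ hy.2
  exact_mod_cast h1

private theorem Poinc_cnn (h : Net c RD RL D η δ C7 l1 S) (e : Sym2 V) : 0 ≤ c e :=
  h.δ0.le.trans (h.cδ e)

theorem poinc_S (h : Net c RD RL D η δ C7 l1 S) (f : V → ℝ) :
    D * ∑ u ∈ S, (f u - (∑ v ∈ S, f v) / S.card) ^ 2 ≤ 512 * C7 * η * Dir c f := by
  classical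
  have hD : 0 < D := lt_of_lt_of_le one_pos h.D1
  have hη : 0 < η := lt_of_lt_of_le one_pos h.η1
  have hC : 0 < C7 := lt_of_lt_of_le one_pos h.C71
  have hDir : 0 ≤ Dir c f := dir_nonneg c (Poinc_cnn h) f
  have hch := cheeger S RD h.symD ⌊C7 * D⌋₊ (by
      intro u _
      have h1 := Nat.le_floor (Poinc_dg h u)
      unfold dg at h1
      rw [Finset.filter_congr_decidable] at h1 ⊢
      exact h1) (D / 16) (by positivity) (by
      intro X hX h2
      have h1 := h.facts.expa X hX h2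
      unfold ep at h1
      have h3 : ∀ p : V × V, p ∈ X ×ˢ (S \ X) ↔ p.1 ∈ X ∧ p.2 ∈ S ∧ p.2 ∉ X := by
        intro p
        rw [Finset.mem_product, Finset.mem_sdiff]
      refine h1.trans (Nat.cast_le.2 (Finset.card_le_card fun p hp => ?_))
      simp only [Finset.mem_filter, Finset.mem_product, Finset.mem_sdiff] at hp ⊢
      exact hp) f
  have hsum : ∑ p ∈ (S ×ˢ S).filter (fun p => RD p.1 p.2), (f p.1 - f p.2) ^ 2 ≤
      2 * η * Dir c f := by
    apply rel_le c (Poinc_cnn h) η hη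
    intro p hp
    exact h.cD _ _ (mem_filter.1 hp).2
  have hfl : ((⌊C7 * D⌋₊ : ℕ) : ℝ) ≤ C7 * D := Nat.floor_le (by positivity)
  have h3 : ((⌊C7 * D⌋₊ : ℕ) : ℝ) / (D / 16) ^ 2 *
      ∑ p ∈ (S ×ˢ S).filter (fun p => RD p.1 p.2), (f p.1 - f p.2) ^ 2 ≤
      (C7 * D) / (D / 16) ^ 2 * (2 * η * Dir c f) := by
    apply mul_le_mul _ hsum _ _
    · exact div_le_div_of_nonneg_right hfl (by positivity)
    · exact sum_nonneg fun p _ => sq_nonneg _
    · positivity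
  have h4 : D * ((C7 * D) / (D / 16) ^ 2 * (2 * η * Dir c f)) = 512 * C7 * η * Dir c f := by
    field_simp
    ring
  rw [← h4]
  apply mul_le_mul_of_nonneg_left _ hD.le
  refine le_trans ?_ h3
  rw [Finset.filter_congr_decidable] at hch ⊢
  exact hch

private theorem Poinc_mean (h : Net c RD RL D η δ C7 l1 S) (f : V → ℝ) (x : V) :
    (f x - (∑ v ∈ S, f v) / S.card) ^ 2 ≤ Dir c f / δ := by
  have hn : (0 : ℝ) < Fintype.card V := by
    have : 0 < Fintype.card V := Fintype.card_pos_iff.2 ⟨x⟩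
    exact_mod_cast this
  have hS : (0 : ℝ) < S.card := by
    have := h.facts.big
    linarith
  have h1 : f x - (∑ v ∈ S, f v) / S.card = (∑ v ∈ S, (f x - f v)) / S.card := by
    rw [sum_sub_distrib, sum_const, nsmul_eq_mul]
    field_simp
  rw [h1, div_pow, div_le_iff₀ (by positivity)]
  have h2 : (∑ v ∈ S, (f x - f v)) ^ 2 ≤ S.card * ∑ v ∈ S, (f x - f v) ^ 2 :=
    sq_sum_le_card_mul_sum_sq
  have h3 : ∑ v ∈ S, (f x - f v) ^ 2 ≤ ∑ v ∈ S, Dir c f / δ :=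
    sum_le_sum fun v _ => pair_le c δ h.δ0 h.cδ x v f
  rw [sum_const, nsmul_eq_mul] at h3
  calc (∑ v ∈ S, (f x - f v)) ^ 2 ≤ S.card * ∑ v ∈ S, (f x - f v) ^ 2 := h2
    _ ≤ S.card * (S.card * (Dir c f / δ)) := mul_le_mul_of_nonneg_left h3 hS.le
    _ = Dir c f / δ * (S.card : ℝ) ^ 2 := by ring

theorem out_S (h : Net c RD RL D η δ C7 l1 S) (f : V → ℝ) :
    ∑ x ∈ Sᶜ, mm S D δ x * (f x - (∑ v ∈ S, f v) / S.card) ^ 2 ≤ Dir c f := by
  have hDir : 0 ≤ Dir c f := dir_nonneg c (Poinc_cnn h) f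
  rcases isEmpty_or_nonempty V with hV | hV
  · have : (Sᶜ : Finset V) = ∅ := eq_empty_of_isEmpty _
    rw [this, sum_empty]
    exact hDir
  have hn1 : (1 : ℝ) ≤ Fintype.card V := by
    have : 1 ≤ Fintype.card V := Fintype.card_pos
    exact_mod_cast this
  have hδ := h.δ0
  have h1 : ∀ x ∈ (Sᶜ : Finset V), mm S D δ x * (f x - (∑ v ∈ S, f v) / S.card) ^ 2 ≤
      δ / (Fintype.card V : ℝ) ^ 2 * (Dir c f / δ) := by
    intro x hx
    unfold mm
    rw [if_neg (mem_compl.1 hx)]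
    exact mul_le_mul_of_nonneg_left (Poinc_mean h f x) (by positivity)
  refine (sum_le_sum h1).trans ?_
  rw [sum_const, nsmul_eq_mul]
  have h2 : ((Sᶜ : Finset V).card : ℝ) ≤ Fintype.card V := by
    exact_mod_cast card_le_univ _
  have h3 : δ / (Fintype.card V : ℝ) ^ 2 * (Dir c f / δ) = Dir c f / (Fintype.card V : ℝ) ^ 2 := by
    field_simp
  rw [h3]
  have h4 : ((Sᶜ : Finset V).card : ℝ) * (Dir c f / (Fintype.card V : ℝ) ^ 2) ≤
      (Fintype.card V : ℝ) * (Dir c f / (Fintype.card V : ℝ) ^ 2) :=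
    mul_le_mul_of_nonneg_right h2 (by positivity)
  refine h4.trans ?_
  have h5 : (Fintype.card V : ℝ) * (Dir c f / (Fintype.card V : ℝ) ^ 2) =
      Dir c f / Fintype.card V := by
    field_simp
  rw [h5]
  exact div_le_self hDir hn1

theorem gap (h : Net c RD RL D η δ C7 l1 S) (f : V → ℝ) (hf : ∑ x, mm S D δ x * f x = 0) :
    ∑ x, mm S D δ x * f x ^ 2 ≤ (512 * C7 * η + 1) * Dir c f := by
  have hD : 0 < D := lt_of_lt_of_le one_pos h.D1
  have hδ := h.δ0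
  set a : ℝ := (∑ v ∈ S, f v) / S.card with ha
  have hm : ∀ x, 0 ≤ mm S D δ x := by
    intro x
    unfold mm
    split_ifs
    · exact hD.le
    · positivity
  have h1 : ∑ x, mm S D δ x * (f x - a) ^ 2 =
      ∑ x, mm S D δ x * f x ^ 2 + a ^ 2 * ∑ x, mm S D δ x := by
    have h2 : ∀ x, mm S D δ x * (f x - a) ^ 2 =
        mm S D δ x * f x ^ 2 - 2 * a * (mm S D δ x * f x) + a ^ 2 * mm S D δ x := by
      intro x; ring
    rw [sum_congr rfl fun x _ => h2 x, sum_add_distrib, sum_sub_distrib, ← mul_sum, ← mul_sum, hf]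
    ring
  have h3 : ∑ x, mm S D δ x * f x ^ 2 ≤ ∑ x, mm S D δ x * (f x - a) ^ 2 := by
    rw [h1]
    have : 0 ≤ a ^ 2 * ∑ x, mm S D δ x := mul_nonneg (sq_nonneg _) (sum_nonneg fun x _ => hm x)
    linarith
  refine h3.trans ?_
  rw [← sum_add_sum_compl S]
  have h4 : ∑ x ∈ S, mm S D δ x * (f x - a) ^ 2 = D * ∑ x ∈ S, (f x - a) ^ 2 := by
    rw [mul_sum]
    apply sum_congr rfl
    intro x hx
    unfold mm
    rw [if_pos hx]
  rw [h4]
  have h5 := poinc_S h f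
  have h6 := out_S h f
  rw [← ha] at h5 h6
  linarith

end RST.R
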