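import Pool.Agent.Lib.MP_7946c7_pr.IfB
import Pool.Agent.Lib.MP_7946c7_pr.N.Main
import Pool.Agent.Lib.MP_7946c7_pr.R.CSum
import Pool.Agent.Lib.MP_7946c7_pr.R.Poinc

/-!
# R, job R19: lower bound for the longest path of the tree (from `lower_abstract`)

PROOF. `n = card V`. Apply `lower_abstract` with `m = mm S D δ`, `R = S`, `G = Set.univ`, `ε₁ = 0`
(`PT c ∅ = 0`, e.g. `PT_compl`, `PT_univ`), `ε₂ = 1 / n` (`mm_out`), `ε₃ = 2 / n` (`mm_sq`),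
`lam = 1 / (512 * C7 * η + 1)` (`gap`), `E₀ = ∅`, `b₀ = 0`, `P = PPs V`, `b₁ = 4 K ^ 2 s ^ 2 / n`
(`csum_PP`), `Q = QQs V`, `b₂ = 2 K s / n` (`csum_QQ`).
`hL`: `ℓ ≥ 1` because `γ 0 ≠ γ ℓ`; take `q = ℓ - 1` and `g j = j`: `(q + 1) τ + 2 τ + 2 =
ℓ τ + 2 τ + 2 ≤ (M - 1) τ + 2 τ + 2 = M τ + τ + 2 ≤ s` because `2 τ M ≤ s` and `2 τ + 4 ≤ s`.
`γ 0 ∈ s(γ 0, γ 1)`, `γ ℓ ∈ s(γ (ℓ - 1), γ ℓ)`, the edges `s(γ j, γ (j + 1))` and
`s(γ (j + 1), γ (j + 2))` share `γ (j + 1)`, and the edges of a walk of `T` are not diagonal.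
The bound is `0 + 2 / n + 2 / n + 0 + 32 K ^ 2 s ^ 2 / n + 16 K s / n +
(1 + 2 s ^ 2 #P + 2 s #Q) exp (-lam (τ - 1))`, with `#P ≤ n ^ 4`, `#Q ≤ n ^ 3`.
-/

open Finset

namespace RST.R

variable {V : Type} [Fintype V] [DecidableEq V] {c : Sym2 V → ℝ} {RD RL : V → V → Prop}
  {D η δ C7 : ℝ} {l1 : ℕ} {S : Finset V}

theorem lower1 (h : Net c RD RL D η δ C7 l1 S) (K : ℝ) (hK0 : 0 ≤ K)
    (hK : ∀ x, ∑ y ∈ univ.erase x, c s(x, y) ≤ K * D) (hn : 2 ≤ Fintype.card V)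
    (s τ M : ℕ) (hτ : 2 ≤ τ) (hs : 2 * τ + 4 ≤ s) (hM : 2 * τ * M ≤ s) :
    PT c {T | ∀ (γ : ℕ → V) (ℓ : ℕ), IsSAW T.Adj γ ℓ → ℓ < M} ≤
      4 / Fintype.card V + 32 * K ^ 2 * (s : ℝ) ^ 2 / Fintype.card V +
        16 * K * s / Fintype.card V +
        (1 + 2 * (s : ℝ) ^ 2 * (Fintype.card V : ℝ) ^ 4 + 2 * s * (Fintype.card V : ℝ) ^ 3) *
          Real.exp (-((τ - 1) / (512 * C7 * η + 1))) := by
  classical
  set n : ℝ := (Fintype.card V : ℝ) with hn_def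
  have hn' : (2 : ℝ) ≤ n := by rw [hn_def]; exact_mod_cast hn
  have hn0 : (0 : ℝ) < n := by linarith
  have hne : Nonempty V := Fintype.card_pos_iff.mp (by omega)
  have hc : ∀ e, 0 < c e := fun e => lt_of_lt_of_le h.δ0 (h.cδ e)
  have hc0 : ∀ e, 0 ≤ c e := fun e => (hc e).le
  have hm : ∀ x, 0 < mm S D δ x := mm_pos S D δ h.D1 h.δ0 hn
  have hC : (1 : ℝ) ≤ C7 * η := by nlinarith [h.C71, h.η1]
  have hlam0 : (0 : ℝ) < 512 * C7 * η + 1 := by nlinarith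
  have hlam : (0 : ℝ) < 1 / (512 * C7 * η + 1) := by positivity
  have hbig : (Fintype.card V : ℝ) ≤ 2 * S.card := h.facts.big
  have hG : PT c (Set.univ : Set (SimpleGraph V))ᶜ ≤ 0 := by
    rw [PT_compl hc, PT_univ hc]; norm_num
  have hR := mm_out S D δ h.D1 h.δ0 h.δ1 hn hbig
  have h3 := mm_sq S D δ h.D1 h.δ0 h.δ1 hn hbig
  have hgap : ∀ f : V → ℝ, ∑ x, mm S D δ x * f x = 0 →
      1 / (512 * C7 * η + 1) * ∑ x, mm S D δ x * f x ^ 2 ≤ Dir c f := by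
    intro f hf
    have := gap h f hf
    rw [div_mul_eq_mul_div, one_mul, div_le_iff₀ hlam0]
    linarith
  have hP := csum_PP c hc0 K D δ hK0 h.D1 h.δ0 hn hK S hbig
  have hQ := csum_QQ c hc0 K D δ hK0 h.D1 h.δ0 hn hK S hbig
  have hs0 : (0 : ℝ) ≤ s := Nat.cast_nonneg s
  have key := lower_abstract c hc (mm S D δ) hm S Set.univ 0 (1 / n) (2 / n) 0
    (4 * K ^ 2 * (s : ℝ) ^ 2 / n) (2 * K * s / n) (1 / (512 * C7 * η + 1)) hlam hG hR hgap h3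
    s τ hτ (by omega) ∅ (by simp) (PPs V)
    (by
      calc (s : ℝ) ^ 2 * ∑ p ∈ PPs V, c p.1 * c p.2
          ≤ (s : ℝ) ^ 2 * (4 * K ^ 2 / n * (∑ x, mm S D δ x) ^ 2) :=
            mul_le_mul_of_nonneg_left hP (by positivity)
        _ = 4 * K ^ 2 * (s : ℝ) ^ 2 / n * (∑ x, mm S D δ x) ^ 2 := by ring)
    (QQs V)
    (by
      calc (s : ℝ) * ∑ p ∈ QQs V, mm S D δ p.1 * c p.2
          ≤ (s : ℝ) * (2 * K / n * (∑ x, mm S D δ x) ^ 2) :=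
            mul_le_mul_of_nonneg_left hQ (by positivity)
        _ = 2 * K * s / n * (∑ x, mm S D δ x) ^ 2 := by ring)
    M
    (by
      intro T _ hT γ ℓ hγ hℓM _ _ hne' _
      have hℓ : 1 ≤ ℓ := by
        rcases Nat.eq_zero_or_pos ℓ with h0 | h0
        · exact absurd (by rw [h0]) hne'
        · exact h0
      have hnd : ∀ j, j < ℓ → ¬ (s(γ j, γ (j + 1)) : Sym2 V).IsDiag := by
        intro j hj
        rw [Sym2.mk_isDiag_iff]
        exact (hγ.1 j hj).ne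
      refine ⟨ℓ - 1, fun j => j, ?_, ?_, ?_, ?_, ?_⟩
      · intro j hj; show j < ℓ; omega
      · have e1 : ℓ - 1 + 1 = ℓ := by omega
        rw [e1]
        have h1 : ℓ ≤ M - 1 := by omega
        have h2 : ℓ * τ ≤ (M - 1) * τ := Nat.mul_le_mul_right _ h1
        have h3 : (M - 1) * τ + τ = M * τ := by
          obtain ⟨M', rfl⟩ : ∃ M', M = M' + 1 := ⟨M - 1, by omega⟩
          simp only [Nat.add_sub_cancel]; ring
        have h4 : 2 * τ * M = 2 * (M * τ) := by ring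
        omega
      · simp only [QQs, mem_filter, mem_univ, true_and]
        exact ⟨hnd 0 (by omega), Sym2.mem_mk_left _ _⟩
      · simp only [QQs, mem_filter, mem_univ, true_and]
        refine ⟨hnd (ℓ - 1) (by omega), ?_⟩
        have e1 : ℓ - 1 + 1 = ℓ := by omega
        rw [e1]
        exact Sym2.mem_mk_right _ _
      · intro j hj
        left
        simp only [PPs, mem_filter, mem_univ, true_and]
        exact ⟨hnd j (by omega), hnd (j + 1) (by omega), γ (j + 1), Sym2.mem_mk_right _ _,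
          Sym2.mem_mk_left _ _⟩)
  refine key.trans ?_
  have hexp : -(1 / (512 * C7 * η + 1)) * ((τ : ℝ) - 1) =
      -(((τ : ℝ) - 1) / (512 * C7 * η + 1)) := by ring
  rw [hexp]
  have hPc := card_PPs (V := V)
  have hQc := card_QQs (V := V)
  rw [← hn_def] at hPc hQc
  have hE : 0 ≤ Real.exp (-(((τ : ℝ) - 1) / (512 * C7 * η + 1))) := (Real.exp_pos _).le
  have hbr : 1 + 2 * (s : ℝ) ^ 2 * ((PPs V).card : ℝ) + 2 * s * ((QQs V).card : ℝ) ≤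
      1 + 2 * (s : ℝ) ^ 2 * n ^ 4 + 2 * s * n ^ 3 := by
    have i1 : 2 * (s : ℝ) ^ 2 * ((PPs V).card : ℝ) ≤ 2 * (s : ℝ) ^ 2 * n ^ 4 :=
      mul_le_mul_of_nonneg_left hPc (by positivity)
    have i2 : 2 * (s : ℝ) * ((QQs V).card : ℝ) ≤ 2 * s * n ^ 3 :=
      mul_le_mul_of_nonneg_left hQc (by positivity)
    linarith
  have i3 := mul_le_mul_of_nonneg_right hbr hE
  have i4 : 0 + 2 * (1 / n) + 2 / n + 2 * 0 + 8 * (4 * K ^ 2 * (s : ℝ) ^ 2 / n) +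
      8 * (2 * K * s / n) = 4 / n + 32 * K ^ 2 * (s : ℝ) ^ 2 / n + 16 * K * s / n := by
    field_simp
    ring
  linarith

end RST.R
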