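import Pool.Agent.Lib.MP_7946c7_pr.R.Poinc

/-!
# R, job R15: functions vanishing on a long walk (deterministic)

PROOF. `n = card V`, `E = Dir c f ≥ 0`, `fbar` the mean of `f` on `S`. For `i < q` the piece
`j ↦ γ (i (l1 + 1) + j)`, `j ≤ l1`, is a self-avoiding walk of `RL` of length `l1` (its indices are
`≤ M1` because `q (l1 + 1) ≤ M1 + 1`), so by `h.facts.arm` there is
`z i = γ (i (l1 + 1) + j_i)` with `D / 8 ≤ dg RD S (z i)`. The `z i` are distinct (`γ` is injective on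
`{0..M1}`), `f (z i) = 0`; let `Z` be their set, `#Z = q`. For `y ∈ S` let `w y = #{z ∈ Z | RD z y}`;
`w y ≤ dg RL univ y ≤ C7 D` (`h.symD`, `h.sub`), and `∑ y ∈ S, w y = ∑ z ∈ Z, dg RD S z ≥ q D / 8`.
(1) `∑ y ∈ S, w y * f y ^ 2 = ∑ z ∈ Z, ∑ y ∈ S with RD z y, (f z - f y) ^ 2 ≤ 2 η E` (`rel_le` for the
set of the pairs `(z, y) ∈ Z × S` related by `RD`).
(2) `fbar ^ 2 ≤ 2 f y ^ 2 + 2 (f y - fbar) ^ 2`, so `(q D / 8) fbar ^ 2 ≤ ∑ w y fbar ^ 2 ≤
2 (2 η E) + 2 C7 D ∑ y ∈ S, (f y - fbar) ^ 2 ≤ 4 η E + 2 C7 (512 C7 η E)` (`poinc_S`)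
`≤ 1028 C7 ^ 2 η E`. Hence `D fbar ^ 2 ≤ 8224 C7 ^ 2 η E / q`.
(3) `D ∑ y ∈ S, f y ^ 2 = D ∑ (f - fbar) ^ 2 + D #S fbar ^ 2 ≤ 512 C7 η E + n 8224 C7 ^ 2 η E / q`.
(4) for `v ∉ S`, `f v ^ 2 = (f v - f (γ 0)) ^ 2 ≤ E / δ` (`pair_le`), so
`∑ x ∈ Sᶜ, mm x f x ^ 2 ≤ n * (δ / n ^ 2) * E / δ ≤ E`.
Total at most `(512 C7 η + 1 + (n / q) 8224 C7 ^ 2 η) E ≤ 8224 C7 ^ 2 η (1 + n / q) E`.
-/

open Finset

namespace RST.R

variable {V : Type} [Fintype V] [DecidableEq V] {c : Sym2 V → ℝ} {RD RL : V → V → Prop}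
  {D η δ C7 : ℝ} {l1 : ℕ} {S : Finset V}

/-- The special vertices. -/
theorem Dirich_Z (h : Net c RD RL D η δ C7 l1 S) (γ : ℕ → V) (M1 q : ℕ) (hγ : IsSAW RL γ M1)
    (hq2 : q * (l1 + 1) ≤ M1 + 1) :
    ∃ Z : Finset V, Z.card = q ∧ (∀ z ∈ Z, ∃ i ≤ M1, γ i = z) ∧
      ∀ z ∈ Z, D / 8 ≤ (dg RD S z : ℝ) := by
  have h1 : ∀ i : Fin q, ∃ j ≤ l1, D / 8 ≤ (dg RD S (γ (i * (l1 + 1) + j)) : ℝ) := by
    intro i
    have hi : ((i : ℕ) + 1) * (l1 + 1) ≤ q * (l1 + 1) := Nat.mul_le_mul_right _ i.2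
    have hi2 : (i : ℕ) * (l1 + 1) + l1 ≤ M1 := by
      have : ((i : ℕ) + 1) * (l1 + 1) = i * (l1 + 1) + l1 + 1 := by ring
      omega
    have hs : IsSAW RL (fun j => γ (i * (l1 + 1) + j)) l1 := by
      constructor
      · intro j hj
        exact hγ.1 _ (by omega)
      · intro j hj j' hj' hjj
        have := hγ.2 _ (by omega) _ (by omega) hjj
        omega
    exact h.facts.arm _ hs
  choose j hj hjd using h1
  have hle : ∀ i : Fin q, (i : ℕ) * (l1 + 1) + j i ≤ M1 := by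
    intro i
    have hi : ((i : ℕ) + 1) * (l1 + 1) ≤ q * (l1 + 1) := Nat.mul_le_mul_right _ i.2
    have : ((i : ℕ) + 1) * (l1 + 1) = i * (l1 + 1) + l1 + 1 := by ring
    have := hj i
    omega
  have hinj : Function.Injective (fun i : Fin q => γ (i * (l1 + 1) + j i)) := by
    intro i i' hii
    have h2 := hγ.2 _ (hle i) _ (hle i') hii
    have h3 : ((i : ℕ) * (l1 + 1) + j i) / (l1 + 1) = i := by
      rw [Nat.mul_comm, Nat.mul_add_div (Nat.succ_pos l1), Nat.div_eq_of_lt (by have := hj i; omega)]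
      omega
    have h4 : ((i' : ℕ) * (l1 + 1) + j i') / (l1 + 1) = i' := by
      rw [Nat.mul_comm, Nat.mul_add_div (Nat.succ_pos l1), Nat.div_eq_of_lt (by have := hj i'; omega)]
      omega
    apply Fin.ext
    rw [← h3, ← h4, h2]
  refine ⟨univ.image fun i : Fin q => γ (i * (l1 + 1) + j i), ?_, ?_, ?_⟩
  · rw [Finset.card_image_of_injective _ hinj, Finset.card_univ, Fintype.card_fin]
  · intro z hz
    obtain ⟨i, -, rfl⟩ := Finset.mem_image.1 hz
    exact ⟨_, hle i, rfl⟩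
  · intro z hz
    obtain ⟨i, -, rfl⟩ := Finset.mem_image.1 hz
    exact hjd i

open Classical in
theorem Dirich_sum (h : Net c RD RL D η δ C7 l1 S) (Z : Finset V) (g : V → ℝ) (hg : ∀ y, 0 ≤ g y) :
    ∑ p ∈ (Z ×ˢ S).filter (fun p => RD p.1 p.2), g p.2 ≤ C7 * D * ∑ y ∈ S, g y := by
  rw [Finset.sum_filter, Finset.sum_product_right, Finset.mul_sum]
  apply Finset.sum_le_sum
  intro y _
  have h1 : ∑ x ∈ Z, (if RD x y then g y else 0) = ((Z.filter fun x => RD x y).card : ℝ) * g y := by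
    rw [← Finset.sum_filter, Finset.sum_const, nsmul_eq_mul]
  rw [h1]
  apply mul_le_mul_of_nonneg_right _ (hg y)
  refine le_trans ?_ (h.facts.degL y)
  have h2 : (Z.filter fun x => RD x y).card ≤ dg RL univ y := by
    unfold dg
    apply Finset.card_le_card
    intro x hx
    rw [Finset.mem_filter] at hx ⊢
    exact ⟨Finset.mem_univ _, h.sub _ _ (h.symD _ _ hx.2)⟩
  exact_mod_cast h2

open Classical in
theorem Dirich_card (Z : Finset V) (hZ : ∀ z ∈ Z, D / 8 ≤ (dg RD S z : ℝ)) :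
    Z.card * (D / 8) ≤ (((Z ×ˢ S).filter (fun p => RD p.1 p.2)).card : ℝ) := by
  have h1 : (((Z ×ˢ S).filter (fun p => RD p.1 p.2)).card : ℝ) = ∑ z ∈ Z, (dg RD S z : ℝ) := by
    rw [Finset.card_filter, Finset.sum_product]
    push_cast
    apply Finset.sum_congr rfl
    intro z _
    unfold dg
    rw [Finset.card_filter]
    push_cast
    rfl
  rw [h1, ← nsmul_eq_mul, ← Finset.sum_const]
  exact Finset.sum_le_sum hZ

theorem dirichlet (h : Net c RD RL D η δ C7 l1 S) (γ : ℕ → V) (M1 q : ℕ) (hγ : IsSAW RL γ M1)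
    (hq : 1 ≤ q) (hq2 : q * (l1 + 1) ≤ M1 + 1) (f : V → ℝ) (hf : ∀ i ≤ M1, f (γ i) = 0) :
    ∑ x, mm S D δ x * f x ^ 2 ≤
      8224 * C7 ^ 2 * η * (1 + Fintype.card V / q) * Dir c f := by
  classical
  have hc : ∀ e, 0 ≤ c e := fun e => h.δ0.le.trans (h.cδ e)
  have hE : 0 ≤ Dir c f := dir_nonneg c hc f
  set E := Dir c f with hEdef
  have hn : (1 : ℝ) ≤ Fintype.card V := by
    have : 0 < Fintype.card V := Fintype.card_pos_iff.2 ⟨γ 0⟩
    exact_mod_cast this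
  have hq' : (1 : ℝ) ≤ q := by exact_mod_cast hq
  have hD := h.D1
  have hη := h.η1
  have hC := h.C71
  have hδ := h.δ0
  obtain ⟨Z, hZc, hZγ, hZd⟩ := Dirich_Z h γ M1 q hγ hq2
  set fb : ℝ := (∑ v ∈ S, f v) / S.card with hfb
  set P := (Z ×ˢ S).filter (fun p => RD p.1 p.2) with hP
  have hfZ : ∀ z ∈ Z, f z = 0 := by
    intro z hz
    obtain ⟨i, hi, rfl⟩ := hZγ z hz
    exact hf i hi
  have s1 : ∑ p ∈ P, f p.2 ^ 2 ≤ 2 * η * E := by
    have h1 := rel_le c hc η (by linarith) P (fun p hp => h.cD _ _ (Finset.mem_filter.1 hp).2) f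
    refine le_trans (le_of_eq ?_) h1
    apply Finset.sum_congr rfl
    intro p hp
    rw [hfZ p.1 (Finset.mem_product.1 (Finset.mem_filter.1 hp).1).1]
    ring
  have s2 : ∑ p ∈ P, (f p.2 - fb) ^ 2 ≤ C7 * (512 * C7 * η * E) := by
    have h1 := Dirich_sum h Z (fun y => (f y - fb) ^ 2) (fun y => sq_nonneg _)
    have h2 := poinc_S h f
    calc ∑ p ∈ P, (f p.2 - fb) ^ 2 ≤ C7 * D * ∑ y ∈ S, (f y - fb) ^ 2 := h1
      _ = C7 * (D * ∑ y ∈ S, (f y - fb) ^ 2) := by ring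
      _ ≤ C7 * (512 * C7 * η * E) := mul_le_mul_of_nonneg_left h2 (by linarith)
  have s3 : (P.card : ℝ) * fb ^ 2 ≤ 2 * ∑ p ∈ P, f p.2 ^ 2 + 2 * ∑ p ∈ P, (f p.2 - fb) ^ 2 := by
    rw [← nsmul_eq_mul, ← Finset.sum_const, Finset.mul_sum, Finset.mul_sum,
      ← Finset.sum_add_distrib]
    apply Finset.sum_le_sum
    intro p _
    nlinarith [sq_nonneg (f p.2 + (f p.2 - fb)), sq_nonneg (2 * f p.2 - fb)]
  have s4 : (q : ℝ) * (D / 8) ≤ P.card := by
    have := Dirich_card (RD := RD) (S := S) Z hZd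
    rw [hZc] at this
    exact this
  have hCη : 0 ≤ C7 ^ 2 * η * E := by positivity
  have s5 : (q : ℝ) * (D / 8) * fb ^ 2 ≤ 1028 * (C7 ^ 2 * η * E) := by
    have h1 := mul_le_mul_of_nonneg_right s4 (sq_nonneg fb)
    have h2 : η * E ≤ C7 ^ 2 * η * E := by
      have h3 : 1 ≤ C7 ^ 2 := by nlinarith
      have h4 : 0 ≤ η * E := by positivity
      nlinarith
    nlinarith
  have s6 : D * fb ^ 2 ≤ 8224 * (C7 ^ 2 * η * E) / q := by
    rw [le_div_iff₀ (by linarith)]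
    nlinarith
  have s7 : D * ∑ y ∈ S, f y ^ 2 ≤ 512 * C7 * η * E +
      Fintype.card V * (8224 * (C7 ^ 2 * η * E) / q) := by
    have h1 := poinc_S h f
    have h2 : ∑ u ∈ S, (f u - fb) ^ 2 = ∑ y ∈ S, f y ^ 2 - S.card * fb ^ 2 := by
      have h3 : ∑ u ∈ S, f u = S.card * fb := by
        rcases Nat.eq_zero_or_pos S.card with h0 | h0
        · rw [Finset.card_eq_zero.1 h0]
          simp
        · have : (S.card : ℝ) ≠ 0 := by
            have : (0 : ℝ) < S.card := by exact_mod_cast h0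
            exact this.ne'
          rw [hfb]
          field_simp
      have h4 : ∑ u ∈ S, (f u - fb) ^ 2 = ∑ y ∈ S, f y ^ 2 - 2 * fb * ∑ u ∈ S, f u +
          S.card * fb ^ 2 := by
        rw [Finset.mul_sum, ← Finset.sum_sub_distrib, ← nsmul_eq_mul, ← Finset.sum_const,
          ← Finset.sum_add_distrib]
        apply Finset.sum_congr rfl
        intro u _
        ring
      rw [h4, h3]
      ring
    have h5 : (S.card : ℝ) ≤ Fintype.card V := by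
      exact_mod_cast Finset.card_le_univ S
    have h6 : 0 ≤ D * fb ^ 2 := by positivity
    have h7 : (S.card : ℝ) * (D * fb ^ 2) ≤ Fintype.card V * (8224 * (C7 ^ 2 * η * E) / q) :=
      mul_le_mul h5 s6 h6 (by linarith)
    have h8 : D * ∑ y ∈ S, f y ^ 2 = D * ∑ u ∈ S, (f u - fb) ^ 2 + S.card * (D * fb ^ 2) := by
      rw [h2]
      ring
    rw [h8]
    exact add_le_add h1 h7
  have s8 : ∑ x ∈ Sᶜ, mm S D δ x * f x ^ 2 ≤ E := by
    have h1 : ∀ x ∈ Sᶜ, mm S D δ x * f x ^ 2 ≤ E / (Fintype.card V : ℝ) ^ 2 := by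
      intro x hx
      have h2 : mm S D δ x = δ / (Fintype.card V : ℝ) ^ 2 := by
        unfold mm
        rw [if_neg (Finset.mem_compl.1 hx)]
      have h3 := pair_le c δ hδ h.cδ x (γ 0) f
      rw [hf 0 (Nat.zero_le _), sub_zero] at h3
      rw [h2]
      calc δ / (Fintype.card V : ℝ) ^ 2 * f x ^ 2 ≤ δ / (Fintype.card V : ℝ) ^ 2 * (E / δ) :=
            mul_le_mul_of_nonneg_left h3 (by positivity)
        _ = E / (Fintype.card V : ℝ) ^ 2 := by
            field_simp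
    have h4 : ∑ x ∈ Sᶜ, mm S D δ x * f x ^ 2 ≤ ∑ x ∈ Sᶜ, E / (Fintype.card V : ℝ) ^ 2 :=
      Finset.sum_le_sum h1
    rw [Finset.sum_const, nsmul_eq_mul] at h4
    refine h4.trans ?_
    have h5 : ((Sᶜ).card : ℝ) ≤ Fintype.card V := by
      exact_mod_cast Finset.card_le_univ _
    have h6 : 0 ≤ E / (Fintype.card V : ℝ) ^ 2 := by positivity
    calc ((Sᶜ).card : ℝ) * (E / (Fintype.card V : ℝ) ^ 2) ≤
          Fintype.card V * (E / (Fintype.card V : ℝ) ^ 2) := mul_le_mul_of_nonneg_right h5 h6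
      _ = E / Fintype.card V := by
          field_simp
      _ ≤ E := div_le_self hE hn
  have s9 : ∑ x, mm S D δ x * f x ^ 2 = D * ∑ y ∈ S, f y ^ 2 + ∑ x ∈ Sᶜ, mm S D δ x * f x ^ 2 := by
    rw [← Finset.sum_add_sum_compl S]
    congr 1
    rw [Finset.mul_sum]
    apply Finset.sum_congr rfl
    intro x hx
    unfold mm
    rw [if_pos hx]
  rw [s9]
  have t1 : 512 * C7 * η * E + E ≤ 8224 * (C7 ^ 2 * η * E) := by
    have h1 : C7 * η * E ≤ C7 ^ 2 * η * E := by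
      have : 0 ≤ η * E := by positivity
      nlinarith
    have h2 : E ≤ C7 * η * E := by
      have : 1 ≤ C7 * η := by nlinarith
      nlinarith
    nlinarith
  have t2 : 8224 * C7 ^ 2 * η * (1 + Fintype.card V / q) * E =
      8224 * (C7 ^ 2 * η * E) + Fintype.card V * (8224 * (C7 ^ 2 * η * E) / q) := by
    field_simp
  rw [t2]
  linarith

end RST.R
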