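import Pool.Agent.Lib.MP_7946c7_pr.N.Main
import Pool.Agent.Lib.MP_7946c7_pr.R.CSum
import Pool.Agent.Lib.MP_7946c7_pr.R.Dirich

/-!
# R, job R18: upper bound for the lengths of the paths of the tree (from `upper_abstract`)

PROOF. `n = card V`. Apply `upper_abstract c _ (mm S D δ) (mm_pos ..) S G ε1 (1 / n) lam 0 1 K t L' ..`
with `G = {T | ∀ u v, T.Adj u v → RL u v}` (`Gᶜ` is the set of `hT`),
`lam = 1 / (8224 * C7 ^ 2 * η * (1 + n / q)) > 0`, `E = univ.filter (¬ e.IsDiag)`.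
`hR`: `mm_out`. `hU3`: for `T ∈ G` and a self-avoiding walk of `T` of length `ℓ ≥ M1`, the first
`M1 + 1` vertices form a self-avoiding walk of `RL` of length `M1`; `dirichlet`, then multiply by
`lam`. `hU4`: all the edges of a walk of `T` are in `E` (`T.Adj` is irreflexive), so the filter has
cardinality `ℓ`. `hU5`: `csum_edges` (`h.facts.big`). The bound `2 M1 + 2 (0 + 2 * 1 * (t + 1) * K * L')`
is `2 M1 + 4 (t + 1) K L'`, and `-lam * t = -(t / (...))`. Decidability instances: `E` may differ by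
a `Decidable` instance, use `convert` or `classical`.
-/

open Finset

namespace RST.R

variable {V : Type} [Fintype V] [DecidableEq V] {c : Sym2 V → ℝ} {RD RL : V → V → Prop}
  {D η δ C7 : ℝ} {l1 : ℕ} {S : Finset V}

theorem upper1 (h : Net c RD RL D η δ C7 l1 S) (K : ℝ) (hK0 : 0 ≤ K)
    (hK : ∀ x, ∑ y ∈ univ.erase x, c s(x, y) ≤ K * D) (hn : 2 ≤ Fintype.card V) (ε1 : ℝ)
    (hT : PT c {T | ¬ ∀ u v, T.Adj u v → RL u v} ≤ ε1) (M1 q : ℕ) (hq : 1 ≤ q)
    (hq2 : q * (l1 + 1) ≤ M1 + 1) (t L' : ℝ) (ht : 0 < t) (hL' : 1 ≤ L') :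
    PT c {T | ∃ (γ : ℕ → V) (ℓ : ℕ), IsSAW T.Adj γ ℓ ∧
      2 * (M1 : ℝ) + 4 * (t + 1) * K * L' < ℓ} ≤
      2 * ε1 + 2 / Fintype.card V + (Fintype.card V : ℝ) ^ 2 *
        Real.exp (-(t / (8224 * C7 ^ 2 * η * (1 + Fintype.card V / q)))) + 1 / L' := by
  have hc : ∀ e, 0 < c e := fun e => lt_of_lt_of_le h.δ0 (h.cδ e)
  have hc0 : ∀ e, 0 ≤ c e := fun e => (hc e).le
  have hη : 0 < η := lt_of_lt_of_le one_pos h.η1
  have hC : 0 < C7 := lt_of_lt_of_le one_pos h.C71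
  have hqr : (0 : ℝ) < q := by exact_mod_cast (by omega : 0 < q)
  have hnr : (0 : ℝ) < Fintype.card V := by exact_mod_cast (by omega : 0 < Fintype.card V)
  set den : ℝ := 8224 * C7 ^ 2 * η * (1 + Fintype.card V / q) with hden
  have hden0 : 0 < den := by rw [hden]; positivity
  have hne0 : Nonempty V := Fintype.card_pos_iff.mp (by omega)
  have key := upper_abstract c hc (mm S D δ) (mm_pos S D δ h.D1 h.δ0 hn) S
    {T : SimpleGraph V | ∀ u v, T.Adj u v → RL u v} ε1 (1 / Fintype.card V) (1 / den) 0 1 K t L'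
    hT (mm_out S D δ h.D1 h.δ0 h.δ1 hn h.facts.big) (by positivity) M1 ?_
    ((univ : Finset (Sym2 V)).filter (fun e => ¬ e.IsDiag)) le_rfl zero_le_one ?_
    (csum_edges c hc0 K D δ hK0 h.D1 h.δ0 hK S h.facts.big) ht hL'
  · have e1 : {T : SimpleGraph V | ∃ (γ : ℕ → V) (ℓ : ℕ), IsSAW T.Adj γ ℓ ∧
        2 * (M1 : ℝ) + 4 * (t + 1) * K * L' < ℓ} =
        {T : SimpleGraph V | ∃ (γ : ℕ → V) (ℓ : ℕ), IsSAW T.Adj γ ℓ ∧
        2 * (M1 : ℝ) + 2 * (0 + 2 * 1 * (t + 1) * K * L') < ℓ} := by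
      have : 2 * (M1 : ℝ) + 4 * (t + 1) * K * L' =
          2 * (M1 : ℝ) + 2 * (0 + 2 * 1 * (t + 1) * K * L') := by ring
      rw [this]
    rw [e1]
    refine key.trans (le_of_eq ?_)
    have e2 : -(1 / den) * t = -(t / den) := by ring
    rw [e2]
    ring
  · intro T hTG hTt γ ℓ hM hγ _ f hf
    have hγ' : IsSAW RL γ M1 := by
      refine ⟨fun i hi => hTG _ _ (hγ.1 i (by omega)), fun i hi j hj hij => ?_⟩
      exact hγ.2 i (by omega) j (by omega) hij
    have hd := dirichlet h γ M1 q hγ' hq hq2 f hf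
    calc 1 / den * ∑ x, mm S D δ x * f x ^ 2 ≤ 1 / den * (den * Dir c f) := by gcongr
      _ = Dir c f := by field_simp
  · intro T hTG hTt γ ℓ hγ _
    have : ((range ℓ).filter fun i => s(γ i, γ (i + 1)) ∈
        (univ : Finset (Sym2 V)).filter (fun e => ¬ e.IsDiag)) = range ℓ := by
      apply filter_true_of_mem
      intro i hi
      rw [mem_filter]
      refine ⟨mem_univ _, ?_⟩
      rw [Sym2.mk_isDiag_iff]
      exact (hγ.1 i (mem_range.1 hi)).ne
    rw [this, card_range]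
    simp

end RST.R
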