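import Pool.Agent.Lib.MP_7946c7_pr.R.AsyL
import Pool.Agent.Lib.MP_7946c7_pr.R.AsyU
import Pool.Agent.Lib.MP_7946c7_pr.R.CLab
import Pool.Agent.Lib.MP_7946c7_pr.R.Lower
import Pool.Agent.Lib.MP_7946c7_pr.R.Upper

/-!
# R, job R24: the deterministic part of regime 1

PROOF. `K = exp C * C7 + 1`, `δ = exp (-κ n)`, `η = n ^ θ`; `n₀` from `asyU` and `asyL` (with `ε' / 2`)
and large enough for `1 ≤ c0 log n`, `n ≥ 2`.
`Net`: `symD`, `sub` clear (`D - 1 ≤ L`); `cδ`: `lab e ≤ n - 1 ≤ n`; `cD`: for `lab e ≤ D - 1 ≤ D`,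
`exp (-κ lab e) ≥ exp (-κ D) ≥ exp (-θ log n) = n ^ (-θ)`.
`hout` of `csum_labels`: if `L = n - 1` there is no `e` with `L < lab e`; otherwise
`-κ lab e ≤ -κ L ≤ - 6 log n`, so `n exp (..) ≤ n ^ (-5) ≤ 1`.
`hT` of `upper1` with `ε1 = 1 / n`: if `L = n - 1` the set is empty (every edge of `T` has
label `≤ n - 1`), otherwise `tree_labels` with `x = 3 log n` and the walk of length `1` from `u` to `v`
(`κ > 0`, `Fintype.card_fin`, `hconn`).
Then the complement of the event is contained (up to non-trees, `PT_mono`) in the union of the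
events of `upper1` and `lower1` by `exists_saw_diam` and `saw_le_diam` (IfT); `PT_union_le`, `PT_compl`.
-/

open Finset

namespace RST.R

theorem det_main (C θ ε ε' c0 C7 : ℝ) (l1 : ℕ) (hC : 0 < C) (hθ : 0 < θ) (hθ1 : θ ≤ 1 / 16)
    (hε : 4 * θ ≤ ε) (hε' : 0 < ε') (hc0 : 0 < c0) (hC7 : 1 ≤ C7) : ∃ n₀ : ℕ, ∀ n : ℕ, n₀ ≤ n →
    ∀ κ D L : ℝ, 0 ≤ κ → κ ≤ C → c0 * Real.log n ≤ D → D ≤ 1 + L →
    κ * D ≤ θ * Real.log n →
    (L = n - 1 ∨ (0 < κ ∧ L = 3 * Real.log n + 6 * Real.log n / κ)) →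
    ∀ lab : Sym2 (Fin n) → ℝ, (∀ e, -1 ≤ lab e) → (∀ e, lab e ≤ n - 1) →
    (∃ S, Facts1 (gr lab (D - 1)) (gr lab L) D (C7 * D) l1 S) →
    (∀ u v, Rch (gr lab (3 * Real.log n)) univ u v) →
    1 - ε' ≤ PT (fun e => Real.exp (-κ * lab e)) {T | (n : ℝ) ^ (1 / 2 - ε) ≤ (T.diam : ℝ) ∧
      (T.diam : ℝ) ≤ (n : ℝ) ^ (1 / 2 + ε)} := by
  set K := Real.exp C * C7 + 1 with hKdef
  have hK0 : 0 ≤ K := by positivity
  obtain ⟨nU, hU⟩ := asyU θ ε (ε' / 2) C7 K l1 hθ hθ1 hε (by linarith) hC7 hK0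
  obtain ⟨nL, hL⟩ := asyL θ ε (ε' / 2) C7 K hθ hθ1 hε (by linarith) hC7 hK0
  have hlog : ∃ n₁ : ℕ, ∀ n : ℕ, n₁ ≤ n → 1 ≤ c0 * Real.log n := by
    have := ((Real.tendsto_log_atTop.comp tendsto_natCast_atTop_atTop).const_mul_atTop
      hc0).eventually_ge_atTop 1
    exact Filter.eventually_atTop.1 this
  obtain ⟨n1, h1⟩ := hlog
  refine ⟨max (max nU nL) (max n1 2), ?_⟩
  intro n hn κ D L hκ0 hκC hD hDL hκD hLc lab hlab1 hlab2 ⟨S, hS⟩ hconn
  have hnU : nU ≤ n := (le_max_left _ _).trans ((le_max_left _ _).trans hn)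
  have hnL : nL ≤ n := (le_max_right _ _).trans ((le_max_left _ _).trans hn)
  have hn1 : n1 ≤ n := (le_max_left _ _).trans ((le_max_right _ _).trans hn)
  have hn2 : 2 ≤ n := (le_max_right _ _).trans ((le_max_right _ _).trans hn)
  haveI : Nonempty (Fin n) := ⟨⟨0, by omega⟩⟩
  have hnR : (2 : ℝ) ≤ n := by exact_mod_cast hn2
  have hn0 : (0 : ℝ) < n := by linarith
  have hcard : Fintype.card (Fin n) = n := Fintype.card_fin n
  have hcard2 : 2 ≤ Fintype.card (Fin n) := by rw [hcard]; exact hn2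
  have hlog0 : 0 ≤ Real.log n := Real.log_nonneg (by linarith)
  have hD1 : 1 ≤ D := (h1 n hn1).trans hD
  set c : Sym2 (Fin n) → ℝ := fun e => Real.exp (-κ * lab e) with hc
  have hcpos : ∀ e, 0 < c e := fun e => Real.exp_pos _
  have hnet : Net c (gr lab (D - 1)) (gr lab L) D ((n : ℝ) ^ θ) (Real.exp (-κ * n)) C7 l1 S := by
    refine ⟨?_, ?_, hD1, Real.one_le_rpow (by linarith) hθ.le, hC7, Real.exp_pos _, ?_, ?_, ?_, hS⟩
    · rintro u v ⟨h, h'⟩
      exact ⟨h.symm, by rwa [Sym2.eq_swap]⟩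
    · rintro u v ⟨h, h'⟩
      exact ⟨h, by linarith⟩
    · apply Real.exp_le_one_iff.2
      nlinarith
    · intro e
      apply Real.exp_le_exp.2
      nlinarith [hlab2 e]
    · rintro u v ⟨h, h'⟩
      have e1 : 1 / (n : ℝ) ^ θ = Real.exp (-(θ * Real.log n)) := by
        rw [Real.rpow_def_of_pos hn0, Real.exp_neg, one_div, mul_comm θ]
      rw [e1]
      apply Real.exp_le_exp.2
      have : κ * lab s(u, v) ≤ κ * D := mul_le_mul_of_nonneg_left (by linarith) hκ0
      linarith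
  have hout : ∀ e, L < lab e → Fintype.card (Fin n) * Real.exp (-κ * lab e) ≤ 1 := by
    intro e he
    rcases hLc with hLc | ⟨hκ, hLc⟩
    · exfalso
      have := hlab2 e
      linarith
    · rw [hcard]
      have h3 : 6 * Real.log n / κ < lab e := by linarith
      rw [div_lt_iff₀ hκ] at h3
      have h4 : Real.exp (-κ * lab e) ≤ Real.exp (-Real.log n) := by
        apply Real.exp_le_exp.2
        nlinarith
      rw [Real.exp_neg, Real.exp_log hn0] at h4
      calc (n : ℝ) * Real.exp (-κ * lab e) ≤ n * (n : ℝ)⁻¹ := by gcongr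
        _ = 1 := by field_simp
  have hK : ∀ x, ∑ y ∈ univ.erase x, c s(x, y) ≤ K * D := fun x =>
    csum_labels lab κ C D L C7 hκ0 hκC hlab1 hD1 hS.degL hout x
  have hempty : PT c (∅ : Set (SimpleGraph (Fin n))) = 0 := by
    have h5 := PT_compl hcpos (Set.univ : Set (SimpleGraph (Fin n)))
    rw [PT_univ hcpos, Set.compl_univ] at h5
    linarith
  have hT : PT c {T | ¬ ∀ u v, T.Adj u v → gr lab L u v} ≤ 1 / n := by
    rcases hLc with hLc | ⟨hκ, hLc⟩
    · have h6 : {T : SimpleGraph (Fin n) | ¬ ∀ u v, T.Adj u v → gr lab L u v} = ∅ := by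
        rw [Set.eq_empty_iff_forall_notMem]
        intro T hT
        apply hT
        intro u v huv
        refine ⟨huv.ne, ?_⟩
        rw [hLc]
        exact hlab2 _
      rw [h6, hempty]
      positivity
    · have h7 := tree_labels lab κ hκ hcard2
      rw [hcard] at h7
      refine le_trans (PT_mono hcpos ?_) h7
      intro T _ hT hall
      apply hT
      intro u v huv
      refine ⟨huv.ne, ?_⟩
      have hne := huv.ne
      have h8 := hall (3 * Real.log n) (fun i => if i = 0 then u else v) 1 ?_ ?_ 0 (by norm_num)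
      · rw [hLc]
        simpa using h8
      · constructor
        · intro i hi
          have : i = 0 := by omega
          subst this
          simpa using huv
        · intro i hi j hj hij
          have hi' : i = 0 ∨ i = 1 := by omega
          have hj' : j = 0 ∨ j = 1 := by omega
          rcases hi' with rfl | rfl <;> rcases hj' with rfl | rfl <;> simp_all
      · exact hconn _ _
  obtain ⟨M1, q, t, L', hq, hq2, ht, hL', hu1, hu2⟩ := hU n hnU
  obtain ⟨s, τ, M, hτ, hs, hM, hl1, hl2⟩ := hL n hnL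
  have up := upper1 hnet K hK0 hK hcard2 (1 / n) hT M1 q hq hq2 t L' ht hL'
  have low := lower1 hnet K hK0 hK hcard2 s τ M hτ hs hM
  rw [hcard] at up low
  replace up := up.trans hu2
  replace low := low.trans hl2
  set good : Set (SimpleGraph (Fin n)) := {T | (n : ℝ) ^ (1 / 2 - ε) ≤ (T.diam : ℝ) ∧
      (T.diam : ℝ) ≤ (n : ℝ) ^ (1 / 2 + ε)} with hgood
  have hb : PT c goodᶜ ≤ ε' := by
    have h9 : PT c goodᶜ ≤ PT c ({T | ∃ (γ : ℕ → Fin n) (ℓ : ℕ), IsSAW T.Adj γ ℓ ∧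
        2 * (M1 : ℝ) + 4 * (t + 1) * K * L' < ℓ} ∪
        {T | ∀ (γ : ℕ → Fin n) (ℓ : ℕ), IsSAW T.Adj γ ℓ → ℓ < M}) := by
      apply PT_mono hcpos
      intro T hTree hT'
      simp only [hgood, Set.mem_compl_iff, Set.mem_ofPred_eq, not_and_or, not_le] at hT'
      rcases hT' with h10 | h10
      · right
        intro γ ℓ hγ
        have h11 := saw_le_diam T hTree γ ℓ hγ
        have h12 : (T.diam : ℝ) < M := lt_of_lt_of_le h10 hl1
        have h13 : T.diam < M := by exact_mod_cast h12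
        omega
      · left
        obtain ⟨γ, hγ⟩ := exists_saw_diam T hTree
        exact ⟨γ, T.diam, hγ, lt_of_le_of_lt hu1 h10⟩
    refine h9.trans ((PT_union_le hcpos _ _).trans ?_)
    linarith
  rw [PT_compl hcpos] at hb
  linarith

end RST.R
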