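import Pool.Agent.Lib.MP_7946c7_pr.R.Basic

/-!
# R, job R07: expansion of the core (deterministic)

PROOF. `n = card V`. If `X = ∅` the left side is `0`. Let `X ≠ ∅`.
`ep R X S = ∑ x ∈ X, dg R S x ≥ #X * (D / 4)` (as `X ⊆ S`) and, as `X ⊆ S`,
`ep R X S = ep R X X + ep R X (S \ X)` (disjoint union).
(a) `100 #X ≤ n`: `ep R X (S \ X) ≥ #X D / 4 - #X D / 8 ≥ #X D / 16`.
(b) `n < 100 #X`: `Y = S \ X`, `#Y = #S - #X ≥ #S / 2`, so `4 #Y ≥ 2 #S ≥ n`, and `X, Y` are disjoint:
`ep R X Y ≥ D / (4 n) * #X * #Y ≥ D / (4 n) * #X * (n / 4) = D / 16 * #X` (`n > 0` as `X ≠ ∅`).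
-/

open Finset

namespace RST.R

variable {V : Type} [Fintype V] [DecidableEq V]

theorem expand (R : V → V → Prop) (D : ℝ) (hD : 0 ≤ D) (S : Finset V)
    (hS : (Fintype.card V : ℝ) ≤ 2 * S.card) (hmin : ∀ x ∈ S, D / 4 ≤ (dg R S x : ℝ))
    (hsmall : ∀ X : Finset V, 1 ≤ X.card → 100 * X.card ≤ Fintype.card V →
      (ep R X X : ℝ) < D / 8 * X.card)
    (hlarge : ∀ X Y : Finset V, Disjoint X Y → Fintype.card V ≤ 100 * X.card →
      Fintype.card V ≤ 4 * Y.card →
      D / (4 * Fintype.card V) * (X.card * Y.card) ≤ (ep R X Y : ℝ)) :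
    ∀ X ⊆ S, 2 * X.card ≤ S.card → D / 16 * X.card ≤ (ep R X (S \ X) : ℝ) := by
  classical
  intro X hXS hX2
  rcases X.eq_empty_or_nonempty with rfl | hne
  · simp
  have hX1 : 1 ≤ X.card := hne.card_pos
  have hn0 : (0 : ℝ) < Fintype.card V := by
    have : 0 < Fintype.card V := Fintype.card_pos_iff.mpr ⟨hne.choose⟩
    exact_mod_cast this
  have hXr : (0 : ℝ) ≤ X.card := Nat.cast_nonneg _
  have hsum : (ep R X S : ℝ) = ∑ x ∈ X, (dg R S x : ℝ) := by
    have : ep R X S = ∑ x ∈ X, dg R S x := by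
      unfold ep dg
      rw [Finset.card_filter, Finset.sum_product]
      refine Finset.sum_congr rfl fun x _ => ?_
      rw [Finset.card_filter]
    rw [this]; push_cast; rfl
  have hge : D / 4 * X.card ≤ (ep R X S : ℝ) := by
    rw [hsum]
    calc D / 4 * (X.card : ℝ) = ∑ _x ∈ X, D / 4 := by rw [sum_const, nsmul_eq_mul]; ring
      _ ≤ ∑ x ∈ X, (dg R S x : ℝ) := sum_le_sum fun x hx => hmin x (hXS hx)
  have hsplit : ep R X S = ep R X X + ep R X (S \ X) := by
    unfold ep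
    rw [← Finset.card_union_of_disjoint]
    · congr 1
      ext p
      simp only [mem_filter, mem_union, mem_product, mem_sdiff]
      constructor
      · rintro ⟨⟨h1, h2⟩, h3⟩
        by_cases hp : p.2 ∈ X
        · exact Or.inl ⟨⟨h1, hp⟩, h3⟩
        · exact Or.inr ⟨⟨h1, h2, hp⟩, h3⟩
      · rintro (⟨⟨h1, h2⟩, h3⟩ | ⟨⟨h1, h2, h4⟩, h3⟩)
        · exact ⟨⟨h1, hXS h2⟩, h3⟩
        · exact ⟨⟨h1, h2⟩, h3⟩
    · rw [Finset.disjoint_left]
      intro p hp hp'
      simp only [mem_filter, mem_product, mem_sdiff] at hp hp'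
      exact hp'.1.2.2 hp.1.2
  have hsplit' : (ep R X S : ℝ) = ep R X X + ep R X (S \ X) := by
    rw [hsplit]; push_cast; rfl
  rcases Nat.lt_or_ge (Fintype.card V) (100 * X.card) with hlt | hle
  · have hcard : (S \ X).card = S.card - X.card := Finset.card_sdiff_of_subset hXS
    have hSn : Fintype.card V ≤ 2 * S.card := by exact_mod_cast hS
    have h4 : Fintype.card V ≤ 4 * (S \ X).card := by omega
    have hL := hlarge X (S \ X) Finset.disjoint_sdiff hlt.le h4
    refine le_trans ?_ hL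
    have h4' : (Fintype.card V : ℝ) ≤ 4 * (S \ X).card := by exact_mod_cast h4
    have e1 : D / 16 * (X.card : ℝ) =
        D / (4 * Fintype.card V) * (X.card * ((Fintype.card V : ℝ) / 4)) := by
      field_simp
      ring
    rw [e1]
    apply mul_le_mul_of_nonneg_left _ (by positivity)
    apply mul_le_mul_of_nonneg_left _ hXr
    linarith
  · have hs := hsmall X hX1 hle
    nlinarith

end RST.R
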