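import Pool.Agent.Lib.MP_7946c7_pr.R.Ebt

/-!
# R, job R06: large disjoint sets

PROOF. `n = card V`; if `n = 0` then `X = Y = ∅`, the strict inequality `0 < 0` fails and the event
is empty. For fixed disjoint `X, Y` with `n ≤ 100 #X`, `n ≤ 4 #Y`, `pair_lower` gives the bound
`exp (D / (4 n) #X #Y - 63/100 (D / n) #X #Y) = exp (- 38/100 * (D / n) * #X * #Y) ≤
exp (- 38/100 * D * n / 400) ≤ exp (- 285/100 n)` since `#X * #Y ≥ n ^ 2 / 400` and `D ≥ 3000`.
Union bound over the `2 ^ n * 2 ^ n` pairs (`PP_exists_le` twice, or over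
`univ.powerset ×ˢ univ.powerset`): `4 ^ n * exp (- 285/100 n) ≤ exp (- n)` as
`2 * log 2 ≤ 185/100` (`Real.log_two_lt_d9`).
-/

open Finset

namespace RST.R

variable {V B : Type} [Fintype V] [DecidableEq V] [Fintype B] [DecidableEq B] {q : B → ℝ}

private theorem Large_empty (q : B → ℝ) : PP q (∅ : Set (Sym2 V → B)) = 0 := by
  unfold PP EE
  simp

theorem large_sets (hq : IsLaw q) (A : Finset B) (D : ℝ) (hD : 3000 ≤ D)
    (hA : qs q A = D / Fintype.card V) :
    PP q {b : Sym2 V → B | ∃ X Y : Finset V, Disjoint X Y ∧ Fintype.card V ≤ 100 * X.card ∧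
      Fintype.card V ≤ 4 * Y.card ∧
      (ep (adj A b) X Y : ℝ) < D / (4 * Fintype.card V) * (X.card * Y.card)} ≤
      Real.exp (-(Fintype.card V : ℝ)) := by
  rcases Nat.eq_zero_or_pos (Fintype.card V) with h0 | h0
  · rw [h0]
    have : Real.exp (-((0 : ℕ) : ℝ)) = 1 := by simp
    rw [this]
    exact PP_le_one hq _
  have hsub : {b : Sym2 V → B | ∃ X Y : Finset V, Disjoint X Y ∧ Fintype.card V ≤ 100 * X.card ∧
      Fintype.card V ≤ 4 * Y.card ∧
      (ep (adj A b) X Y : ℝ) < D / (4 * Fintype.card V) * (X.card * Y.card)} ⊆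
      {b | ∃ XY ∈ (univ : Finset (Finset V × Finset V)), b ∈ {b : Sym2 V → B |
        (Disjoint XY.1 XY.2 ∧ Fintype.card V ≤ 100 * XY.1.card ∧ Fintype.card V ≤ 4 * XY.2.card) ∧
      (ep (adj A b) XY.1 XY.2 : ℝ) ≤ D / (4 * Fintype.card V) * (XY.1.card * XY.2.card)}} := by
    rintro b ⟨X, Y, h1, h2, h3, h4⟩
    exact ⟨(X, Y), Finset.mem_univ _, ⟨h1, h2, h3⟩, h4.le⟩
  have hnR : (0 : ℝ) < (Fintype.card V : ℝ) := by exact_mod_cast h0
  obtain ⟨n, hndef⟩ : ∃ n : ℝ, n = (Fintype.card V : ℝ) := ⟨_, rfl⟩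
  refine (PP_mono hq hsub).trans ((PP_exists_le hq _ _).trans ?_)
  have hone : ∀ XY ∈ (univ : Finset (Finset V × Finset V)), PP q {b : Sym2 V → B |
        (Disjoint XY.1 XY.2 ∧ Fintype.card V ≤ 100 * XY.1.card ∧ Fintype.card V ≤ 4 * XY.2.card) ∧
      (ep (adj A b) XY.1 XY.2 : ℝ) ≤ D / (4 * Fintype.card V) * (XY.1.card * XY.2.card)} ≤
      Real.exp (-(285 / 100) * n) := by
    rintro ⟨X, Y⟩ _
    by_cases hB : Disjoint X Y ∧ Fintype.card V ≤ 100 * X.card ∧ Fintype.card V ≤ 4 * Y.card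
    · have h1 := pair_lower hq A hB.1 (D / (4 * Fintype.card V) * (X.card * Y.card))
      refine (PP_mono hq (fun b hb => hb.2)).trans (h1.trans (Real.exp_le_exp.2 ?_))
      rw [hA, ← hndef]
      rw [← hndef] at hnR
      have h2 : n ≤ 100 * (X.card : ℝ) := by rw [hndef]; exact_mod_cast hB.2.1
      have h3 : n ≤ 4 * (Y.card : ℝ) := by rw [hndef]; exact_mod_cast hB.2.2
      have h4 : (n / 100) * (n / 4) ≤ (X.card : ℝ) * Y.card :=
        mul_le_mul (by linarith) (by linarith) (by positivity) (Nat.cast_nonneg _)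
      have h5 : D / n * ((n / 100) * (n / 4)) ≤ D / n * ((X.card : ℝ) * Y.card) :=
        mul_le_mul_of_nonneg_left h4 (by positivity)
      have h6 : D / n * ((n / 100) * (n / 4)) = D * n / 400 := by
        field_simp
        norm_num
      have h7 : D / (4 * n) * ((X.card : ℝ) * Y.card) = 1 / 4 * (D / n * ((X.card : ℝ) * Y.card)) := by
        field_simp
      have h8 : 3000 * n ≤ D * n := mul_le_mul_of_nonneg_right hD hnR.le
      rw [h7]
      rw [h6] at h5
      have h9 : 63 / 100 * (D / n) * ((X.card : ℝ) * Y.card) =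
        63 / 100 * (D / n * ((X.card : ℝ) * Y.card)) := by ring
      rw [h9]
      linarith
    · have : {b : Sym2 V → B |
        (Disjoint X Y ∧ Fintype.card V ≤ 100 * X.card ∧ Fintype.card V ≤ 4 * Y.card) ∧
      (ep (adj A b) X Y : ℝ) ≤ D / (4 * Fintype.card V) * (X.card * Y.card)} = ∅ := by
        rw [Set.eq_empty_iff_forall_notMem]
        rintro b hb
        exact hB hb.1
      change PP q {b : Sym2 V → B |
        (Disjoint X Y ∧ Fintype.card V ≤ 100 * X.card ∧ Fintype.card V ≤ 4 * Y.card) ∧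
      (ep (adj A b) X Y : ℝ) ≤ D / (4 * Fintype.card V) * (X.card * Y.card)} ≤ _
      rw [this, Large_empty]
      exact (Real.exp_pos _).le
  refine (Finset.sum_le_sum hone).trans ?_
  rw [Finset.sum_const, Finset.card_univ, Fintype.card_prod, Fintype.card_finset, nsmul_eq_mul,
    ← hndef]
  push_cast
  have h8 : (2 : ℝ) ^ (Fintype.card V) = Real.exp (Real.log 2 * n) := by
    rw [Real.exp_mul, Real.exp_log (by norm_num : (0 : ℝ) < 2), hndef, Real.rpow_natCast]
  rw [h8, ← Real.exp_add, ← Real.exp_add]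
  apply Real.exp_le_exp.2
  have h9 := Real.log_two_lt_d9
  rw [← hndef] at hnR
  nlinarith

end RST.R
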