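import Pool.Agent.Lib.MP_7946c7_pr.R.SawFix

/-!
# R, job R09: first moment over the walks

PROOF. Union bound (`PP_exists_le`) over the maps `g : Fin (l1 + 1) → V` (there are `n ^ (l1 + 1)` of
them); to `g` we associate `γ_g : ℕ → V`, `γ_g i = g ⟨min i l1, _⟩`. If `γ` is a self-avoiding walk
of length `l1` and `g = γ` restricted, then `γ_g i = γ i` for `i ≤ l1`, so `γ_g` is injective on
`{i ≤ l1}` and `b s(γ_g i, γ_g (i + 1)) ∈ A'` for `i < l1` (`adj`). For `g` injective use `saw_fix`;
for `g` not injective the event is empty (put injectivity in the event of the union bound).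
Total: `n ^ (l1 + 1) * qs q A' ^ l1 * (...) = n * (n * qs q A') ^ l1 * (...)`.
-/

open Finset

namespace RST.R

variable {V B : Type} [Fintype V] [DecidableEq V] [Fintype B] [DecidableEq B] {q : B → ℝ}

theorem saw_prob (hq : IsLaw q) (A A' : Finset B) (D : ℝ) (hD : 61 ≤ D) (l1 : ℕ)
    (hn : 100 * (l1 + 1) ≤ Fintype.card V) (hA : qs q A = D / Fintype.card V) :
    PP q {b : Sym2 V → B | ∃ γ : ℕ → V, IsSAW (adj A' b) γ l1 ∧
      ∀ i ≤ l1, (dg (adj A b) (core (adj A b) (D / 4) univ) (γ i) : ℝ) < D / 8} ≤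
      Fintype.card V * (Fintype.card V * qs q A') ^ l1 *
        (Real.exp (-(19 / 100 * D * (l1 + 1))) + Real.exp (-(Fintype.card V : ℝ))) := by
  classical
  set X : ℝ := Real.exp (-(19 / 100 * D * (l1 + 1))) + Real.exp (-(Fintype.card V : ℝ)) with hX
  have hX0 : 0 ≤ X := by positivity
  have hq0 : 0 ≤ qs q A' := Finset.sum_nonneg fun x _ => hq.nonneg x
  let gam : (Fin (l1 + 1) → V) → ℕ → V := fun g i => g ⟨min i l1, by omega⟩
  let S : (Fin (l1 + 1) → V) → Set (Sym2 V → B) := fun g =>
    {b | Function.Injective g ∧ (∀ i < l1, b s(gam g i, gam g (i + 1)) ∈ A') ∧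
      ∀ i ≤ l1, (dg (adj A b) (core (adj A b) (D / 4) univ) (gam g i) : ℝ) < D / 8}
  have hsub : {b : Sym2 V → B | ∃ γ : ℕ → V, IsSAW (adj A' b) γ l1 ∧
      ∀ i ≤ l1, (dg (adj A b) (core (adj A b) (D / 4) univ) (γ i) : ℝ) < D / 8} ⊆
      {b | ∃ g ∈ (univ : Finset (Fin (l1 + 1) → V)), b ∈ S g} := by
    rintro b ⟨γ, hγ, hd⟩
    have hg : ∀ i ≤ l1, gam (fun k : Fin (l1 + 1) => γ k) i = γ i := by
      intro i hi
      show γ (min i l1) = γ i
      rw [min_eq_left hi]
    refine ⟨fun k => γ k, mem_univ _, ?_, ?_, ?_⟩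
    · intro i j hij
      exact Fin.ext (hγ.2 i (by omega) j (by omega) hij)
    · intro i hi
      rw [hg i hi.le, hg (i + 1) hi]
      exact (hγ.1 i hi).2
    · intro i hi
      rw [hg i hi]
      exact hd i hi
  have hS : ∀ g ∈ (univ : Finset (Fin (l1 + 1) → V)), PP q (S g) ≤ qs q A' ^ l1 * X := by
    intro g _
    by_cases hinj : Function.Injective g
    · refine (PP_mono hq ?_).trans (saw_fix hq A A' D hD l1 hn hA (gam g) ?_)
      · rintro b ⟨-, h1, h2⟩
        exact ⟨h1, h2⟩
      · intro i hi j hj hij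
        have h1 := hinj hij
        have h2 : min i l1 = min j l1 := congrArg Fin.val h1
        omega
    · have h0 : S g = ∅ := by
        ext b
        constructor
        · rintro ⟨h1, -⟩
          exact absurd h1 hinj
        · intro h
          exact absurd h (Set.notMem_empty b)
      have h1 : PP q (∅ : Set (Sym2 V → B)) = 0 := by
        unfold PP EE
        simp
      rw [h0, h1]
      positivity
  refine (PP_mono hq hsub).trans ((PP_exists_le hq _ _).trans
    ((Finset.sum_le_sum hS).trans (le_of_eq ?_)))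
  rw [Finset.sum_const, Finset.card_univ, Fintype.card_fun, Fintype.card_fin, nsmul_eq_mul]
  push_cast
  ring

end RST.R
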