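import Pool.Agent.Lib.MP_7946c7_pr.R.Ebt

/-!
# R, job R05: small sets span few edges

PROOF. `n = card V ≥ 1` (if `n = 0` there is no `X` with `1 ≤ #X`). Fix `j` with
`1 ≤ j`, `100 j ≤ n` and `X` with `#X = j`. By `inside_upper` with `z = n / (8 j) ≥ 1` and
`t = j D / 16`:
`PP {2 t ≤ ep (adj A b) X X} ≤ exp ((z - 1) (D / n) j ^ 2 / 2) * z ^ (-t)
 ≤ exp (z (D / n) j ^ 2 / 2) * z ^ (-t) = exp (j D / 16) * (8 j / n) ^ (j D / 16) = u ^ (j D / 16)`,
`u := 8 e j / n ≤ 8 e / 100 ≤ 22/100` (`e = exp 1 < 2.7182818286`, `Real.exp_one_lt_d9`).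
The number of `X` with `#X = j` is `n.choose j ≤ n ^ j / j ! ≤ (e n / j) ^ j`
(`Nat.choose_le_pow_div` and `j ^ j / j ! ≤ exp j`, `Real.pow_div_factorial_le_exp`)
and `e n / j = 8 e ^ 2 / u ≤ 60 / u`. Hence (union bound) the probability that there is such an `X`
of cardinality `j` is at most
`((60 / u) * u ^ (D / 16)) ^ j = (60 * u ^ (D / 16 - 1)) ^ j ≤ a ^ j`,
`a := 60 * (22/100) ^ (D / 16 - 1)` (as `D / 16 - 1 ≥ 0` and `0 < u ≤ 22/100`).
If `a > 1 / 2` the claimed bound `2 a` is at least `1` and `PP_le_one` concludes. If `a ≤ 1 / 2`, sum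
over `j ≥ 1`: `∑ a ^ j ≤ a / (1 - a) ≤ 2 a` (geometric sum over `j ∈ Icc 1 n`).
-/

open Finset

namespace RST.R

variable {V B : Type} [Fintype V] [DecidableEq V] [Fintype B] [DecidableEq B] {q : B → ℝ}

private theorem Small_empty (q : B → ℝ) : PP q (∅ : Set (Sym2 V → B)) = 0 := by
  unfold PP EE
  simp

/-- the bound for a fixed set -/
private theorem Small_one (hq : IsLaw q) (A : Finset B) (D : ℝ) (hD : 16 ≤ D)
    (hA : qs q A = D / Fintype.card V) (X : Finset V) (h1 : 1 ≤ X.card)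
    (h2 : 100 * X.card ≤ Fintype.card V) :
    PP q {b : Sym2 V → B | D / 8 * X.card ≤ (ep (adj A b) X X : ℝ)} ≤
      ((Real.exp 1 * (8 * X.card / Fintype.card V)) ^ (D / 16)) ^ X.card := by
  have hj : (1 : ℝ) ≤ (X.card : ℝ) := by exact_mod_cast h1
  have hn : 100 * (X.card : ℝ) ≤ (Fintype.card V : ℝ) := by exact_mod_cast h2
  obtain ⟨n, hndef⟩ : ∃ n : ℝ, n = (Fintype.card V : ℝ) := ⟨_, rfl⟩
  obtain ⟨j, hjdef⟩ : ∃ j : ℝ, j = (X.card : ℝ) := ⟨_, rfl⟩
  rw [← hndef] at hn hA ⊢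
  rw [← hjdef] at hj hn ⊢
  have hj0 : 0 < j := by linarith
  have hn0 : 0 < n := by linarith
  have hz : 1 ≤ n / (8 * j) := by
    rw [le_div_iff₀ (by positivity)]
    linarith
  have h3 := inside_upper hq A X (n / (8 * j)) (j * D / 16) hz
  have h4 : {b : Sym2 V → B | D / 8 * j ≤ (ep (adj A b) X X : ℝ)} ⊆
      {b : Sym2 V → B | 2 * (j * D / 16) ≤ (ep (adj A b) X X : ℝ)} := by
    intro b hb
    rw [Set.mem_ofPred_eq] at hb ⊢
    linarith
  refine (PP_mono hq h4).trans (h3.trans ?_)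
  rw [← hjdef, hA]
  have h5 : (n / (8 * j) - 1) * (D / n) * (j ^ 2 / 2) ≤ j * D / 16 := by
    have h6 : (n / (8 * j) - 1) * (D / n) * (j ^ 2 / 2) = j * D / 16 - D / n * (j ^ 2 / 2) := by
      field_simp
      ring
    rw [h6]
    have : 0 ≤ D / n * (j ^ 2 / 2) := by positivity
    linarith
  have h7 : (n / (8 * j)) ^ (-(j * D / 16)) = (8 * j / n) ^ (j * D / 16) := by
    rw [Real.rpow_neg (by positivity), ← Real.inv_rpow (by positivity), inv_div]
  rw [h7]
  have h8 : ((Real.exp 1 * (8 * j / n)) ^ (D / 16)) ^ X.card =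
      Real.exp (j * D / 16) * (8 * j / n) ^ (j * D / 16) := by
    rw [← Real.rpow_natCast, ← Real.rpow_mul (by positivity), ← hjdef,
      Real.mul_rpow (by positivity) (by positivity), ← Real.exp_mul]
    have h9 : D / 16 * j = j * D / 16 := by ring
    rw [h9, one_mul]
  rw [h8]
  exact mul_le_mul_of_nonneg_right (Real.exp_le_exp.2 h5) (by positivity)

/-- the numerical bound -/
private theorem Small_num (D : ℝ) (hD : 16 ≤ D) (n j : ℕ) (h1 : 1 ≤ j) (h2 : 100 * j ≤ n) :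
    (n.choose j : ℝ) * ((Real.exp 1 * (8 * j / n)) ^ (D / 16)) ^ j ≤
      (60 * (22 / 100 : ℝ) ^ (D / 16 - 1)) ^ j := by
  have hj : (1 : ℝ) ≤ (j : ℝ) := by exact_mod_cast h1
  have hn : 100 * (j : ℝ) ≤ (n : ℝ) := by exact_mod_cast h2
  have hj0 : (0 : ℝ) < j := by linarith
  have hn0 : (0 : ℝ) < n := by linarith
  have he := Real.exp_one_lt_d9
  have he0 := Real.exp_pos (1 : ℝ)
  have hch : (n.choose j : ℝ) ≤ (Real.exp 1 * (n / j)) ^ j := by
    refine (Nat.choose_le_pow_div (α := ℝ) j n).trans ?_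
    have h3 := Real.pow_div_factorial_le_exp (j : ℝ) hj0.le j
    have h4 : (Real.exp 1 * (n / j)) ^ j = Real.exp j * ((n : ℝ) / j) ^ j := by
      rw [mul_pow, ← Real.exp_nat_mul, mul_one]
    rw [h4]
    have hf : (0 : ℝ) < (j.factorial : ℝ) := by exact_mod_cast j.factorial_pos
    have h5 : (n : ℝ) ^ j / (j.factorial : ℝ) = (j : ℝ) ^ j / (j.factorial : ℝ) * ((n : ℝ) / j) ^ j := by
      rw [div_pow]
      field_simp
    rw [h5]
    exact mul_le_mul_of_nonneg_right h3 (by positivity)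
  have hu : Real.exp 1 * (8 * j / n) ≤ 22 / 100 := by
    have h6 : 8 * (j : ℝ) / n ≤ 8 / 100 := by
      rw [div_le_div_iff₀ hn0 (by norm_num)]
      linarith
    calc Real.exp 1 * (8 * j / n) ≤ Real.exp 1 * (8 / 100) := mul_le_mul_of_nonneg_left h6 he0.le
      _ ≤ 22 / 100 := by linarith
  have hu0 : 0 < Real.exp 1 * (8 * j / n) := by positivity
  have hsplit : (Real.exp 1 * (8 * (j : ℝ) / n)) ^ (D / 16) =
      (Real.exp 1 * (8 * j / n)) * (Real.exp 1 * (8 * j / n)) ^ (D / 16 - 1) := by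
    rw [← Real.rpow_one_add' hu0.le (by linarith : (1 : ℝ) + (D / 16 - 1) ≠ 0)]
    congr 1
    ring
  calc (n.choose j : ℝ) * ((Real.exp 1 * (8 * j / n)) ^ (D / 16)) ^ j
      ≤ (Real.exp 1 * (n / j)) ^ j * ((Real.exp 1 * (8 * j / n)) ^ (D / 16)) ^ j :=
        mul_le_mul_of_nonneg_right hch (by positivity)
    _ = (Real.exp 1 * (n / j) * ((Real.exp 1 * (8 * j / n)) *
          (Real.exp 1 * (8 * j / n)) ^ (D / 16 - 1))) ^ j := by
        rw [← mul_pow, hsplit]
    _ ≤ (60 * (22 / 100 : ℝ) ^ (D / 16 - 1)) ^ j := by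
        apply pow_le_pow_left₀ (by positivity)
        have h7 : Real.exp 1 * (n / j) * (Real.exp 1 * (8 * j / n)) = 8 * (Real.exp 1 * Real.exp 1) := by
          field_simp
        rw [← mul_assoc, h7]
        have h8 : (Real.exp 1 * (8 * (j : ℝ) / n)) ^ (D / 16 - 1) ≤ (22 / 100 : ℝ) ^ (D / 16 - 1) :=
          Real.rpow_le_rpow hu0.le hu (by linarith)
        have h9 : 8 * (Real.exp 1 * Real.exp 1) ≤ 60 := by nlinarith
        exact mul_le_mul h9 h8 (by positivity) (by norm_num)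

theorem small_sets (hq : IsLaw q) (A : Finset B) (D : ℝ) (hD : 16 ≤ D)
    (hA : qs q A = D / Fintype.card V) :
    PP q {b : Sym2 V → B | ∃ X : Finset V, 1 ≤ X.card ∧ 100 * X.card ≤ Fintype.card V ∧
      D / 8 * X.card ≤ (ep (adj A b) X X : ℝ)} ≤ 120 * (22 / 100 : ℝ) ^ (D / 16 - 1) := by
  classical
  obtain ⟨a, ha⟩ : ∃ a : ℝ, a = 60 * (22 / 100 : ℝ) ^ (D / 16 - 1) := ⟨_, rfl⟩
  have ha0 : 0 < a := by rw [ha]; positivity
  have htarget : 120 * (22 / 100 : ℝ) ^ (D / 16 - 1) = 2 * a := by rw [ha]; ring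
  rw [htarget]
  by_cases hah : a ≤ 1 / 2
  · have hsub : {b : Sym2 V → B | ∃ X : Finset V, 1 ≤ X.card ∧ 100 * X.card ≤ Fintype.card V ∧
      D / 8 * X.card ≤ (ep (adj A b) X X : ℝ)} ⊆
      {b | ∃ X ∈ (univ : Finset V).powerset, b ∈ {b : Sym2 V → B |
        (1 ≤ X.card ∧ 100 * X.card ≤ Fintype.card V) ∧
        D / 8 * X.card ≤ (ep (adj A b) X X : ℝ)}} := by
      rintro b ⟨X, h1, h2, h3⟩
      exact ⟨X, Finset.mem_powerset.2 (Finset.subset_univ _), ⟨h1, h2⟩, h3⟩
    refine (PP_mono hq hsub).trans ((PP_exists_le hq _ _).trans ?_)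
    obtain ⟨g, hg⟩ : ∃ g : ℕ → ℝ, g = fun j : ℕ => if 1 ≤ j ∧ 100 * j ≤ Fintype.card V then
          ((Real.exp 1 * (8 * (j : ℝ) / Fintype.card V)) ^ (D / 16)) ^ j else 0 := ⟨_, rfl⟩
    have hone : ∀ X ∈ (univ : Finset V).powerset, PP q {b : Sym2 V → B |
        (1 ≤ X.card ∧ 100 * X.card ≤ Fintype.card V) ∧
        D / 8 * X.card ≤ (ep (adj A b) X X : ℝ)} ≤ g X.card := by
      intro X _
      rw [hg]
      by_cases hX : 1 ≤ X.card ∧ 100 * X.card ≤ Fintype.card V
      · simp only [if_pos hX]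
        exact (PP_mono hq (fun b hb => hb.2)).trans (Small_one hq A D hD hA X hX.1 hX.2)
      · simp only [if_neg hX]
        have : {b : Sym2 V → B | (1 ≤ X.card ∧ 100 * X.card ≤ Fintype.card V) ∧
            D / 8 * X.card ≤ (ep (adj A b) X X : ℝ)} = ∅ := by
          rw [Set.eq_empty_iff_forall_notMem]
          rintro b hb
          exact hX hb.1
        rw [this, Small_empty]
    refine (Finset.sum_le_sum hone).trans ?_
    rw [Finset.sum_powerset_apply_card g, Finset.card_univ, Finset.sum_range_succ']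
    have hz : ((Fintype.card V).choose 0) • g 0 = 0 := by
      rw [hg]
      simp only []
      rw [if_neg (by norm_num), smul_zero]
    rw [hz, add_zero]
    have hterm : ∀ j ∈ range (Fintype.card V), ((Fintype.card V).choose (j + 1)) • g (j + 1) ≤
        a * (1 / 2) ^ j := by
      intro j _
      rw [hg]
      simp only []
      split_ifs with h
      · rw [nsmul_eq_mul]
        refine (Small_num D hD (Fintype.card V) (j + 1) h.1 h.2).trans ?_
        rw [← ha, pow_succ']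
        exact mul_le_mul_of_nonneg_left (pow_le_pow_left₀ ha0.le hah j) ha0.le
      · rw [smul_zero]
        positivity
    refine (Finset.sum_le_sum hterm).trans ?_
    rw [← Finset.mul_sum]
    have := sum_geometric_two_le (Fintype.card V)
    rw [mul_comm 2 a]
    exact mul_le_mul_of_nonneg_left this ha0.le
  · have h1 := PP_le_one hq {b : Sym2 V → B | ∃ X : Finset V, 1 ≤ X.card ∧
      100 * X.card ≤ Fintype.card V ∧ D / 8 * X.card ≤ (ep (adj A b) X X : ℝ)}
    rw [not_le] at hah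
    linarith

end RST.R
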