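import Pool.Agent.Lib.MP_7946c7_pr.R.AsyP
import Pool.Agent.Lib.MP_7946c7_pr.R.Expand
import Pool.Agent.Lib.MP_7946c7_pr.R.Large
import Pool.Agent.Lib.MP_7946c7_pr.R.SawP
import Pool.Agent.Lib.MP_7946c7_pr.R.Small

/-!
# R, job R11: the graph facts hold with high probability

PROOF. `l1` with `95/1000 c0 (l1 + 1) ≥ 2` (`exists_nat_ge`), `C7 = 172/100 C3 + 2 / c0 ≥ 1`, `n₀` from
`asyP` (with `Λ = 1 + L = n * qs q A'`). Let `S b = core (adj A b) (D / 4) univ`. The complement of the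
union of the following five events is in `{b | Facts1 (adj A b) (adj A' b) D (C7 * D) l1 (S b)}`, and
each of them has probability at most `ε / 5` (`PP_union_le`):
`{2 #(S b) < n}` (`core_small`, `W = univ`), the event of `small_sets`, the event of `large_sets`,
`{∃ x, C7 D < dg (adj A' b) univ x}` (`deg_prob`), the event of `saw_prob`.
`expa` comes from `expand` with `hmin` from `core_deg`.
-/

open Finset

namespace RST.R

theorem facts_prob (c0 C3 : ℝ) (hc0 : 0 < c0) (hC3 : 1 ≤ C3) : ∃ (l1 : ℕ) (C7 : ℝ), 1 ≤ C7 ∧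
    ∀ ε : ℝ, 0 < ε → ∃ n₀ : ℕ, ∀ (V : Type) [Fintype V] [DecidableEq V], n₀ ≤ Fintype.card V →
    ∀ D L : ℝ, c0 * Real.log (Fintype.card V) ≤ D → 0 ≤ 1 + L → 1 + L ≤ C3 * D →
    1 + L ≤ Fintype.card V →
    ∀ (B : Type) [Fintype B] [DecidableEq B] (q : B → ℝ) (A A' : Finset B), IsLaw q →
    qs q A = D / Fintype.card V → qs q A' = (1 + L) / Fintype.card V →
    PP q {b : Sym2 V → B | ¬ ∃ S, Facts1 (adj A b) (adj A' b) D (C7 * D) l1 S} ≤ ε := by
  obtain ⟨l1, hl1⟩ := exists_nat_ge (2 / (95 / 1000 * c0))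
  refine ⟨l1, 172 / 100 * C3 + 2 / c0, ?_, ?_⟩
  · have : 0 < 2 / c0 := by positivity
    linarith
  intro ε hε
  have hl : 2 ≤ 95 / 1000 * c0 * (l1 + 1) := by
    rw [div_le_iff₀ (by positivity)] at hl1
    nlinarith
  obtain ⟨n₀, hn₀⟩ := asyP c0 C3 ε hc0 hC3 hε l1 hl
  refine ⟨n₀, ?_⟩
  intro V _ _ hV D L hD hL0 hL1 hL2 B _ _ q A A' hq hA hA'
  obtain ⟨h1, h2, h3, h4, h5, h6⟩ := hn₀ (Fintype.card V) hV D (1 + L) hD hL0 hL1 hL2
  have hn : 100 ≤ Fintype.card V := by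
    have : 1 ≤ l1 + 1 := by omega
    nlinarith
  have hnR : (100 : ℝ) ≤ Fintype.card V := by exact_mod_cast hn
  have hnR0 : (0 : ℝ) < Fintype.card V := by linarith
  have hnA' : (Fintype.card V : ℝ) * qs q A' = 1 + L := by
    rw [hA']
    field_simp
  have b1 : PP q {b : Sym2 V → B | 2 * ((core (adj A b) (D / 4) univ).card : ℝ) <
      Fintype.card V} ≤ ε / 5 := by
    refine (core_small hq A D (by linarith) hn hA univ ?_).trans h3
    rw [card_univ]
    linarith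
  have b2 := (small_sets (V := V) hq A D (by linarith) hA).trans h4
  have b3 := (large_sets (V := V) hq A D h1 hA).trans h3
  have b4 : PP q {b : Sym2 V → B | ∃ x, (172 / 100 * C3 + 2 / c0) * D <
      (dg (adj A' b) univ x : ℝ)} ≤ ε / 5 := by
    refine (deg_prob hq A' _).trans ?_
    rw [hnA']
    exact h5
  have b5 := saw_prob hq A A' D (by linarith) l1 h2 hA
  rw [hnA'] at b5
  replace b5 := b5.trans h6
  set E1 := {b : Sym2 V → B | 2 * ((core (adj A b) (D / 4) univ).card : ℝ) <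
      Fintype.card V} with hE1
  set E2 := {b : Sym2 V → B | ∃ X : Finset V, 1 ≤ X.card ∧ 100 * X.card ≤ Fintype.card V ∧
      D / 8 * X.card ≤ (ep (adj A b) X X : ℝ)} with hE2
  set E3 := {b : Sym2 V → B | ∃ X Y : Finset V, Disjoint X Y ∧ Fintype.card V ≤ 100 * X.card ∧
      Fintype.card V ≤ 4 * Y.card ∧
      (ep (adj A b) X Y : ℝ) < D / (4 * Fintype.card V) * (X.card * Y.card)} with hE3
  set E4 := {b : Sym2 V → B | ∃ x, (172 / 100 * C3 + 2 / c0) * D <
      (dg (adj A' b) univ x : ℝ)} with hE4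
  set E5 := {b : Sym2 V → B | ∃ γ : ℕ → V, IsSAW (adj A' b) γ l1 ∧
      ∀ i ≤ l1, (dg (adj A b) (core (adj A b) (D / 4) univ) (γ i) : ℝ) < D / 8} with hE5
  have hsub : {b : Sym2 V → B | ¬ ∃ S, Facts1 (adj A b) (adj A' b) D
      ((172 / 100 * C3 + 2 / c0) * D) l1 S} ⊆ E1 ∪ (E2 ∪ (E3 ∪ (E4 ∪ E5))) := by
    intro b hb
    by_contra hcon
    simp only [Set.mem_union, not_or] at hcon
    obtain ⟨n1, n2, n3, n4, n5⟩ := hcon
    simp only [hE1, hE2, hE3, hE4, hE5, Set.mem_ofPred_eq, not_lt, not_exists, not_and, not_le]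
      at n1 n2 n3 n4 n5
    apply hb
    refine ⟨core (adj A b) (D / 4) univ, ?_⟩
    refine ⟨n1, n4, ?_, ?_⟩
    · exact expand (adj A b) D (by linarith) _ n1 core_deg n2 n3
    · intro γ hγ
      by_contra hc
      push Not at hc
      exact n5 γ hγ hc
  refine (PP_mono hq hsub).trans ?_
  calc PP q (E1 ∪ (E2 ∪ (E3 ∪ (E4 ∪ E5)))) ≤ PP q E1 + PP q (E2 ∪ (E3 ∪ (E4 ∪ E5))) := PP_union_le hq _ _
    _ ≤ PP q E1 + (PP q E2 + PP q (E3 ∪ (E4 ∪ E5))) := by
        gcongr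
        exact PP_union_le hq _ _
    _ ≤ PP q E1 + (PP q E2 + (PP q E3 + PP q (E4 ∪ E5))) := by
        gcongr
        exact PP_union_le hq _ _
    _ ≤ PP q E1 + (PP q E2 + (PP q E3 + (PP q E4 + PP q E5))) := by
        gcongr
        exact PP_union_le hq _ _
    _ ≤ ε := by linarith

end RST.R
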