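import Mathlib

/-!
# R, job R21: the parameters (pure analysis)

PROOF. `c0 = θ / C`, `C3 = max 4 ((4 C + 6) / θ)`. `n₀`: `n ≥ 8`, `log n ≥ 1`, `c0 log n ≤ n / 4`
(`Real.isLittleO_log_id_atTop`).
Case A: `κ * (n / 4) ≤ θ log n`. `D = n / 4`, `L = n - 1`: `1 + L = n = 4 D ≤ C3 D`.
Case B: `κ * (n / 4) > θ log n`; then `κ > 0`. `D = θ log n / κ < n / 4`, `D ≥ θ log n / C = c0 log n`,
`κ D = θ log n`. `L = min (n - 1) (3 log n + 6 log n / κ)`, so `L` is one of the two. `1 + L ≤ n`;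
`D ≤ 1 + L` as `D ≤ n / 4 ≤ n = 1 + (n - 1)` and `D = θ log n / κ ≤ 6 log n / κ ≤ 1 + (3 log n + 6 log n / κ)`;
`1 + L ≤ 1 + 3 log n + 6 log n / κ ≤ 4 log n + 6 log n / κ ≤ (4 C + 6) log n / κ = ((4 C + 6) / θ) D`.
-/

namespace RST.R

theorem params (C θ : ℝ) (hC : 0 < C) (hθ : 0 < θ) (hθ1 : θ ≤ 1) : ∃ c0 C3 : ℝ, 0 < c0 ∧ 1 ≤ C3 ∧
    ∃ n₀ : ℕ, ∀ n : ℕ, n₀ ≤ n → ∀ κ : ℝ, 0 ≤ κ → κ ≤ C → ∃ D L : ℝ,
      c0 * Real.log n ≤ D ∧ D ≤ n / 4 ∧ D ≤ 1 + L ∧ 1 + L ≤ C3 * D ∧ 1 + L ≤ n ∧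
      κ * D ≤ θ * Real.log n ∧
      (L = n - 1 ∨ (0 < κ ∧ L = 3 * Real.log n + 6 * Real.log n / κ)) := by
  have hc0 : 0 < θ / C := by positivity
  refine ⟨θ / C, max 4 ((4 * C + 6) / θ), hc0, le_trans (by norm_num) (le_max_left _ _), ?_⟩
  have h1 : ∀ᶠ n : ℕ in Filter.atTop, (8 : ℝ) ≤ n :=
    tendsto_natCast_atTop_atTop.eventually (Filter.eventually_ge_atTop _)
  have h2 : ∀ᶠ n : ℕ in Filter.atTop, (1 : ℝ) ≤ Real.log n :=
    (Real.tendsto_log_atTop.comp tendsto_natCast_atTop_atTop).eventually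
      (Filter.eventually_ge_atTop _)
  have h3 : ∀ᶠ n : ℕ in Filter.atTop, θ / C * Real.log n ≤ n / 4 := by
    have h4 : ∀ᶠ x : ℝ in Filter.atTop, ‖Real.log x‖ ≤ (1 / (4 * (θ / C))) * ‖id x‖ :=
      Real.isLittleO_log_id_atTop.def (by positivity)
    have h5 := tendsto_natCast_atTop_atTop (R := ℝ) |>.eventually h4
    filter_upwards [h5, h1, h2] with n hn h8 hl
    have e1 : ‖Real.log (n : ℝ)‖ = Real.log n := Real.norm_of_nonneg (by linarith)
    have e2 : ‖id (n : ℝ)‖ = n := by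
      simp
    rw [e1, e2] at hn
    calc θ / C * Real.log n ≤ θ / C * (1 / (4 * (θ / C)) * n) := by gcongr
      _ = n / 4 := by
        have : θ / C ≠ 0 := hc0.ne'
        field_simp
  obtain ⟨n₀, hn₀⟩ := Filter.eventually_atTop.1 (h1.and (h2.and h3))
  refine ⟨n₀, fun n hn κ hκ0 hκC => ?_⟩
  obtain ⟨h8, hl, h4⟩ := hn₀ n hn
  have hCC : (4 : ℝ) ≤ max 4 ((4 * C + 6) / θ) := le_max_left _ _
  have hCC' : (4 * C + 6) / θ ≤ max 4 ((4 * C + 6) / θ) := le_max_right _ _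
  rcases le_or_gt (κ * (n / 4)) (θ * Real.log n) with hA | hB
  · refine ⟨n / 4, n - 1, h4, le_rfl, by linarith, ?_, by linarith, hA, Or.inl rfl⟩
    have hn4 : (0 : ℝ) ≤ n / 4 := by positivity
    nlinarith
  · have hκ : 0 < κ := by
      rcases hκ0.lt_or_eq with h | h
      · exact h
      · rw [← h, zero_mul] at hB
        nlinarith
    have hDlt : θ * Real.log n / κ ≤ n / 4 := by
      rw [div_le_iff₀ hκ]; linarith
    have hlk : 0 ≤ Real.log n / κ := by positivity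
    have hD6 : θ * Real.log n / κ ≤ 6 * Real.log n / κ := by
      rw [mul_div_assoc, mul_div_assoc]
      nlinarith
    have hDc : θ / C * Real.log n ≤ θ * Real.log n / κ := by
      rw [div_mul_eq_mul_div]
      apply div_le_div_of_nonneg_left (by positivity) hκ hκC
    have hup : 1 + (3 * Real.log n + 6 * Real.log n / κ) ≤
        max 4 ((4 * C + 6) / θ) * (θ * Real.log n / κ) := by
      have e1 : (4 * C + 6) / θ * (θ * Real.log n / κ) = (4 * C + 6) * (Real.log n / κ) := by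
        field_simp
      have e2 : Real.log n ≤ C * (Real.log n / κ) := by
        have e3 : Real.log n = κ * (Real.log n / κ) := by field_simp
        calc Real.log n = κ * (Real.log n / κ) := e3
          _ ≤ C * (Real.log n / κ) := by gcongr
      have e4 : (4 * C + 6) / θ * (θ * Real.log n / κ) ≤
          max 4 ((4 * C + 6) / θ) * (θ * Real.log n / κ) := by
        apply mul_le_mul_of_nonneg_right hCC'
        rw [mul_div_assoc]; positivity
      rw [e1] at e4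
      rw [mul_div_assoc 6]
      nlinarith
    rcases le_total ((n : ℝ) - 1) (3 * Real.log n + 6 * Real.log n / κ) with hm | hm
    · refine ⟨θ * Real.log n / κ, n - 1, hDc, hDlt, by linarith, by linarith, by linarith, ?_,
        Or.inl rfl⟩
      rw [mul_div_cancel₀ _ hκ.ne']
    · refine ⟨θ * Real.log n / κ, 3 * Real.log n + 6 * Real.log n / κ, hDc, hDlt, by linarith, hup,
        by linarith, ?_, Or.inr ⟨hκ, rfl⟩⟩
      rw [mul_div_cancel₀ _ hκ.ne']

end RST.R
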