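import Pool.Agent.Lib.MP_7946c7_pr.H.Main
import Pool.Agent.Lib.MP_7946c7_pr.R.Det
import Pool.Agent.Lib.MP_7946c7_pr.R.FactsProb
import Pool.Agent.Lib.MP_7946c7_pr.R.ParamR

/-!
# Stream R: regime 1 (notes, section R1).
-/

open Finset MeasureTheory

namespace RST

theorem R.adj_bg {V B : Type} [DecidableEq B] (A : Finset B) (b : Sym2 V → B) :
    bg (fun e => decide (b e ∈ A)) = adj A b := by
  funext u v
  simp [bg, adj]

theorem R.conn_prob {n K : ℕ} (q : Fin (K + 1) → ℝ) (hq : IsLaw q) (A : Finset (Fin (K + 1)))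
    (p η : ℝ) (hA : qs q A = p)
    (h : PP (bern p) {ξ : Sym2 (Fin n) → Bool | ∃ u v, ¬ Rch (bg ξ) univ u v} ≤ η) :
    PP q {b : Sym2 (Fin n) → Fin (K + 1) | ¬ ∀ u v, Rch (adj A b) univ u v} ≤ η := by
  classical
  rw [← hA] at h
  refine le_trans (le_of_eq ?_) h
  unfold PP
  rw [← marginal hq A]
  congr 1
  funext b
  by_cases hb : ∀ u v, Rch (adj A b) univ u v
  · rw [if_neg (by simpa using hb), if_neg]
    simp only [Set.mem_ofPred_eq, R.adj_bg, not_exists, not_not]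
    exact hb
  · rw [if_pos (by simpa using hb), if_pos]
    simp only [Set.mem_ofPred_eq, R.adj_bg]
    push Not at hb
    exact hb

theorem R.log_small (ε : ℝ) (hε : 0 < ε) : ∃ n₀ : ℕ, ∀ n : ℕ, n₀ ≤ n →
    1 / (n : ℝ) ^ (1 / 4 : ℝ) ≤ ε ∧ 1 + 3 * Real.log n ≤ n ∧ 1 ≤ n := by
  have h1 : ∀ᶠ n : ℕ in Filter.atTop, 1 / (n : ℝ) ^ (1 / 4 : ℝ) ≤ ε := by
    have h2 : Filter.Tendsto (fun n : ℕ => ((n : ℝ) ^ (1 / 4 : ℝ))⁻¹) Filter.atTop (nhds 0) :=
      ((tendsto_rpow_atTop (by norm_num : (0 : ℝ) < 1 / 4)).comp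
        tendsto_natCast_atTop_atTop).inv_tendsto_atTop
    filter_upwards [h2.eventually (eventually_le_nhds hε)] with n hn
    rw [one_div]
    exact hn
  have h3 : ∀ᶠ n : ℕ in Filter.atTop, 1 + 3 * Real.log n ≤ n := by
    have h4 := Real.isLittleO_log_id_atTop.bound (show (0 : ℝ) < 1 / 6 by norm_num)
    have h5 := tendsto_natCast_atTop_atTop (R := ℝ) |>.eventually h4
    filter_upwards [h5, Filter.eventually_ge_atTop 2] with n hn hn2
    have hnR : (2 : ℝ) ≤ n := by exact_mod_cast hn2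
    have h6 : 0 ≤ Real.log n := Real.log_nonneg (by linarith)
    simp only [id_eq, Real.norm_eq_abs, abs_of_nonneg h6,
      abs_of_nonneg (show (0 : ℝ) ≤ n by linarith)] at hn
    linarith
  obtain ⟨n₀, hn₀⟩ := Filter.eventually_atTop.1
    ((h1.and h3).and (Filter.eventually_ge_atTop 1))
  exact ⟨n₀, fun n hn => ⟨(hn₀ n hn).1.1, (hn₀ n hn).1.2, (hn₀ n hn).2⟩⟩

/-- REGIME 1. -/
theorem regime1 (C ε : ℝ) (hC : 0 < C) (hε : 0 < ε) : ∃ n₀ : ℕ, ∀ n : ℕ, n₀ ≤ n → ∀ β : ℝ,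
    0 ≤ β → β ≤ C * n →
    1 - ε ≤ avg n β {T | (n : ℝ) ^ (1 / 2 - ε) ≤ (T.diam : ℝ) ∧
      (T.diam : ℝ) ≤ (n : ℝ) ^ (1 / 2 + ε)} := by
  classical
  set θ : ℝ := min (ε / 4) (1 / 16) with hθdef
  have hθ : 0 < θ := lt_min (by positivity) (by norm_num)
  have hθ16 : θ ≤ 1 / 16 := min_le_right _ _
  have h4θ : 4 * θ ≤ ε := by
    have : θ ≤ ε / 4 := min_le_left _ _
    linarith
  obtain ⟨c0, C3, hc0, hC3, nP, hP⟩ := R.params C θ hC hθ (by linarith)
  obtain ⟨l1, C7, hC7, hF⟩ := R.facts_prob c0 C3 hc0 hC3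
  obtain ⟨nF, hF⟩ := hF (ε / 4) (by positivity)
  obtain ⟨nD, hDet⟩ := R.det_main C θ ε (ε / 4) c0 C7 l1 hC hθ hθ16 h4θ (by positivity) hc0 hC7
  obtain ⟨nG, hG⟩ := gnp_conn
  obtain ⟨nA, hA⟩ := R.log_small (ε / 4) (by positivity)
  refine ⟨nP + nF + nD + nG + nA, ?_⟩
  intro n hn β hβ0 hβC
  obtain ⟨ha1, ha2, ha3⟩ := hA n (by omega)
  have hn0 : 0 < n := by omega
  have hnR : (0 : ℝ) < n := by exact_mod_cast hn0
  have hn1R : (1 : ℝ) ≤ n := by exact_mod_cast ha3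
  have hlog0 : 0 ≤ Real.log n := Real.log_nonneg hn1R
  have hcard : Fintype.card (Fin n) = n := Fintype.card_fin n
  set κ : ℝ := β / n with hκ
  have hκ0 : 0 ≤ κ := by positivity
  have hκC : κ ≤ C := by
    rw [hκ, div_le_iff₀ hnR]
    exact hβC
  obtain ⟨D, L, hD, hD4, hDL, hLC, hLn, hκD, hLc⟩ := hP n (by omega) κ hκ0 hκC
  have hD0 : 0 ≤ D := le_trans (by positivity) hD
  -- the event of the graph facts
  obtain ⟨q1, hq1, hqs1, hΦ1⟩ := transfer n hn0 2 ![D - 1, L] (by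
      intro i j hij
      fin_cases i <;> fin_cases j <;> simp at hij ⊢ <;> linarith) (by
      intro k
      fin_cases k <;> simp <;> linarith) (by
      intro k
      fin_cases k <;> simp <;> linarith)
  set Φ1 : Set (Fin 2 → Fin n → Fin n → Prop) :=
    {r | ∃ S, R.Facts1 (r 0) (r 1) D (C7 * D) l1 S} with hΦ1def
  set A1 : Set (Sym2 (Fin n) → ℝ) :=
    {ω | (fun k => gr (xlab n ω) ((![D - 1, L] : Fin 2 → ℝ) k)) ∈ Φ1} with hA1def
  have hA1m : MeasurableSet A1 := (hΦ1 Φ1).1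
  have hA1p : (labLaw n A1ᶜ).toReal ≤ ε / 4 := by
    have e1 : A1ᶜ = {ω | (fun k => gr (xlab n ω) ((![D - 1, L] : Fin 2 → ℝ) k)) ∈ Φ1ᶜ} := by
      ext ω
      simp [hA1def]
    rw [e1, (hΦ1 Φ1ᶜ).2]
    have e2 : qs q1 (lowBins 0) = D / Fintype.card (Fin n) := by
      rw [hqs1 0, hcard]
      simp
    have e3 : qs q1 (lowBins 1) = (1 + L) / Fintype.card (Fin n) := by
      rw [hqs1 1, hcard]
      simp
    have e4 := hF (Fin n) (by rw [hcard]; omega) D L (by rw [hcard]; exact hD) (by linarith) hLC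
      (by rw [hcard]; exact hLn) (Fin (2 + 1)) q1 (lowBins 0) (lowBins 1) hq1 e2 e3
    refine le_trans (le_of_eq ?_) e4
    congr 1
  -- the event of connectivity
  obtain ⟨q2, hq2, hqs2, hΦ2⟩ := transfer n hn0 1 ![3 * Real.log n] (by
      intro i j hij
      fin_cases i
      fin_cases j
      simp) (by
      intro k
      fin_cases k
      simp
      linarith) (by
      intro k
      fin_cases k
      simp
      linarith)
  set Φ2 : Set (Fin 1 → Fin n → Fin n → Prop) := {r | ∀ u v, Rch (r 0) univ u v} with hΦ2def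
  set A2 : Set (Sym2 (Fin n) → ℝ) :=
    {ω | (fun k => gr (xlab n ω) ((![3 * Real.log n] : Fin 1 → ℝ) k)) ∈ Φ2} with hA2def
  have hA2m : MeasurableSet A2 := (hΦ2 Φ2).1
  have hA2p : (labLaw n A2ᶜ).toReal ≤ ε / 4 := by
    have e1 : A2ᶜ = {ω | (fun k => gr (xlab n ω) ((![3 * Real.log n] : Fin 1 → ℝ) k)) ∈ Φ2ᶜ} := by
      ext ω
      simp [hA2def]
    rw [e1, (hΦ2 Φ2ᶜ).2]
    have e2 : qs q2 (lowBins 0) = (1 + 3 * Real.log n) / n := by
      rw [hqs2 0]
      simp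
    have e3 := hG (Fin n) (by rw [hcard]; omega) ((1 + 3 * Real.log n) / n) (by
      rw [hcard]
      field_simp
      linarith) (by
      rw [div_le_one hnR]
      exact ha2)
    rw [hcard] at e3
    have e4 := R.conn_prob q2 hq2 (lowBins 0) _ _ e2 (e3.trans ha1)
    refine le_trans (le_of_eq ?_) e4
    congr 1
  -- averaging
  have hAm : MeasurableSet (A1 ∩ A2) := hA1m.inter hA2m
  have hAp : (labLaw n (A1 ∩ A2)ᶜ).toReal ≤ ε / 2 := by
    have : IsFiniteMeasure (labLaw n) := by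
      unfold labLaw
      infer_instance
    rw [Set.compl_inter]
    have h1 : (labLaw n (A1ᶜ ∪ A2ᶜ)).toReal ≤ (labLaw n A1ᶜ).toReal + (labLaw n A2ᶜ).toReal :=
      measureReal_union_le _ _
    linarith
  have hfin := avg_ge n hn0 β {T | (n : ℝ) ^ (1 / 2 - ε) ≤ (T.diam : ℝ) ∧
      (T.diam : ℝ) ≤ (n : ℝ) ^ (1 / 2 + ε)} (A1 ∩ A2) hAm (ε / 2) (ε / 4) hAp (by
    intro ω hω hω01
    refine hDet n (by omega) κ D L hκ0 hκC hD hDL hκD hLc (xlab n ω) ?_ ?_ ?_ ?_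
    · intro e
      have := (hω01 e).1
      unfold xlab
      nlinarith
    · intro e
      have := (hω01 e).2
      unfold xlab
      nlinarith
    · have := hω.1
      simpa [hA1def, hΦ1def] using this
    · have := hω.2
      simpa [hA2def, hΦ2def] using this) (by positivity)
  linarith

end RST
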