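import Mathlib

/-!
# R, job R23: numerical estimates, lower bound (pure analysis)

PROOF. All the powers with real exponent are real powers of the real number `n`. Take
`s = ⌊n ^ (1/2 - θ)⌋₊`, `τ = ⌈n ^ (2 θ)⌉₊ + 2`, `M = s / (2 τ)` (natural division). For `n` large:
`τ ≤ 2 n ^ (2 θ)`, `s ≥ n ^ (1/2 - θ) / 2`, `2 τ + 4 ≤ s` (as `2 θ < 1/2 - θ`), and
`M ≥ s / (2 τ) - 1 ≥ n ^ (1/2 - 3 θ) / 8 - 1 ≥ n ^ (1/2 - 4 θ) ≥ n ^ (1/2 - ε)`
(as `n ^ θ → ∞`, `4 θ ≤ ε`).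
`s ^ 2 / n ≤ n ^ (-2 θ) → 0`, `s / n ≤ n ^ (-1/2) → 0`, `4 / n → 0`.
`(τ - 1) / (512 C7 n ^ θ + 1) ≥ n ^ (2 θ) / (513 C7 n ^ θ) = n ^ θ / (513 C7)`, `s ≤ n`,
so the last term is at most `5 n ^ 6 exp (-(n ^ θ) / (513 C7)) → 0`.
-/

namespace RST.R

private lemma AsyL_tend (θ : ℝ) (hθ : 0 < θ) :
    Filter.Tendsto (fun n : ℕ => (n : ℝ) ^ θ) Filter.atTop Filter.atTop :=
  (tendsto_rpow_atTop hθ).comp tendsto_natCast_atTop_atTop

private lemma AsyL_exp (k : ℕ) (θ c ε' : ℝ) (hθ : 0 < θ) (hc : 0 < c) (hε' : 0 < ε') :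
    ∀ᶠ n : ℕ in Filter.atTop, (n : ℝ) ^ k * Real.exp (-(c * (n : ℝ) ^ θ)) ≤ ε' := by
  have h1 : ∀ᶠ x : ℝ in Filter.atTop, ‖Real.log x‖ ≤ (c / (2 * (k + 1))) * ‖x ^ θ‖ :=
    (isLittleO_log_rpow_atTop hθ).def (by positivity)
  have h2 := (tendsto_natCast_atTop_atTop (R := ℝ)).eventually h1
  have h3 : ∀ᶠ n : ℕ in Filter.atTop, (1 : ℝ) ≤ n :=
    tendsto_natCast_atTop_atTop.eventually (Filter.eventually_ge_atTop _)
  have h4 : Filter.Tendsto (fun n : ℕ => Real.exp (-(c / 2 * (n : ℝ) ^ θ))) Filter.atTop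
      (nhds 0) := by
    refine Real.tendsto_exp_atBot.comp (Filter.tendsto_neg_atTop_atBot.comp ?_)
    exact (AsyL_tend θ hθ).const_mul_atTop (by positivity)
  have h5 := h4.eventually (gt_mem_nhds hε')
  filter_upwards [h2, h3, h5] with n hn h1n h5n
  have hx : 0 ≤ (n : ℝ) ^ θ := by positivity
  have hlog : 0 ≤ Real.log n := Real.log_nonneg h1n
  rw [Real.norm_of_nonneg hlog, Real.norm_of_nonneg hx] at hn
  have hnpos : (0 : ℝ) < n := by linarith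
  have e1 : (n : ℝ) ^ k = Real.exp (k * Real.log n) := by
    rw [Real.exp_nat_mul, Real.exp_log hnpos]
  rw [e1, ← Real.exp_add]
  refine le_trans (Real.exp_le_exp.2 ?_) h5n.le
  have hk : (k : ℝ) * Real.log n ≤ c / 2 * (n : ℝ) ^ θ := by
    calc (k : ℝ) * Real.log n ≤ (k + 1) * Real.log n := by nlinarith
      _ ≤ (k + 1) * (c / (2 * (k + 1)) * (n : ℝ) ^ θ) := by gcongr
      _ = c / 2 * (n : ℝ) ^ θ := by
        have : (k : ℝ) + 1 ≠ 0 := by positivity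
        field_simp
  linarith

theorem asyL (θ ε ε' C7 K : ℝ) (hθ : 0 < θ) (hθ1 : θ ≤ 1 / 16) (hε : 4 * θ ≤ ε)
    (hε' : 0 < ε') (hC7 : 1 ≤ C7) (hK : 0 ≤ K) : ∃ n₀ : ℕ, ∀ n : ℕ, n₀ ≤ n →
    ∃ s τ M : ℕ, 2 ≤ τ ∧ 2 * τ + 4 ≤ s ∧ 2 * τ * M ≤ s ∧ (n : ℝ) ^ (1 / 2 - ε) ≤ M ∧
      4 / (n : ℝ) + 32 * K ^ 2 * (s : ℝ) ^ 2 / n + 16 * K * s / n +
        (1 + 2 * (s : ℝ) ^ 2 * (n : ℝ) ^ 4 + 2 * s * (n : ℝ) ^ 3) *
          Real.exp (-((τ - 1) / (512 * C7 * (n : ℝ) ^ θ + 1))) ≤ ε' := by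
  set c : ℝ := 1 / (513 * C7) with hc
  have hcpos : 0 < c := by positivity
  have E1 := (AsyL_tend θ hθ).eventually (Filter.eventually_ge_atTop 16)
  have E2 := (AsyL_tend θ hθ).eventually
    (Filter.eventually_ge_atTop ((32 * K ^ 2 + 16 * K) / (ε' / 4)))
  have E3 := AsyL_exp 6 θ c (ε' / 20) hθ hcpos (by positivity)
  have E4 : ∀ᶠ n : ℕ in Filter.atTop, (16 / ε' + 1) ≤ (n : ℝ) :=
    tendsto_natCast_atTop_atTop.eventually (Filter.eventually_ge_atTop _)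
  obtain ⟨n₀, hn₀⟩ := Filter.eventually_atTop.1 (E1.and (E2.and (E3.and E4)))
  refine ⟨n₀, fun n hn => ?_⟩
  obtain ⟨e1, e2, e3, e4⟩ := hn₀ n hn
  have hn1 : (1 : ℝ) ≤ n := by
    have : 0 < 16 / ε' := by positivity
    linarith
  have hnpos : (0 : ℝ) < n := by linarith
  set x : ℝ := (n : ℝ) ^ θ with hx
  set h : ℝ := (n : ℝ) ^ (1 / 2 : ℝ) with hh
  have hx16 : 16 ≤ x := e1
  have hx1 : 1 ≤ x := by linarith
  have hxpos : 0 < x := by linarith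
  have hh2 : h * h = n := by
    rw [hh, ← Real.rpow_add hnpos]; norm_num
  have hhx : x ^ 8 ≤ h := by
    rw [hx, hh, ← Real.rpow_natCast, ← Real.rpow_mul hnpos.le]
    exact Real.rpow_le_rpow_of_exponent_le hn1 (by push_cast; linarith)
  have hh1 : 1 ≤ h := le_trans (one_le_pow₀ hx1) hhx
  have hhpos : 0 < h := by linarith
  have hhn : h ≤ n := by nlinarith
  -- the natural numbers
  set s : ℕ := ⌊h / x⌋₊ with hs
  have hsu : (s : ℝ) ≤ h / x := Nat.floor_le (by positivity)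
  have hsl : h / x < s + 1 := Nat.lt_floor_add_one _
  set τ : ℕ := ⌈x ^ 2⌉₊ + 2 with hτ
  have hτc : (τ : ℝ) = (⌈x ^ 2⌉₊ : ℝ) + 2 := by rw [hτ]; push_cast; ring
  have hτl : x ^ 2 + 2 ≤ τ := by
    rw [hτc]
    have := Nat.le_ceil (x ^ 2)
    linarith
  have hτu : (τ : ℝ) ≤ 2 * x ^ 2 := by
    rw [hτc]
    have := Nat.ceil_lt_add_one (show 0 ≤ x ^ 2 by positivity)
    nlinarith
  have hτ2 : 2 ≤ τ := by omega
  have hhx1 : x ^ 7 ≤ h / x := by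
    rw [le_div_iff₀ hxpos]
    calc x ^ 7 * x = x ^ 8 := by ring
      _ ≤ h := hhx
  have hx7 : (16 : ℝ) ^ 7 ≤ x ^ 7 := by gcongr
  have hsl2 : h / (2 * x) ≤ s := by
    have e5 : h / (2 * x) = h / x / 2 := by field_simp
    rw [e5]
    have : (2 : ℝ) ≤ h / x := le_trans (le_trans (by norm_num) hx7) hhx1
    linarith
  have hx27 : 16 ^ 5 * x ^ 2 ≤ x ^ 7 := by
    calc 16 ^ 5 * x ^ 2 ≤ x ^ 5 * x ^ 2 := by gcongr
      _ = x ^ 7 := by ring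
  have hx2 : (256 : ℝ) ≤ x ^ 2 := by nlinarith
  have h2τ : 2 * τ + 4 ≤ s := by
    have : (2 : ℝ) * τ + 4 ≤ s := by
      have e6 : h / (2 * x) = h / x / 2 := by field_simp
      nlinarith
    exact_mod_cast this
  set M : ℕ := s / (2 * τ) with hM
  have hMs : 2 * τ * M ≤ s := by
    rw [hM]; exact Nat.mul_div_le _ _
  have hMs2 : s < 2 * τ * (M + 1) := by
    have h7 := Nat.div_add_mod s (2 * τ)
    have h8 := Nat.mod_lt s (show 0 < 2 * τ by omega)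
    rw [← hM] at h7
    nlinarith
  have hMs2' : (s : ℝ) < 2 * τ * (M + 1) := by exact_mod_cast hMs2
  have hMl : h / x ^ 4 ≤ M := by
    have hy : 1 ≤ h / x ^ 4 := by
      rw [le_div_iff₀ (by positivity)]
      have : x ^ 4 ≤ x ^ 8 := pow_le_pow_right₀ hx1 (by norm_num)
      linarith
    have e5 : h / (2 * x) < 4 * x ^ 2 * ((M : ℝ) + 1) := by
      calc h / (2 * x) ≤ s := hsl2
        _ < 2 * τ * (M + 1) := hMs2'
        _ ≤ 2 * (2 * x ^ 2) * (M + 1) := by gcongr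
        _ = 4 * x ^ 2 * ((M : ℝ) + 1) := by ring
    have e6 : h / (2 * x) = 4 * x ^ 2 * (x / 8 * (h / x ^ 4)) := by
      field_simp
      norm_num
    rw [e6] at e5
    have e7 : x / 8 * (h / x ^ 4) < (M : ℝ) + 1 := lt_of_mul_lt_mul_left e5 (by positivity)
    nlinarith
  refine ⟨s, τ, M, hτ2, h2τ, hMs, ?_, ?_⟩
  · refine le_trans ?_ hMl
    have e6 : h / x ^ 4 = (n : ℝ) ^ (1 / 2 - 4 * θ) := by
      rw [hh, hx, ← Real.rpow_natCast, ← Real.rpow_mul hnpos.le, Real.rpow_sub hnpos]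
      congr 2
      push_cast; ring
    rw [e6]
    exact Real.rpow_le_rpow_of_exponent_le hn1 (by linarith)
  · have hs0 : (0 : ℝ) ≤ s := by positivity
    have hsn : (s : ℝ) ≤ n := by
      have : h / x ≤ h := div_le_self hhpos.le hx1
      linarith
    have f1 : (s : ℝ) ^ 2 / n ≤ 1 / x := by
      have e5 : (s : ℝ) ^ 2 ≤ (h / x) ^ 2 := by gcongr
      have e6 : (h / x) ^ 2 / n = 1 / x ^ 2 := by
        rw [← hh2]; field_simp
      calc (s : ℝ) ^ 2 / n ≤ (h / x) ^ 2 / n := by gcongr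
        _ = 1 / x ^ 2 := e6
        _ ≤ 1 / x := by
          apply one_div_le_one_div_of_le hxpos
          nlinarith
    have f2 : (s : ℝ) / n ≤ 1 / x := by
      calc (s : ℝ) / n ≤ (h / x) / n := by gcongr
        _ = 1 / x * (h / n) := by ring
        _ ≤ 1 / x * 1 := by
          have : h / n ≤ 1 := by rw [div_le_one hnpos]; exact hhn
          gcongr
        _ = 1 / x := by ring
    have f3 : 32 * K ^ 2 * (s : ℝ) ^ 2 / n + 16 * K * s / n ≤ ε' / 4 := by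
      have e5 : (32 * K ^ 2 + 16 * K) / (ε' / 4) ≤ x := e2
      rw [div_le_iff₀ (by positivity)] at e5
      calc 32 * K ^ 2 * (s : ℝ) ^ 2 / n + 16 * K * s / n
          = 32 * K ^ 2 * ((s : ℝ) ^ 2 / n) + 16 * K * (s / n) := by ring
        _ ≤ 32 * K ^ 2 * (1 / x) + 16 * K * (1 / x) := by gcongr
        _ = (32 * K ^ 2 + 16 * K) / x := by ring
        _ ≤ ε' / 4 := by
          rw [div_le_iff₀ hxpos]; linarith
    have f4 : 4 / (n : ℝ) ≤ ε' / 4 := by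
      rw [div_le_iff₀ hnpos]
      have : 16 / ε' ≤ n := by linarith
      rw [div_le_iff₀ hε'] at this
      linarith
    have f5 : c * x ≤ ((τ : ℝ) - 1) / (512 * C7 * x + 1) := by
      rw [le_div_iff₀ (by positivity)]
      have e5 : 512 * C7 * x + 1 ≤ 513 * C7 * x := by nlinarith
      calc c * x * (512 * C7 * x + 1) ≤ c * x * (513 * C7 * x) := by gcongr
        _ = x ^ 2 := by rw [hc]; field_simp
        _ ≤ (τ : ℝ) - 1 := by linarith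
    have f6 : Real.exp (-(((τ : ℝ) - 1) / (512 * C7 * x + 1))) ≤ Real.exp (-(c * x)) :=
      Real.exp_le_exp.2 (by linarith)
    have f7 : 1 + 2 * (s : ℝ) ^ 2 * (n : ℝ) ^ 4 + 2 * s * (n : ℝ) ^ 3 ≤ 5 * (n : ℝ) ^ 6 := by
      have g1 : 1 ≤ (n : ℝ) ^ 6 := one_le_pow₀ hn1
      have g2 : (s : ℝ) ^ 2 * (n : ℝ) ^ 4 ≤ (n : ℝ) ^ 6 := by
        calc (s : ℝ) ^ 2 * (n : ℝ) ^ 4 ≤ (n : ℝ) ^ 2 * (n : ℝ) ^ 4 := by gcongr
          _ = (n : ℝ) ^ 6 := by ring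
      have g3 : (s : ℝ) * (n : ℝ) ^ 3 ≤ (n : ℝ) ^ 6 := by
        calc (s : ℝ) * (n : ℝ) ^ 3 ≤ (n : ℝ) * (n : ℝ) ^ 3 := by gcongr
          _ = (n : ℝ) ^ 4 := by ring
          _ ≤ (n : ℝ) ^ 6 := pow_le_pow_right₀ hn1 (by norm_num)
      nlinarith
    have f8 : (1 + 2 * (s : ℝ) ^ 2 * (n : ℝ) ^ 4 + 2 * s * (n : ℝ) ^ 3) *
        Real.exp (-(((τ : ℝ) - 1) / (512 * C7 * x + 1))) ≤ ε' / 4 := by
      calc _ ≤ (5 * (n : ℝ) ^ 6) * Real.exp (-(c * x)) := by gcongr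
        _ = 5 * ((n : ℝ) ^ 6 * Real.exp (-(c * x))) := by ring
        _ ≤ 5 * (ε' / 20) := by gcongr
        _ = ε' / 4 := by ring
    linarith

end RST.R
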