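import Mathlib

/-!
# R, job R10: numerical estimates for the probabilities (pure analysis)

PROOF. Each of the six conclusions holds for `n` large (take the maximum of the thresholds). Write
`x = D`, `x ≥ c0 log n → ∞`, and `1 ≤ x` for `n` large.
1. `3000 ≤ c0 log n` eventually (`Real.tendsto_log_atTop`).  2. clear.
3. `exp (-n) → 0`.
4. `120 * (22/100) ^ (D / 16 - 1) ≤ 120 * (22/100) ^ (c0 log n / 16 - 1) → 0` (the function
`y ↦ (22/100) ^ y` is antitone and tends to `0` at infinity: it is `exp (y * log (22/100))` with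
`log (22/100) < 0`).
5. `172/100 Λ - (172/100 C3 + 2 / c0) D ≤ - 2 / c0 * D ≤ - 2 log n`, so the term is at most
`n * n ^ (-2) = 1 / n`.
6. Two terms. (a) `n * Λ ^ l1 * exp (-(19/100 D (l1 + 1)))`: with `Λ ≤ C3 D`,
`19/100 D (l1 + 1) = 95/1000 D (l1 + 1) + 95/1000 D (l1 + 1)`, the first half is at least
`95/1000 c0 (l1 + 1) log n ≥ 2 log n`, so the term is at most
`n * n ^ (-2) * (C3 D) ^ l1 * exp (- 95/1000 D l1) = (1 / n) * (C3 D exp (- 95/1000 D)) ^ l1`, and
`C3 D exp (- 95/1000 D) ≤ 1` for `D` large (`D ≥ c0 log n`; e.g. `y ^ 2 / 2 ≤ exp y` with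
`y = 95/1000 D` gives `C3 D exp (-y) ≤ 2 C3 D / y ^ 2`).
(b) `n * Λ ^ l1 * exp (-n) ≤ n ^ (l1 + 1) * exp (-n) → 0` (`Λ ≤ n`;
`Real.tendsto_pow_mul_exp_neg_atTop_nhds_zero`).
-/

open Finset

namespace RST.R

open Filter in
theorem asyP (c0 C3 ε : ℝ) (hc0 : 0 < c0) (hC3 : 1 ≤ C3) (hε : 0 < ε) (l1 : ℕ)
    (hl1 : 2 ≤ 95 / 1000 * c0 * (l1 + 1)) : ∃ n₀ : ℕ, ∀ n : ℕ, n₀ ≤ n → ∀ D Λ : ℝ,
    c0 * Real.log n ≤ D → 0 ≤ Λ → Λ ≤ C3 * D → Λ ≤ n →
    3000 ≤ D ∧ 100 * (l1 + 1) ≤ n ∧ Real.exp (-(n : ℝ)) ≤ ε / 5 ∧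
    120 * (22 / 100 : ℝ) ^ (D / 16 - 1) ≤ ε / 5 ∧
    n * Real.exp (172 / 100 * Λ - (172 / 100 * C3 + 2 / c0) * D) ≤ ε / 5 ∧
    n * Λ ^ l1 * (Real.exp (-(19 / 100 * D * (l1 + 1))) + Real.exp (-(n : ℝ))) ≤ ε / 5 := by
  have hlog : Tendsto (fun n : ℕ => c0 * Real.log (n : ℝ)) atTop atTop :=
    (Real.tendsto_log_atTop.comp tendsto_natCast_atTop_atTop).const_mul_atTop hc0
  have hcast : Tendsto (fun n : ℕ => (n : ℝ)) atTop atTop := tendsto_natCast_atTop_atTop
  have hε5 : 0 < ε / 5 := by positivity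
  have hε10 : 0 < ε / 10 := by positivity
  -- (1)
  have e1 : ∀ᶠ n : ℕ in atTop, 3000 ≤ c0 * Real.log (n : ℝ) := hlog.eventually_ge_atTop 3000
  -- (2)
  have e2 : ∀ᶠ n : ℕ in atTop, 100 * (l1 + 1) ≤ n := eventually_ge_atTop _
  -- (3)
  have e3 : ∀ᶠ n : ℕ in atTop, Real.exp (-(n : ℝ)) ≤ ε / 5 := by
    have h : Tendsto (fun n : ℕ => Real.exp (-(n : ℝ))) atTop (nhds 0) :=
      Real.tendsto_exp_neg_atTop_nhds_zero.comp hcast
    exact h.eventually_le_const hε5
  -- (4)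
  have hl22 : Real.log (22 / 100) < 0 := Real.log_neg (by norm_num) (by norm_num)
  have e4 : ∀ᶠ n : ℕ in atTop,
      120 * Real.exp (Real.log (22 / 100) * (c0 * Real.log (n : ℝ) / 16 - 1)) ≤ ε / 5 := by
    have h1 : Tendsto (fun n : ℕ => c0 * Real.log (n : ℝ) / 16 - 1) atTop atTop :=
      tendsto_atTop_add_const_right _ _ (hlog.atTop_div_const (by norm_num))
    have h2 : Tendsto (fun n : ℕ => Real.log (22 / 100) * (c0 * Real.log (n : ℝ) / 16 - 1))
        atTop atBot := h1.const_mul_atTop_of_neg hl22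
    have h3 := (Real.tendsto_exp_atBot.comp h2).const_mul 120
    rw [mul_zero] at h3
    exact h3.eventually_le_const hε5
  -- (5)
  have e5 : ∀ᶠ n : ℕ in atTop, 1 / (n : ℝ) ≤ ε / 10 := by
    have h : Tendsto (fun n : ℕ => 1 / (n : ℝ)) atTop (nhds 0) :=
      tendsto_const_div_atTop_nhds_zero_nat 1
    exact h.eventually_le_const hε10
  -- (6)
  have e6 : ∀ᶠ n : ℕ in atTop, 2 * C3 / (95 / 1000) ^ 2 ≤ c0 * Real.log (n : ℝ) :=
    hlog.eventually_ge_atTop _
  have e7 : ∀ᶠ n : ℕ in atTop, (n : ℝ) ^ (l1 + 1) * Real.exp (-(n : ℝ)) ≤ ε / 10 := by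
    have h := (Real.tendsto_pow_mul_exp_neg_atTop_nhds_zero (l1 + 1)).comp hcast
    exact h.eventually_le_const hε10
  obtain ⟨n₀, hn₀⟩ := eventually_atTop.1
    (e1.and (e2.and (e3.and (e4.and (e5.and (e6.and (e7.and (eventually_ge_atTop 1))))))))
  refine ⟨n₀, fun n hn D Λ hD hΛ0 hΛD hΛn => ?_⟩
  obtain ⟨f1, f2, f3, f4, f5, f6, f7, f8⟩ := hn₀ n hn
  have hn1 : (1 : ℝ) ≤ n := by exact_mod_cast f8
  have hn0 : (0 : ℝ) < n := by linarith
  have hD0 : 3000 ≤ D := f1.trans hD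
  have hDpos : 0 < D := by linarith
  have hexpn : Real.exp (-(2 * Real.log n)) = 1 / (n : ℝ) ^ 2 := by
    rw [Real.exp_neg, two_mul, Real.exp_add, Real.exp_log hn0, one_div, pow_two]
  refine ⟨hD0, f2, f3, ?_, ?_, ?_⟩
  · refine le_trans ?_ f4
    apply mul_le_mul_of_nonneg_left _ (by norm_num)
    rw [Real.rpow_def_of_pos (by norm_num)]
    apply Real.exp_le_exp.2
    apply mul_le_mul_of_nonpos_left _ hl22.le
    linarith
  · have h1 : 172 / 100 * Λ - (172 / 100 * C3 + 2 / c0) * D ≤ -(2 * Real.log n) := by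
      have h2 : 2 / c0 * D ≥ 2 * Real.log n := by
        have h3 : 2 / c0 * (c0 * Real.log n) = 2 * Real.log n := by
          field_simp
        rw [← h3]
        exact mul_le_mul_of_nonneg_left hD (by positivity)
      nlinarith
    have h2 := Real.exp_le_exp.2 h1
    rw [hexpn] at h2
    calc (n : ℝ) * Real.exp (172 / 100 * Λ - (172 / 100 * C3 + 2 / c0) * D)
        ≤ n * (1 / (n : ℝ) ^ 2) := mul_le_mul_of_nonneg_left h2 hn0.le
      _ = 1 / (n : ℝ) := by field_simp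
      _ ≤ ε / 5 := by linarith
  · rw [mul_add]
    have ha : (n : ℝ) * Λ ^ l1 * Real.exp (-(19 / 100 * D * (l1 + 1))) ≤ ε / 10 := by
      have h1 : Real.exp (-(19 / 100 * D * (l1 + 1))) ≤
          1 / (n : ℝ) ^ 2 * Real.exp (-(95 / 1000 * D)) ^ l1 := by
        rw [← hexpn, ← Real.exp_nat_mul, ← Real.exp_add]
        apply Real.exp_le_exp.2
        have h2 : 2 * Real.log n ≤ 95 / 1000 * D * (l1 + 1) := by
          have hlog0 : 0 ≤ Real.log n := Real.log_nonneg hn1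
          have h3 : 2 * Real.log n ≤ 95 / 1000 * c0 * (l1 + 1) * Real.log n :=
            mul_le_mul_of_nonneg_right hl1 hlog0
          have h4 : 95 / 1000 * c0 * (l1 + 1) * Real.log n =
              95 / 1000 * (l1 + 1) * (c0 * Real.log n) := by ring
          have h5 : 95 / 1000 * ((l1 : ℝ) + 1) * (c0 * Real.log n) ≤
              95 / 1000 * ((l1 : ℝ) + 1) * D := mul_le_mul_of_nonneg_left hD (by positivity)
          linarith
        have h6 : 0 ≤ 95 / 1000 * D := by positivity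
        linarith
      have h2 : C3 * D * Real.exp (-(95 / 1000 * D)) ≤ 1 := by
        have h3 : (95 / 1000 * D) ^ 2 / 2 ≤ Real.exp (95 / 1000 * D) := by
          have := Real.quadratic_le_exp_of_nonneg (x := 95 / 1000 * D) (by positivity)
          have h4 : 0 ≤ 95 / 1000 * D := by positivity
          linarith
        have h4 : C3 * D ≤ (95 / 1000 * D) ^ 2 / 2 := by
          have h5 : 2 * C3 / (95 / 1000) ^ 2 ≤ D := f6.trans hD
          rw [div_le_iff₀ (by norm_num)] at h5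
          nlinarith
        rw [Real.exp_neg, ← div_eq_mul_inv, div_le_one (Real.exp_pos _)]
        exact h4.trans h3
      have h3 : Λ ^ l1 ≤ (C3 * D) ^ l1 := pow_le_pow_left₀ hΛ0 hΛD l1
      calc (n : ℝ) * Λ ^ l1 * Real.exp (-(19 / 100 * D * (l1 + 1)))
          ≤ n * (C3 * D) ^ l1 * (1 / (n : ℝ) ^ 2 * Real.exp (-(95 / 1000 * D)) ^ l1) := by
            apply mul_le_mul (mul_le_mul_of_nonneg_left h3 hn0.le) h1 (Real.exp_pos _).le
            positivity
        _ = 1 / (n : ℝ) * (C3 * D * Real.exp (-(95 / 1000 * D))) ^ l1 := by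
            rw [mul_pow (C3 * D)]
            field_simp
        _ ≤ 1 / (n : ℝ) * 1 := by
            apply mul_le_mul_of_nonneg_left _ (by positivity)
            exact pow_le_one₀ (by positivity) h2
        _ ≤ ε / 10 := by linarith
    have hb : (n : ℝ) * Λ ^ l1 * Real.exp (-(n : ℝ)) ≤ ε / 10 := by
      refine le_trans ?_ f7
      apply mul_le_mul_of_nonneg_right _ (Real.exp_pos _).le
      rw [pow_succ, mul_comm]
      exact mul_le_mul_of_nonneg_right (pow_le_pow_left₀ hΛ0 hΛn l1) hn0.le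
    linarith

end RST.R
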