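import Pool.Agent.Lib.MP_7946c7_pr.IfB
import Pool.Agent.Lib.MP_7946c7_pr.IfG

/-!
# R, job R01: product formula, Chernoff bounds, independence of several events

Throughout `EE`, `PP` are finite sums (Defs.lean); facts `EE_mono`, `EE_mul_left`, `PP_markov`,
`PP_mono`, ... are in IfB.lean, `EE_indep` in IfG.lean (all may be cited).

PROOFS.
`EE_prod`. `EE q (fun b => ∏ e ∈ F, g (b e)) = ∑ b, ∏ e, q (b e) * (if e ∈ F then g (b e) else 1)`
and `Finset.prod_univ_sum` (or `Fintype.piFinset_univ`, `Finset.prod_sum`) turns the sum over `b` of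
a product into the product over `e` of `∑ x, q x * (if e ∈ F then g x else 1)`; the factors with
`e ∉ F` are `∑ x, q x = 1`.
`bin_gen`. `z ^ #(F.filter (b e ∈ A)) = ∏ e ∈ F, (if b e ∈ A then z else 1)` (`Finset.prod_ite` /
`Finset.prod_pow_boole`), and `∑ x, q x * (if x ∈ A then z else 1) = (1 - qs q A) + qs q A * z`.
`bin_lower`. With `z = exp (-1)` : `{X ≤ t} ⊆ {z ^ X ≥ exp (-t)}`, Markov:
`PP ≤ exp t * (1 - p + p z) ^ N ≤ exp t * exp (-(1 - z) p N)` (`1 - x ≤ exp (-x)`), and
`1 - exp (-1) ≥ 63/100` (`Real.exp_neg_one_lt_d9`).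
`bin_upper_gen`. `{t ≤ X} ⊆ {z ^ X ≥ z ^ t}` (rpow, `z ≥ 1`), Markov and
`(1 + p (z - 1)) ^ N ≤ exp ((z - 1) p N)`.
`bin_upper`: `z = exp 1`, `exp 1 - 1 ≤ 172/100` (`Real.exp_one_lt_d9`).
`bin_all`: `EE_prod` with `g = indicator of A`.
`EE_indep_finset`: induction on `I` from `EE_indep` (the product over `I'` depends on
`⋃ i ∈ I', s i`, which is in the complement of `s i₀`; `DependsOn` is monotone in the set).
-/

open Finset

namespace RST.R

variable {ι B : Type} [Fintype ι] [DecidableEq ι] [Fintype B] [DecidableEq B] {q : B → ℝ}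

theorem EE_prod (hq : IsLaw q) (F : Finset ι) (g : B → ℝ) :
    EE q (fun b : ι → B => ∏ e ∈ F, g (b e)) = (∑ x, q x * g x) ^ F.card := by
  have h1 : EE q (fun b : ι → B => ∏ e ∈ F, g (b e)) =
      ∏ e : ι, ∑ x : B, (q x * if e ∈ F then g x else 1) := by
    rw [Finset.prod_univ_sum, Fintype.piFinset_univ]
    unfold EE
    have h2 : ∀ b : ι → B, (∏ e, q (b e)) * ∏ e ∈ F, g (b e) =
        ∏ e, (q (b e) * if e ∈ F then g (b e) else 1) := by
      intro b
      rw [Finset.prod_mul_distrib]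
      congr 1
      rw [Finset.prod_ite_mem, Finset.univ_inter]
    simp only [h2]
    refine Finset.sum_congr ?_ fun b _ => rfl
    ext b
    simp only [Finset.mem_univ]
  rw [h1]
  have h3 : ∀ e : ι, ∑ x : B, (q x * if e ∈ F then g x else 1) =
      if e ∈ F then ∑ x, q x * g x else 1 := by
    intro e
    split_ifs with he
    · rfl
    · simp only [mul_one]
      exact hq.sum_one
  simp only [h3]
  rw [Finset.prod_ite_mem, Finset.univ_inter, Finset.prod_const]

private theorem Chern_sum (hq : IsLaw q) (A : Finset B) (z : ℝ) :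
    ∑ x, q x * (if x ∈ A then z else 1) = 1 - qs q A + qs q A * z := by
  have h1 : ∀ x, q x * (if x ∈ A then z else 1) = q x + (if x ∈ A then q x * (z - 1) else 0) := by
    intro x
    split_ifs <;> ring
  simp only [h1]
  rw [Finset.sum_add_distrib, hq.sum_one, Finset.sum_ite_mem, Finset.univ_inter, ← Finset.sum_mul]
  unfold qs
  ring

theorem bin_gen (hq : IsLaw q) (A : Finset B) (F : Finset ι) (z : ℝ) :
    EE q (fun b : ι → B => z ^ (F.filter fun e => b e ∈ A).card) =
      (1 - qs q A + qs q A * z) ^ F.card := by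
  rw [← Chern_sum hq, ← EE_prod hq]
  congr 1
  ext b
  rw [Finset.prod_ite, Finset.prod_const, Finset.prod_const_one, mul_one]

private theorem Chern_p0 (hq : IsLaw q) (A : Finset B) : 0 ≤ qs q A :=
  Finset.sum_nonneg fun x _ => hq.nonneg x

private theorem Chern_p1 (hq : IsLaw q) (A : Finset B) : qs q A ≤ 1 := by
  rw [← hq.sum_one]
  exact Finset.sum_le_sum_of_subset_of_nonneg (Finset.subset_univ _) fun x _ _ => hq.nonneg x

private theorem Chern_pow (hq : IsLaw q) (A : Finset B) (z : ℝ) (hz : 0 ≤ z) (N : ℕ) :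
    (1 - qs q A + qs q A * z) ^ N ≤ Real.exp ((z - 1) * qs q A * N) := by
  have h0 := Chern_p0 hq A
  have h1 := Chern_p1 hq A
  have h2 : 0 ≤ 1 - qs q A + qs q A * z := by
    have := mul_nonneg h0 hz
    linarith
  have h3 : 1 - qs q A + qs q A * z ≤ Real.exp ((z - 1) * qs q A) := by
    have := Real.add_one_le_exp ((z - 1) * qs q A)
    linarith
  calc (1 - qs q A + qs q A * z) ^ N ≤ (Real.exp ((z - 1) * qs q A)) ^ N := pow_le_pow_left₀ h2 h3 N
    _ = Real.exp ((z - 1) * qs q A * N) := by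
      rw [← Real.exp_nat_mul]
      congr 1
      ring

/-- Lower tail. -/
theorem bin_lower (hq : IsLaw q) (A : Finset B) (F : Finset ι) (t : ℝ) :
    PP q {b : ι → B | ((F.filter fun e => b e ∈ A).card : ℝ) ≤ t} ≤
      Real.exp (t - 63 / 100 * qs q A * F.card) := by
  have h0 := Chern_p0 hq A
  have h1 : PP q {b : ι → B | ((F.filter fun e => b e ∈ A).card : ℝ) ≤ t} ≤
      PP q {b : ι → B | Real.exp (-t) ≤ Real.exp (-1) ^ (F.filter fun e => b e ∈ A).card} := by
    apply PP_mono hq
    intro b hb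
    rw [Set.mem_ofPred_eq] at hb ⊢
    rw [← Real.exp_nat_mul]
    apply Real.exp_le_exp.2
    linarith
  have h2 := PP_markov hq (F := fun b : ι → B => Real.exp (-1) ^ (F.filter fun e => b e ∈ A).card)
    (fun b => by positivity) (Real.exp_pos (-t))
  rw [bin_gen hq] at h2
  refine h1.trans (h2.trans ?_)
  have h3 := Chern_pow hq A (Real.exp (-1)) (Real.exp_pos _).le F.card
  rw [div_le_iff₀ (Real.exp_pos _), ← Real.exp_add]
  refine h3.trans (Real.exp_le_exp.2 ?_)
  have h4 := Real.exp_neg_one_lt_d9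
  have h5 : (Real.exp (-1) - 1) ≤ -(63 / 100) := by linarith
  have h6 : 0 ≤ qs q A * F.card := mul_nonneg h0 (Nat.cast_nonneg _)
  have h7 := mul_le_mul_of_nonneg_right h5 h6
  linarith

/-- Upper tail. -/
theorem bin_upper_gen (hq : IsLaw q) (A : Finset B) (F : Finset ι) (z t : ℝ) (hz : 1 ≤ z) :
    PP q {b : ι → B | t ≤ ((F.filter fun e => b e ∈ A).card : ℝ)} ≤
      Real.exp ((z - 1) * qs q A * F.card) * z ^ (-t) := by
  have hz0 : 0 < z := by linarith
  have h1 : PP q {b : ι → B | t ≤ ((F.filter fun e => b e ∈ A).card : ℝ)} ≤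
      PP q {b : ι → B | z ^ t ≤ z ^ (F.filter fun e => b e ∈ A).card} := by
    apply PP_mono hq
    intro b hb
    rw [Set.mem_ofPred_eq] at hb ⊢
    rw [← Real.rpow_natCast]
    exact Real.rpow_le_rpow_of_exponent_le hz hb
  have h2 := PP_markov hq (F := fun b : ι → B => z ^ (F.filter fun e => b e ∈ A).card)
    (fun b => by positivity) (Real.rpow_pos_of_pos hz0 t)
  rw [bin_gen hq] at h2
  refine h1.trans (h2.trans ?_)
  have h3 := Chern_pow hq A z hz0.le F.card
  rw [Real.rpow_neg hz0.le, div_eq_mul_inv]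
  exact mul_le_mul_of_nonneg_right h3 (inv_nonneg.2 (Real.rpow_pos_of_pos hz0 t).le)

theorem bin_upper (hq : IsLaw q) (A : Finset B) (F : Finset ι) (t : ℝ) :
    PP q {b : ι → B | t ≤ ((F.filter fun e => b e ∈ A).card : ℝ)} ≤
      Real.exp (172 / 100 * qs q A * F.card - t) := by
  have h0 := Chern_p0 hq A
  have h1 : (1 : ℝ) ≤ Real.exp 1 := by
    have := Real.add_one_le_exp (1 : ℝ)
    linarith
  refine (bin_upper_gen hq A F (Real.exp 1) t h1).trans ?_
  rw [← Real.exp_mul, ← Real.exp_add]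
  apply Real.exp_le_exp.2
  have h4 := Real.exp_one_lt_d9
  have h5 : (Real.exp 1 - 1) ≤ 172 / 100 := by linarith
  have h6 : 0 ≤ qs q A * F.card := mul_nonneg h0 (Nat.cast_nonneg _)
  have h7 := mul_le_mul_of_nonneg_right h5 h6
  linarith

theorem bin_all (hq : IsLaw q) (A : Finset B) (F : Finset ι) :
    PP q {b : ι → B | ∀ e ∈ F, b e ∈ A} = qs q A ^ F.card := by
  have h1 : ∑ x, q x * (if x ∈ A then (1 : ℝ) else 0) = qs q A := by
    simp only [mul_ite, mul_one, mul_zero]
    rw [Finset.sum_ite_mem, Finset.univ_inter]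
    rfl
  rw [← h1, ← EE_prod hq]
  unfold PP
  congr 1
  ext b
  rw [Finset.prod_boole]
  simp only [Set.mem_ofPred_eq]
  split_ifs <;> rfl

/-- Independence of several functions of disjoint sets of coordinates. -/
theorem EE_indep_finset (hq : IsLaw q) {κ : Type} [DecidableEq κ] (I : Finset κ)
    (s : κ → Set ι) (hs : ∀ i ∈ I, ∀ j ∈ I, i ≠ j → Disjoint (s i) (s j))
    (F : κ → (ι → B) → ℝ) (hF : ∀ i ∈ I, DependsOn (F i) (s i)) :
    EE q (fun b => ∏ i ∈ I, F i b) = ∏ i ∈ I, EE q (F i) := by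
  induction I using Finset.induction_on with
  | empty =>
    simp only [Finset.prod_empty]
    exact EE_const hq 1
  | insert i₀ I' hi ih =>
    rw [Finset.prod_insert hi]
    simp only [Finset.prod_insert hi]
    rw [EE_indep hq (s i₀) (F i₀) (fun b => ∏ i ∈ I', F i b)
      (hF i₀ (Finset.mem_insert_self _ _)), ih]
    · exact fun i hi' j hj hij => hs i (Finset.mem_insert_of_mem hi') j (Finset.mem_insert_of_mem hj) hij
    · exact fun i hi' => hF i (Finset.mem_insert_of_mem hi')
    · intro x y hxy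
      refine Finset.prod_congr rfl fun i hi' => ?_
      apply hF i (Finset.mem_insert_of_mem hi')
      intro e he
      apply hxy
      have hne : i₀ ≠ i := by
        rintro rfl
        exact hi hi'
      have := hs i₀ (Finset.mem_insert_self _ _) i (Finset.mem_insert_of_mem hi') hne
      intro he'
      exact Set.disjoint_left.1 this he' he

end RST.R
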