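import Pool.Agent.Lib.MP_7946c7_pr.R.Basic

/-!
# R, job R03: the core of a set (deterministic)

PROOFS. Call `U` good if `∀ x ∈ U, d ≤ dg R U x`. `core R d W` is the union of the good `U ⊆ W`.
`core_sub`: `filter_subset`. `core_max`: by definition. `core_deg`: if `v ∈ core`, take a good
`U ⊆ W` with `v ∈ U`; `U ⊆ core` by `core_max`, and `dg R U v ≤ dg R core v` (`card_le_card`).
`core_mono`: a good `U ⊆ W` is a good subset of `W'`. `core_congr`: for `U ⊆ W` the degrees in `U`
of the vertices of `U` are the same for `R` and `R'`.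
`peel`: induction on `b`. `b = 0`: `B = ∅`. Step: `b + 1 ≤ #(W \ core)`. Let `B` be given by the
induction hypothesis for `b`, i.e. `B ⊆ W \ core`, `#B = b` and `ep R B (W \ B) ≤ b * d`. Some vertex
`x ∈ W \ B` has `dg R (W \ B) x < d`: otherwise `W \ B` is good, so `W \ B ⊆ core` by `core_max`, so
`W \ core ⊆ B` and `b + 1 ≤ #(W \ core) ≤ #B = b`. This `x` is not in the core: the core is in
`W \ B` (as `B` is disjoint from it), so otherwise `d ≤ dg R core x ≤ dg R (W \ B) x`. Take
`B' = insert x B`; the pairs of `B' × (W \ B')` related by `R` are among those of `B × (W \ B)` and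
the pairs `(x, y)`, `y ∈ W \ B`, related by `R`: at most `b * d + d`.
-/

open Finset

namespace RST.R

variable {V : Type} [DecidableEq V] {R R' : V → V → Prop} {d : ℝ} {W W' U : Finset V}

omit [DecidableEq V] in
private theorem Core_mem {v : V} : v ∈ core R d W ↔
    v ∈ W ∧ ∃ U ⊆ W, v ∈ U ∧ ∀ x ∈ U, d ≤ (dg R U x : ℝ) := by
  unfold core
  simp only [Finset.mem_filter]

theorem core_sub : core R d W ⊆ W := by
  intro v hv
  exact (Core_mem.1 hv).1

theorem core_max (hU : U ⊆ W) (h : ∀ x ∈ U, d ≤ (dg R U x : ℝ)) : U ⊆ core R d W := by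
  intro v hv
  exact Core_mem.2 ⟨hU hv, U, hU, hv, h⟩

omit [DecidableEq V] in
private theorem Core_dg_mono (h : U ⊆ W) (x : V) : dg R U x ≤ dg R W x := by
  classical
  unfold dg
  exact Finset.card_le_card (Finset.filter_subset_filter _ h)

omit [DecidableEq V] in
private theorem Core_dg_congr (h : ∀ x ∈ W, ∀ y ∈ W, (R x y ↔ R' x y)) (hU : U ⊆ W) {x : V}
    (hx : x ∈ U) : dg R U x = dg R' U x := by
  classical
  unfold dg
  congr 1
  apply Finset.filter_congr
  intro y hy
  exact h x (hU hx) y (hU hy)

theorem core_deg : ∀ x ∈ core R d W, d ≤ (dg R (core R d W) x : ℝ) := by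
  intro x hx
  obtain ⟨_, U, hU, hxU, h⟩ := Core_mem.1 hx
  refine (h x hxU).trans ?_
  have h1 : dg R U x ≤ dg R (core R d W) x := Core_dg_mono (core_max hU h) x
  exact_mod_cast h1

theorem core_mono (h : W ⊆ W') : core R d W ⊆ core R d W' := by
  intro x hx
  obtain ⟨_, U, hU, hxU, hd⟩ := Core_mem.1 hx
  exact core_max (hU.trans h) hd hxU

theorem core_congr (h : ∀ x ∈ W, ∀ y ∈ W, (R x y ↔ R' x y)) : core R d W = core R' d W := by
  ext v
  rw [Core_mem, Core_mem]
  constructor
  · rintro ⟨hvW, U, hU, hv, hd⟩
    refine ⟨hvW, U, hU, hv, fun x hx => ?_⟩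
    rw [← Core_dg_congr h hU hx]
    exact hd x hx
  · rintro ⟨hvW, U, hU, hv, hd⟩
    refine ⟨hvW, U, hU, hv, fun x hx => ?_⟩
    rw [Core_dg_congr h hU hx]
    exact hd x hx

theorem peel (b : ℕ) (hb : b ≤ (W \ core R d W).card) :
    ∃ B ⊆ W \ core R d W, B.card = b ∧ (ep R B (W \ B) : ℝ) ≤ b * d := by
  induction b with
  | zero =>
    refine ⟨∅, Finset.empty_subset _, Finset.card_empty, ?_⟩
    unfold ep
    simp
  | succ b ih =>
    obtain ⟨B, hB, hBc, hep⟩ := ih (by omega)
    -- a vertex of small degree
    have hex : ∃ x ∈ W \ B, (dg R (W \ B) x : ℝ) < d := by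
      by_contra hcon
      push Not at hcon
      have h1 : W \ B ⊆ core R d W := core_max Finset.sdiff_subset hcon
      have h2 : W \ core R d W ⊆ B := by
        intro v hv
        rw [Finset.mem_sdiff] at hv
        by_contra hvB
        exact hv.2 (h1 (Finset.mem_sdiff.2 ⟨hv.1, hvB⟩))
      have h3 := Finset.card_le_card h2
      omega
    obtain ⟨x, hx, hxd⟩ := hex
    have hxW : x ∈ W := (Finset.mem_sdiff.1 hx).1
    have hxB : x ∉ B := (Finset.mem_sdiff.1 hx).2
    have hxc : x ∉ core R d W := by
      intro hxc
      have h1 : core R d W ⊆ W \ B := by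
        intro v hv
        rw [Finset.mem_sdiff]
        refine ⟨core_sub hv, fun hvB => ?_⟩
        exact (Finset.mem_sdiff.1 (hB hvB)).2 hv
      have h2 := core_deg x hxc
      have h3 : dg R (core R d W) x ≤ dg R (W \ B) x := Core_dg_mono h1 x
      have h4 : (dg R (core R d W) x : ℝ) ≤ (dg R (W \ B) x : ℝ) := by exact_mod_cast h3
      linarith
    refine ⟨insert x B, ?_, ?_, ?_⟩
    · intro v hv
      rcases Finset.mem_insert.1 hv with rfl | hv
      · exact Finset.mem_sdiff.2 ⟨hxW, hxc⟩
      · exact hB hv
    · rw [Finset.card_insert_of_notMem hxB, hBc]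
    · have h1 : ep R (insert x B) (W \ insert x B) ≤ ep R B (W \ B) + dg R (W \ B) x := by
        classical
        have h2 : ((insert x B ×ˢ (W \ insert x B)).filter fun p => R p.1 p.2) ⊆
            ((B ×ˢ (W \ B)).filter fun p => R p.1 p.2) ∪
              ((W \ B).filter fun y => R x y).image (fun y => (x, y)) := by
          intro p hp
          rw [Finset.mem_filter, Finset.mem_product, Finset.mem_insert, Finset.mem_sdiff,
            Finset.mem_insert] at hp
          obtain ⟨⟨hp1, hp2, hp3⟩, hp4⟩ := hp
          push Not at hp3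
          rw [Finset.mem_union]
          rcases hp1 with hp1 | hp1
          · right
            rw [Finset.mem_image]
            refine ⟨p.2, ?_, ?_⟩
            · rw [Finset.mem_filter, Finset.mem_sdiff]
              refine ⟨⟨hp2, hp3.2⟩, ?_⟩
              rw [← hp1]
              exact hp4
            · rw [← hp1]
          · left
            rw [Finset.mem_filter, Finset.mem_product, Finset.mem_sdiff]
            exact ⟨⟨hp1, hp2, hp3.2⟩, hp4⟩
        have h3 := Finset.card_le_card h2
        have h4 := Finset.card_union_le ((B ×ˢ (W \ B)).filter fun p => R p.1 p.2)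
          (((W \ B).filter fun y => R x y).image (fun y => (x, y)))
        have h5 : (((W \ B).filter fun y => R x y).image (fun y => (x, y))).card ≤
          ((W \ B).filter fun y => R x y).card := Finset.card_image_le
        have h6 : ep R (insert x B) (W \ insert x B) =
          ((insert x B ×ˢ (W \ insert x B)).filter fun p => R p.1 p.2).card := by
          unfold ep
          congr
        have h7 : ep R B (W \ B) = ((B ×ˢ (W \ B)).filter fun p => R p.1 p.2).card := by
          unfold ep
          congr
        have h8 : dg R (W \ B) x = ((W \ B).filter fun y => R x y).card := by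
          unfold dg
          congr
        omega
      have h2 : (ep R (insert x B) (W \ insert x B) : ℝ) ≤
          (ep R B (W \ B) : ℝ) + (dg R (W \ B) x : ℝ) := by exact_mod_cast h1
      push_cast
      linarith

end RST.R
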