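import Pool.Agent.Lib.MP_7946c7_pr.R.Basic
import Pool.Agent.Lib.MP_7946c7_pr.R.Chern

/-!
# R, job R02: numbers of edges between sets of vertices

PROOFS. `ebt X Y` is the set of the edges `s(x, y)`, `x ∈ X`, `y ∈ Y`.
`ebt_card`, `ebt_count`: for disjoint `X`, `Y` the map `(x, y) ↦ s(x, y)` is injective on `X ×ˢ Y`
(`Sym2.eq_iff`, the swapped case contradicts disjointness), and `adj A b x y ↔ b s(x, y) ∈ A` there
(`x ≠ y`).
`pair_lower`: `bin_lower` for `F = ebt X Y`.
`inside_upper`: let `F = X.offDiag.image Sym2.mk` (or the set of the non-diagonal elements of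
`X.sym2`); `F.card = X.card.choose 2 ≤ X.card ^ 2 / 2` (`Sym2.card_image_offDiag`), and
`ep (adj A b) X X ≤ 2 * #(F.filter (b e ∈ A))` (each edge has at most two preimages `(x, y)`;
`Finset.card_le_mul_card_image`), so the event is contained in `{t ≤ #(F.filter ..)}`; use
`bin_upper_gen` and `F.card ≤ X.card ^ 2 / 2` (the exponent is nonnegative: `0 ≤ qs q A`).
`dg_upper`: `dg (adj A b) univ x = ep (adj A b) {x} (univ.erase x)` and `bin_upper`.
`dg_lower`: `dg (adj A b) U x = ep (adj A b) {x} U`.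
`deg_prob`: union bound over `x` (`PP_exists_le`), `dg_upper`.
`dependsOn_*`: the values `b e` for `e ∈ ebt X Y` resp. for `e` inside `W` determine the function.
-/

open Finset

namespace RST.R

variable {V B : Type} [Fintype V] [DecidableEq V] [Fintype B] [DecidableEq B] {q : B → ℝ}

/-- The edges between `X` and `Y`. -/
def ebt (X Y : Finset V) : Finset (Sym2 V) := (X ×ˢ Y).image fun p => s(p.1, p.2)

theorem ebt_injOn {X Y : Finset V} (h : Disjoint X Y) :
    Set.InjOn (fun p : V × V => s(p.1, p.2)) (X ×ˢ Y : Finset (V × V)) := by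
  intro p hp p' hp' he
  simp only [Finset.coe_product, Set.mem_prod, Finset.mem_coe] at hp hp'
  rcases Sym2.eq_iff.1 he with ⟨h1, h2⟩ | ⟨h1, h2⟩
  · exact Prod.ext h1 h2
  · exfalso
    exact (Finset.disjoint_left.1 h) hp.1 (h1 ▸ hp'.2)

theorem ebt_card {X Y : Finset V} (h : Disjoint X Y) : (ebt X Y).card = X.card * Y.card := by
  unfold ebt
  rw [Finset.card_image_of_injOn (ebt_injOn h), Finset.card_product]

theorem ebt_count {X Y : Finset V} (h : Disjoint X Y) (A : Finset B) (b : Sym2 V → B) :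
    ep (adj A b) X Y = ((ebt X Y).filter fun e => b e ∈ A).card := by
  classical
  unfold ep ebt
  rw [Finset.filter_image, Finset.card_image_of_injOn
    ((ebt_injOn h).mono (by exact_mod_cast Finset.filter_subset _ _))]
  congr 1
  refine Finset.filter_congr fun p hp => ?_
  rw [Finset.mem_product] at hp
  unfold adj
  constructor
  · exact fun h => h.2
  · intro h1
    refine ⟨fun h2 => ?_, h1⟩
    exact (Finset.disjoint_left.1 h) hp.1 (h2 ▸ hp.2)

theorem ebt_qs_nonneg (hq : IsLaw q) (A : Finset B) : 0 ≤ qs q A :=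
  Finset.sum_nonneg fun x _ => hq.nonneg x

theorem pair_lower (hq : IsLaw q) (A : Finset B) {X Y : Finset V} (h : Disjoint X Y) (t : ℝ) :
    PP q {b : Sym2 V → B | (ep (adj A b) X Y : ℝ) ≤ t} ≤
      Real.exp (t - 63 / 100 * qs q A * (X.card * Y.card)) := by
  have h1 := bin_lower hq A (ebt X Y) t
  rw [ebt_card h] at h1
  push_cast at h1
  have h2 : {b : Sym2 V → B | (ep (adj A b) X Y : ℝ) ≤ t} =
      {b : Sym2 V → B | (((ebt X Y).filter fun e => b e ∈ A).card : ℝ) ≤ t} := by
    ext b
    simp only [Set.mem_setOf_eq]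
    rw [ebt_count h]
  rw [h2]
  exact h1

theorem inside_upper (hq : IsLaw q) (A : Finset B) (X : Finset V) (z t : ℝ) (hz : 1 ≤ z) :
    PP q {b : Sym2 V → B | 2 * t ≤ (ep (adj A b) X X : ℝ)} ≤
      Real.exp ((z - 1) * qs q A * ((X.card : ℝ) ^ 2 / 2)) * z ^ (-t) := by
  classical
  set F : Finset (Sym2 V) := X.offDiag.image (fun p => s(p.1, p.2)) with hF
  have hcard : F.card = X.card.choose 2 := by
    rw [hF]
    exact Sym2.card_image_offDiag X
  have hsub : {b : Sym2 V → B | 2 * t ≤ (ep (adj A b) X X : ℝ)} ⊆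
      {b : Sym2 V → B | t ≤ ((F.filter fun e => b e ∈ A).card : ℝ)} := by
    intro b hb
    simp only [Set.mem_setOf_eq] at hb ⊢
    have h1 : ep (adj A b) X X ≤ 2 * (F.filter fun e => b e ∈ A).card := by
      unfold ep
      refine (Finset.card_le_mul_card_image (f := fun p : V × V => s(p.1, p.2)) _ 2 ?_).trans
        (Nat.mul_le_mul_left 2 (Finset.card_le_card ?_))
      · intro e he
        obtain ⟨p, hp, rfl⟩ := Finset.mem_image.1 he
        refine (Finset.card_le_card (t := {p, (p.2, p.1)}) ?_).trans Finset.card_le_two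
        intro p' hp'
        rw [Finset.mem_filter] at hp'
        rw [Finset.mem_insert, Finset.mem_singleton]
        rcases Sym2.eq_iff.1 hp'.2 with ⟨h1, h2⟩ | ⟨h1, h2⟩
        · exact Or.inl (Prod.ext h1 h2)
        · exact Or.inr (Prod.ext h1 h2)
      · intro e he
        obtain ⟨p, hp, rfl⟩ := Finset.mem_image.1 he
        rw [Finset.mem_filter, Finset.mem_product] at hp
        rw [Finset.mem_filter]
        refine ⟨?_, hp.2.2⟩
        rw [hF]
        exact Finset.mem_image_of_mem (fun p : V × V => s(p.1, p.2))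
          (Finset.mem_offDiag.2 ⟨hp.1.1, hp.1.2, hp.2.1⟩)
    have h2 : (ep (adj A b) X X : ℝ) ≤ 2 * ((F.filter fun e => b e ∈ A).card : ℝ) := by
      exact_mod_cast h1
    linarith
  refine (PP_mono hq hsub).trans ((bin_upper_gen hq A F z t hz).trans ?_)
  refine mul_le_mul_of_nonneg_right ?_ (Real.rpow_nonneg (by linarith) _)
  apply Real.exp_le_exp.2
  refine mul_le_mul_of_nonneg_left ?_ (mul_nonneg (by linarith) (ebt_qs_nonneg hq A))
  rw [hcard, Nat.cast_choose_two ℝ X.card]
  have h3 : (0 : ℝ) ≤ X.card := Nat.cast_nonneg _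
  nlinarith

theorem ebt_dg_eq_ep (R : V → V → Prop) (U : Finset V) (x : V) : dg R U x = ep R {x} U := by
  classical
  unfold dg ep
  refine Finset.card_bij (fun y _ => (x, y)) ?_ ?_ ?_
  · intro y hy
    rw [Finset.mem_filter] at hy
    rw [Finset.mem_filter, Finset.mem_product, Finset.mem_singleton]
    exact ⟨⟨rfl, hy.1⟩, hy.2⟩
  · intro y _ y' _ h
    exact (Prod.ext_iff.1 h).2
  · intro p hp
    rw [Finset.mem_filter, Finset.mem_product, Finset.mem_singleton] at hp
    refine ⟨p.2, Finset.mem_filter.2 ⟨hp.1.2, ?_⟩, ?_⟩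
    · rw [← hp.1.1]
      exact hp.2
    · exact Prod.ext hp.1.1.symm rfl

theorem ebt_dg_erase (A : Finset B) (b : Sym2 V → B) (x : V) :
    dg (adj A b) univ x = dg (adj A b) (univ.erase x) x := by
  classical
  unfold dg
  congr 1
  ext y
  simp only [Finset.mem_filter, Finset.mem_univ, true_and, Finset.mem_erase, and_true]
  constructor
  · exact fun h => ⟨fun h1 => h.1 h1.symm, h⟩
  · exact fun h => h.2

theorem dg_upper (hq : IsLaw q) (A : Finset B) (x : V) (t : ℝ) :
    PP q {b : Sym2 V → B | t ≤ (dg (adj A b) univ x : ℝ)} ≤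
      Real.exp (172 / 100 * qs q A * Fintype.card V - t) := by
  have hd : Disjoint ({x} : Finset V) (univ.erase x) := by
    rw [Finset.disjoint_singleton_left]
    exact Finset.notMem_erase x _
  have h1 := bin_upper hq A (ebt {x} (univ.erase x)) t
  have h2 : {b : Sym2 V → B | t ≤ (dg (adj A b) univ x : ℝ)} =
      {b : Sym2 V → B | t ≤ (((ebt {x} (univ.erase x)).filter fun e => b e ∈ A).card : ℝ)} := by
    ext b
    simp only [Set.mem_setOf_eq]
    rw [ebt_dg_erase, ebt_dg_eq_ep, ebt_count hd]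
  rw [h2]
  refine h1.trans (Real.exp_le_exp.2 ?_)
  rw [ebt_card hd, Finset.card_singleton, one_mul]
  have h3 : ((univ.erase x : Finset V).card : ℝ) ≤ Fintype.card V := by
    exact_mod_cast (Finset.card_le_univ (univ.erase x : Finset V))
  have h4 := mul_le_mul_of_nonneg_left h3 (mul_nonneg (by norm_num : (0 : ℝ) ≤ 172 / 100) (ebt_qs_nonneg hq A))
  linarith

theorem dg_lower (hq : IsLaw q) (A : Finset B) (x : V) (U : Finset V) (hx : x ∉ U) (t : ℝ) :
    PP q {b : Sym2 V → B | (dg (adj A b) U x : ℝ) ≤ t} ≤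
      Real.exp (t - 63 / 100 * qs q A * U.card) := by
  have hd : Disjoint ({x} : Finset V) U := Finset.disjoint_singleton_left.2 hx
  have h1 := pair_lower hq A hd t
  rw [Finset.card_singleton, Nat.cast_one, one_mul] at h1
  have h2 : {b : Sym2 V → B | (dg (adj A b) U x : ℝ) ≤ t} =
      {b : Sym2 V → B | (ep (adj A b) {x} U : ℝ) ≤ t} := by
    ext b
    simp only [Set.mem_setOf_eq]
    rw [ebt_dg_eq_ep]
  rw [h2]
  exact h1

/-- Upper bound on all the degrees. -/
theorem deg_prob (hq : IsLaw q) (A : Finset B) (t : ℝ) :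
    PP q {b : Sym2 V → B | ∃ x, t < (dg (adj A b) univ x : ℝ)} ≤
      Fintype.card V * Real.exp (172 / 100 * (Fintype.card V * qs q A) - t) := by
  have hsub : {b : Sym2 V → B | ∃ x, t < (dg (adj A b) univ x : ℝ)} ⊆
      {b : Sym2 V → B | ∃ x ∈ (univ : Finset V), b ∈
        (fun x => {b : Sym2 V → B | t ≤ (dg (adj A b) univ x : ℝ)}) x} := by
    rintro b ⟨x, hx⟩
    exact ⟨x, Finset.mem_univ x, hx.le⟩
  refine (PP_mono hq hsub).trans ((PP_exists_le hq _ _).trans ?_)
  have h1 : ∀ x ∈ (univ : Finset V), PP q {b : Sym2 V → B | t ≤ (dg (adj A b) univ x : ℝ)} ≤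
      Real.exp (172 / 100 * (Fintype.card V * qs q A) - t) := by
    intro x _
    refine (dg_upper hq A x t).trans (le_of_eq ?_)
    congr 1
    ring
  refine (Finset.sum_le_sum h1).trans (le_of_eq ?_)
  rw [Finset.sum_const, nsmul_eq_mul, Finset.card_univ]

/-- The number of neighbours of `x` in `U` depends on the edges between `x` and `U` only. -/
theorem dg_congr (A : Finset B) (x : V) (U : Finset V) (b b' : Sym2 V → B)
    (h : ∀ e ∈ ebt {x} U, b e = b' e) : dg (adj A b) U x = dg (adj A b') U x := by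
  classical
  unfold dg
  congr 1
  refine Finset.filter_congr fun y hy => ?_
  have h1 : b s(x, y) = b' s(x, y) := by
    refine h _ ?_
    unfold ebt
    exact Finset.mem_image.2 ⟨(x, y), Finset.mem_product.2 ⟨Finset.mem_singleton_self x, hy⟩, rfl⟩
  unfold adj
  rw [h1]

end RST.R
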