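import Pool.Agent.Lib.MP_7946c7_pr.R.Core
import Pool.Agent.Lib.MP_7946c7_pr.R.Ebt

/-!
# R, job R04: the core is large

PROOF. `n = card V`. Let `b₀ = ⌈n / 10⌉₊`, so `n / 10 ≤ b₀ ≤ n / 10 + 1 ≤ 11 n / 100`. If
`2 #core < n` then `#(W \ core) = #W - #core > 99 n / 100 - n / 2 = 49 n / 100 ≥ b₀`, so by `peel`
there is a set `B₀ ⊆ W` with `#B₀ = b₀` and `ep (adj A b) B₀ (W \ B₀) ≤ b₀ * (D / 4)`.
For a fixed `B₀ ⊆ W` of cardinality `b₀`: `#(W \ B₀) ≥ 88 n / 100`, so by `pair_lower` (the sets `B₀`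
and `W \ B₀` are disjoint) the probability of `ep ≤ b₀ D / 4` is at most
`exp (b₀ D / 4 - 63/100 * (D / n) * b₀ * (88 n / 100)) = exp (- 3044/10000 * b₀ * D) ≤
exp (- 3044/100000 * n * D) ≤ exp (- 185/100 n)` as `D ≥ 61`. Union bound (`PP_exists_le`, over the
`2 ^ n` finsets `B₀` of `univ.powerset`): `2 ^ n * exp (-1.85 n) ≤ exp (-n)` since
`2 ≤ exp (85/100)` (`Real.log_two_lt_d9`).
-/

open Finset

namespace RST.R

variable {V B : Type} [Fintype V] [DecidableEq V] [Fintype B] [DecidableEq B] {q : B → ℝ}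

private theorem CoreProb_empty (q : B → ℝ) : PP q (∅ : Set (Sym2 V → B)) = 0 := by
  unfold PP EE
  simp

theorem core_small (hq : IsLaw q) (A : Finset B) (D : ℝ) (hD : 61 ≤ D)
    (hn : 100 ≤ Fintype.card V) (hA : qs q A = D / Fintype.card V) (W : Finset V)
    (hW : 99 / 100 * (Fintype.card V : ℝ) ≤ W.card) :
    PP q {b : Sym2 V → B | 2 * ((core (adj A b) (D / 4) W).card : ℝ) < Fintype.card V} ≤
      Real.exp (-(Fintype.card V : ℝ)) := by
  have hnR : (100 : ℝ) ≤ (Fintype.card V : ℝ) := by exact_mod_cast hn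
  obtain ⟨n, hndef⟩ : ∃ n : ℝ, n = (Fintype.card V : ℝ) := ⟨_, rfl⟩
  rw [← hndef] at hnR hA hW
  have hn0 : 0 < n := by linarith
  obtain ⟨b₀, hb₀⟩ : ∃ b₀ : ℕ, b₀ = ⌈n / 10⌉₊ := ⟨_, rfl⟩
  have hb1 : n / 10 ≤ b₀ := by
    rw [hb₀]
    exact Nat.le_ceil _
  have hb2 : (b₀ : ℝ) ≤ 11 * n / 100 := by
    have := Nat.ceil_lt_add_one (show 0 ≤ n / 10 by positivity)
    rw [← hb₀] at this
    linarith
  -- the union bound
  have hsub : {b : Sym2 V → B | 2 * ((core (adj A b) (D / 4) W).card : ℝ) < Fintype.card V} ⊆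
      {b | ∃ B₀ ∈ (univ : Finset (Finset V)), b ∈ {b : Sym2 V → B | (B₀ ⊆ W ∧ B₀.card = b₀) ∧
        (ep (adj A b) B₀ (W \ B₀) : ℝ) ≤ b₀ * (D / 4)}} := by
    intro b hb
    rw [Set.mem_ofPred_eq, ← hndef] at hb
    have h1 : b₀ ≤ (W \ core (adj A b) (D / 4) W).card := by
      have h2 : (W \ core (adj A b) (D / 4) W).card + (core (adj A b) (D / 4) W).card = W.card := by
        rw [Finset.card_sdiff_add_card_eq_card core_sub]
      have h3 : ((W \ core (adj A b) (D / 4) W).card : ℝ) + (core (adj A b) (D / 4) W).card =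
          W.card := by exact_mod_cast h2
      have h4 : (b₀ : ℝ) ≤ ((W \ core (adj A b) (D / 4) W).card : ℝ) := by linarith
      exact_mod_cast h4
    obtain ⟨B₀, hB1, hB2, hB3⟩ := peel b₀ h1
    exact ⟨B₀, Finset.mem_univ _, ⟨hB1.trans Finset.sdiff_subset, hB2⟩, hB3⟩
  refine (PP_mono hq hsub).trans ((PP_exists_le hq _ _).trans ?_)
  have hone : ∀ B₀ ∈ (univ : Finset (Finset V)), PP q {b : Sym2 V → B | (B₀ ⊆ W ∧ B₀.card = b₀) ∧
        (ep (adj A b) B₀ (W \ B₀) : ℝ) ≤ b₀ * (D / 4)} ≤ Real.exp (-(185 / 100) * n) := by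
    intro B₀ _
    by_cases hB : B₀ ⊆ W ∧ B₀.card = b₀
    · have h1 := pair_lower hq A (X := B₀) (Y := W \ B₀) Finset.disjoint_sdiff (b₀ * (D / 4))
      refine (PP_mono hq (fun b hb => hb.2)).trans (h1.trans (Real.exp_le_exp.2 ?_))
      have h2 : ((W \ B₀).card : ℝ) = W.card - b₀ := by
        have := Finset.card_sdiff_add_card_eq_card hB.1
        rw [hB.2] at this
        have h3 : ((W \ B₀).card : ℝ) + b₀ = W.card := by exact_mod_cast this
        linarith
      have h4 : 88 / 100 * n ≤ ((W \ B₀).card : ℝ) := by rw [h2]; linarith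
      rw [hB.2, hA]
      have h5 : D / n * (b₀ * (88 / 100 * n)) ≤ D / n * (b₀ * ((W \ B₀).card : ℝ)) := by
        apply mul_le_mul_of_nonneg_left _ (by positivity)
        exact mul_le_mul_of_nonneg_left h4 (Nat.cast_nonneg _)
      have h6 : D / n * (b₀ * (88 / 100 * n)) = 88 / 100 * (D * b₀) := by
        field_simp
      have h7 : 61 * (n / 10) ≤ D * b₀ := by
        apply mul_le_mul hD hb1 (by positivity) (by linarith)
      nlinarith
    · have : {b : Sym2 V → B | (B₀ ⊆ W ∧ B₀.card = b₀) ∧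
        (ep (adj A b) B₀ (W \ B₀) : ℝ) ≤ b₀ * (D / 4)} = ∅ := by
        rw [Set.eq_empty_iff_forall_notMem]
        rintro b hb
        exact hB hb.1
      rw [this, CoreProb_empty]
      exact (Real.exp_pos _).le
  refine (Finset.sum_le_sum hone).trans ?_
  rw [Finset.sum_const, Finset.card_univ, Fintype.card_finset, nsmul_eq_mul, ← hndef]
  push_cast
  have h8 : (2 : ℝ) ^ (Fintype.card V) = Real.exp (Real.log 2 * n) := by
    rw [Real.exp_mul, Real.exp_log (by norm_num : (0 : ℝ) < 2), hndef, Real.rpow_natCast]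
  rw [h8, ← Real.exp_add]
  apply Real.exp_le_exp.2
  have h9 := Real.log_two_lt_d9
  nlinarith

end RST.R
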