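import Pool.Agent.Lib.MP_7946c7_pr.R.CoreProb

/-!
# R, job R08: a fixed walk whose vertices have few neighbours in the core

PROOF. `n = card V`, `I = range (l1 + 1)`, `Γ = I.image γ` (`l1 + 1` vertices), `W = Γᶜ`, so
`#W = n - (l1 + 1) ≥ 99 n / 100`. Let `K b := core (adj A b) (D / 4) W ⊆ core (adj A b) (D / 4) univ`
(`core_mono`). `E1 := {b | ∀ i < l1, b s(γ i, γ (i + 1)) ∈ A'}`: depends on the edges inside `Γ`, and
`PP q E1 = qs q A' ^ l1` (`bin_all` for the image `F` of `i ↦ s(γ i, γ (i + 1))` on `range l1`, which is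
injective because `γ` is injective on `I`).
(1) `E1` and `{2 #K < n}` are independent (`EE_indep` with `s` = edges inside `Γ`; `K` depends on the
edges inside `W` by `core_congr`): probability at most `qs q A' ^ l1 * exp (-n)` by `core_small`.
(2) `E1`, `2 #K ≥ n` and `dg (adj A b) K (γ i) < D / 8` for all `i ≤ l1` (true on the event since
`dg` is monotone in the set). The event is the disjoint union over the sets `U ⊆ W` with
`2 #U ≥ n` of `E1 ∩ {K = U} ∩ ⋂ i, {dg (adj A b) U (γ i) < D / 8}`. These `3 + l1` events depend on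
pairwise disjoint sets of edges: inside `Γ`, inside `W`, and `ebt {γ i} U` (`i ∈ I`), so
(`EE_indep_finset`, or `EE_indep` and `EE_indep_finset`) the probability is
`qs q A' ^ l1 * PP {K = U} * ∏ i ∈ I, PP {dg (adj A b) U (γ i) < D / 8}
 ≤ qs q A' ^ l1 * PP {K = U} * exp (D / 8 - 63/100 * (D / n) * (n / 2)) ^ (l1 + 1)` (`dg_lower`)
`= qs q A' ^ l1 * PP {K = U} * exp (-(19/100 * D)) ^ (l1 + 1)` . Sum over `U`: `∑ PP {K = U} ≤ 1`.
It may help to write everything with indicator functions:
`1_event ≤ 1_E1 * 1_{2 #K < n} + ∑ U, 1_E1 * (1_{K = U} * ∏ i, 1_{dg U (γ i) < D / 8})`.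
-/

open Finset

namespace RST.R

variable {V B : Type} [Fintype V] [DecidableEq V] [Fintype B] [DecidableEq B] {q : B → ℝ}

private theorem sawFix_cast_ite (P : Prop) [Decidable P] : (0 : ℝ) ≤ (if P then 1 else 0) := by
  split_ifs <;> norm_num

/-- the image of a path -/
private theorem sawFix_E1 (hq : IsLaw q) (A' : Finset B) (l1 : ℕ) (γ : ℕ → V)
    (hγ : ∀ i ≤ l1, ∀ j ≤ l1, γ i = γ j → i = j) :
    PP q {b : Sym2 V → B | ∀ i < l1, b s(γ i, γ (i + 1)) ∈ A'} = qs q A' ^ l1 := by
  have hinj : Set.InjOn (fun i => s(γ i, γ (i + 1))) (range l1 : Finset ℕ) := by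
    intro i hi j hj h
    simp only [Finset.coe_range, Set.mem_Iio] at hi hj
    have h' : s(γ i, γ (i + 1)) = s(γ j, γ (j + 1)) := h
    rw [Sym2.eq_iff] at h'
    rcases h' with ⟨h1, _⟩ | ⟨h1, h2⟩
    · exact hγ i (by omega) j (by omega) h1
    · have e1 := hγ i (by omega) (j + 1) (by omega) h1
      have e2 := hγ (i + 1) (by omega) j (by omega) h2
      omega
  have hcard : ((range l1).image fun i => s(γ i, γ (i + 1))).card = l1 := by
    rw [Finset.card_image_of_injOn hinj, Finset.card_range]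
  have h := bin_all hq A' ((range l1).image fun i => s(γ i, γ (i + 1)))
  rw [hcard] at h
  rw [← h]
  congr 1
  ext b
  simp only [Finset.mem_image, Finset.mem_range, forall_exists_index, and_imp]
  constructor
  · intro hb e i hi he
    rw [← he]
    exact hb i hi
  · intro hb i hi
    exact hb _ i hi rfl

open Classical in
private theorem sawFix_prod (hq : IsLaw q) (A : Finset B) (D : ℝ) (hD : 61 ≤ D) (l1 : ℕ)
    (hn0 : 0 < Fintype.card V) (hA : qs q A = D / Fintype.card V) (γ : ℕ → V)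
    (hγ : ∀ i ≤ l1, ∀ j ≤ l1, γ i = γ j → i = j) (U : Finset V)
    (hU : ∀ i ≤ l1, γ i ∉ U) (hU2 : Fintype.card V ≤ 2 * U.card) :
    EE q (fun b : Sym2 V → B => ∏ i ∈ range (l1 + 1),
      if (dg (adj A b) U (γ i) : ℝ) < D / 8 then (1 : ℝ) else 0) ≤
      Real.exp (-(19 / 100 * D * (l1 + 1))) := by
  have hnr : (0 : ℝ) < Fintype.card V := by exact_mod_cast hn0
  have hind := EE_indep_finset (ι := Sym2 V) (B := B) (q := q) hq (range (l1 + 1))
    (fun i => (↑(ebt {γ i} U) : Set (Sym2 V)))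
    (by
      intro i hi j hj hij
      rw [Finset.mem_range] at hi hj
      rw [Finset.disjoint_coe, Finset.disjoint_left]
      intro e he he'
      simp only [ebt, Finset.mem_image, Finset.mem_product, Finset.mem_singleton] at he he'
      obtain ⟨⟨x, y⟩, ⟨hx, hy⟩, rfl⟩ := he
      obtain ⟨⟨x', y'⟩, ⟨hx', hy'⟩, h⟩ := he'
      dsimp only at hx hy hx' hy' h
      rw [Sym2.eq_iff] at h
      rcases h with ⟨h1, _⟩ | ⟨h1, h2⟩
      · apply hij
        apply hγ i (by omega) j (by omega)
        rw [← hx, ← hx', h1]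
      · apply hU j (by omega)
        rw [← hx', h1]
        exact hy)
    (fun i b => if (dg (adj A b) U (γ i) : ℝ) < D / 8 then (1 : ℝ) else 0)
    (by
      intro i _ b b' h
      have := dg_congr A (γ i) U b b' (fun e he => h e (by exact_mod_cast he))
      simp only [this])
  rw [hind]
  have hone : ∀ i ∈ range (l1 + 1),
      EE q (fun b : Sym2 V → B => if (dg (adj A b) U (γ i) : ℝ) < D / 8 then (1 : ℝ) else 0) ≤
        Real.exp (-(19 / 100 * D)) := by
    intro i hi
    rw [Finset.mem_range] at hi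
    have h1 := dg_lower hq A (γ i) U (hU i (by omega)) (D / 8)
    have h2 : EE q (fun b : Sym2 V → B => if (dg (adj A b) U (γ i) : ℝ) < D / 8 then (1 : ℝ)
        else 0) ≤ PP q {b : Sym2 V → B | (dg (adj A b) U (γ i) : ℝ) ≤ D / 8} := by
      unfold PP
      apply EE_mono hq
      intro b
      by_cases hb : (dg (adj A b) U (γ i) : ℝ) < D / 8
      · rw [if_pos hb, if_pos (show b ∈ {b : Sym2 V → B | (dg (adj A b) U (γ i) : ℝ) ≤ D / 8}
          from hb.le)]
      · rw [if_neg hb]
        exact sawFix_cast_ite _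
    refine le_trans h2 (le_trans h1 (Real.exp_le_exp.mpr ?_))
    rw [hA]
    have h3 : (Fintype.card V : ℝ) ≤ 2 * U.card := by exact_mod_cast hU2
    have h4 : D / 2 ≤ D / Fintype.card V * U.card := by
      rw [div_mul_eq_mul_div, le_div_iff₀ hnr]
      nlinarith
    linarith
  calc ∏ i ∈ range (l1 + 1),
        EE q (fun b : Sym2 V → B => if (dg (adj A b) U (γ i) : ℝ) < D / 8 then (1 : ℝ) else 0)
      ≤ ∏ _i ∈ range (l1 + 1), Real.exp (-(19 / 100 * D)) := by
        apply Finset.prod_le_prod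
        · intro i _
          exact EE_nonneg hq (fun b => sawFix_cast_ite _)
        · exact hone
    _ = Real.exp (-(19 / 100 * D * (l1 + 1))) := by
        rw [Finset.prod_const, Finset.card_range, ← Real.exp_nat_mul]
        congr 1
        push_cast
        ring

theorem saw_fix (hq : IsLaw q) (A A' : Finset B) (D : ℝ) (hD : 61 ≤ D) (l1 : ℕ)
    (hn : 100 * (l1 + 1) ≤ Fintype.card V) (hA : qs q A = D / Fintype.card V) (γ : ℕ → V)
    (hγ : ∀ i ≤ l1, ∀ j ≤ l1, γ i = γ j → i = j) :
    PP q {b : Sym2 V → B | (∀ i < l1, b s(γ i, γ (i + 1)) ∈ A') ∧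
      ∀ i ≤ l1, (dg (adj A b) (core (adj A b) (D / 4) univ) (γ i) : ℝ) < D / 8} ≤
      qs q A' ^ l1 * (Real.exp (-(19 / 100 * D * (l1 + 1))) + Real.exp (-(Fintype.card V : ℝ))) := by
  classical
  have hn0 : 0 < Fintype.card V := by omega
  have hnr : (0 : ℝ) < Fintype.card V := by exact_mod_cast hn0
  set Γ : Finset V := (range (l1 + 1)).image γ with hΓ
  set W : Finset V := Γᶜ with hW
  have hγΓ : ∀ i ≤ l1, γ i ∈ Γ := by
    intro i hi
    rw [hΓ, Finset.mem_image]
    exact ⟨i, Finset.mem_range.mpr (by omega), rfl⟩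
  have hγW : ∀ i ≤ l1, γ i ∉ W := by
    intro i hi h
    rw [hW, Finset.mem_compl] at h
    exact h (hγΓ i hi)
  have hWcard : 99 / 100 * (Fintype.card V : ℝ) ≤ W.card := by
    have h1 : Γ.card ≤ l1 + 1 := by
      rw [hΓ]
      exact le_trans Finset.card_image_le (by rw [Finset.card_range])
    have h2 : W.card + Γ.card = Fintype.card V := by
      rw [hW, Finset.card_compl]
      have := Finset.card_le_univ Γ
      omega
    have h3 : 99 * Fintype.card V ≤ 100 * W.card := by omega
    have h4 : (99 : ℝ) * Fintype.card V ≤ 100 * W.card := by exact_mod_cast h3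
    linarith
  set K : (Sym2 V → B) → Finset V := fun b => core (adj A b) (D / 4) W with hK
  have hKW : ∀ b, K b ⊆ W := fun b => core_sub
  have hKdep : ∀ b b' : Sym2 V → B, (∀ x ∈ W, ∀ y ∈ W, b s(x, y) = b' s(x, y)) → K b = K b' := by
    intro b b' h
    apply core_congr
    intro x hx y hy
    unfold adj
    rw [h x hx y hy]
  set f1 : (Sym2 V → B) → ℝ := fun b => if ∀ i < l1, b s(γ i, γ (i + 1)) ∈ A' then 1 else 0
    with hf1
  set g : (Sym2 V → B) → ℝ := fun b => if 2 * ((K b).card : ℝ) < Fintype.card V then 1 else 0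
    with hg
  set k : Finset V → (Sym2 V → B) → ℝ := fun U b => if K b = U then 1 else 0 with hk
  set pp : Finset V → (Sym2 V → B) → ℝ := fun U b => ∏ i ∈ range (l1 + 1),
      if (dg (adj A b) U (γ i) : ℝ) < D / 8 then (1 : ℝ) else 0 with hpp
  set 𝒰 : Finset (Finset V) := W.powerset.filter (fun U => Fintype.card V ≤ 2 * U.card) with h𝒰
  have hpp0 : ∀ U b, 0 ≤ pp U b := fun U b => Finset.prod_nonneg (fun i _ => sawFix_cast_ite _)
  -- the set of the edges inside `Γ`
  set s1 : Set (Sym2 V) := {e | ∃ x ∈ Γ, ∃ y ∈ Γ, e = s(x, y)} with hs1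
  have hs1W : ∀ x, ∀ y ∈ W, s(x, y) ∈ s1ᶜ := by
    intro x y hy h
    obtain ⟨x', hx', y', hy', he⟩ := h
    rw [hW, Finset.mem_compl] at hy
    rw [Sym2.eq_iff] at he
    rcases he with ⟨_, h2⟩ | ⟨_, h2⟩
    · rw [h2] at hy
      exact hy hy'
    · rw [h2] at hy
      exact hy hx'
  have hdep1 : DependsOn f1 s1 := by
    intro b b' h
    have : ∀ i < l1, b s(γ i, γ (i + 1)) = b' s(γ i, γ (i + 1)) := by
      intro i hi
      exact h _ ⟨γ i, hγΓ i (by omega), γ (i + 1), hγΓ (i + 1) (by omega), rfl⟩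
    simp only [hf1]
    congr 1
    apply propext
    constructor
    · intro hb i hi
      rw [← this i hi]
      exact hb i hi
    · intro hb i hi
      rw [this i hi]
      exact hb i hi
  have hdepK : ∀ b b' : Sym2 V → B, (∀ e ∈ s1ᶜ, b e = b' e) → K b = K b' := by
    intro b b' h
    apply hKdep
    intro x _ y hy
    exact h _ (hs1W x y hy)
  have hdepg : DependsOn g s1ᶜ := by
    intro b b' h
    simp only [hg, hdepK b b' h]
  have hdepdg : ∀ U ⊆ W, ∀ i, ∀ b b' : Sym2 V → B, (∀ x, ∀ y ∈ W, b s(x, y) = b' s(x, y)) →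
      dg (adj A b) U (γ i) = dg (adj A b') U (γ i) := by
    intro U hU i b b' h
    apply dg_congr
    intro e he
    simp only [ebt, Finset.mem_image, Finset.mem_product, Finset.mem_singleton] at he
    obtain ⟨⟨x, y⟩, ⟨_, hy⟩, rfl⟩ := he
    exact h x y (hU hy)
  have hdep2 : ∀ U ⊆ W, DependsOn (fun b => k U b * pp U b) s1ᶜ := by
    intro U hU b b' h
    have h1 : K b = K b' := hdepK b b' h
    have h2 : ∀ i, dg (adj A b) U (γ i) = dg (adj A b') U (γ i) := fun i =>
      hdepdg U hU i b b' (fun x y hy => h _ (hs1W x y hy))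
    simp only [hk, hpp, h1, h2]
  set s2 : Set (Sym2 V) := {e | ∃ x ∈ W, ∃ y ∈ W, e = s(x, y)} with hs2
  have hdepk : ∀ U, DependsOn (k U) s2 := by
    intro U b b' h
    have h1 : K b = K b' := hKdep b b' (fun x hx y hy => h _ ⟨x, hx, y, hy, rfl⟩)
    simp only [hk, h1]
  have hdepp : ∀ U ⊆ W, DependsOn (pp U) s2ᶜ := by
    intro U hU b b' h
    have h2 : ∀ i ∈ range (l1 + 1), dg (adj A b) U (γ i) = dg (adj A b') U (γ i) := by
      intro i hi
      rw [Finset.mem_range] at hi
      apply dg_congr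
      intro e he
      simp only [ebt, Finset.mem_image, Finset.mem_product, Finset.mem_singleton] at he
      obtain ⟨⟨x, y⟩, ⟨hx, hy⟩, rfl⟩ := he
      dsimp only at hx hy ⊢
      apply h
      rintro ⟨x', hx', y', hy', he⟩
      have hxW : x ∉ W := by
        rw [hx]
        exact hγW i (by omega)
      rw [Sym2.eq_iff] at he
      rcases he with ⟨h1, _⟩ | ⟨h1, _⟩
      · exact hxW (h1 ▸ hx')
      · exact hxW (h1 ▸ hy')
    simp only [hpp]
    apply Finset.prod_congr rfl
    intro i hi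
    rw [h2 i hi]
  -- pointwise bound
  have hpoint : ∀ b : Sym2 V → B, (if b ∈ {b : Sym2 V → B |
      (∀ i < l1, b s(γ i, γ (i + 1)) ∈ A') ∧
      ∀ i ≤ l1, (dg (adj A b) (core (adj A b) (D / 4) univ) (γ i) : ℝ) < D / 8}
      then (1 : ℝ) else 0) ≤ f1 b * g b + ∑ U ∈ 𝒰, f1 b * (k U b * pp U b) := by
    intro b
    have hk0 : ∀ U, 0 ≤ k U b := fun U => sawFix_cast_ite _
    have hf0 : 0 ≤ f1 b := sawFix_cast_ite _
    have hg0 : 0 ≤ g b := sawFix_cast_ite _
    have hsum0 : 0 ≤ ∑ U ∈ 𝒰, f1 b * (k U b * pp U b) :=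
      Finset.sum_nonneg fun U _ => mul_nonneg hf0 (mul_nonneg (hk0 U) (hpp0 U b))
    by_cases hb : b ∈ {b : Sym2 V → B | (∀ i < l1, b s(γ i, γ (i + 1)) ∈ A') ∧
      ∀ i ≤ l1, (dg (adj A b) (core (adj A b) (D / 4) univ) (γ i) : ℝ) < D / 8}
    · rw [if_pos hb]
      obtain ⟨hb1, hb2⟩ := hb
      have hf : f1 b = 1 := by
        simp only [hf1]
        rw [if_pos hb1]
      by_cases hKb : 2 * ((K b).card : ℝ) < Fintype.card V
      · have : g b = 1 := by
          simp only [hg]
          rw [if_pos hKb]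
        rw [hf, this]
        linarith [hsum0, hf ▸ hsum0]
      · have hKU : K b ∈ 𝒰 := by
          rw [h𝒰, Finset.mem_filter, Finset.mem_powerset]
          refine ⟨hKW b, ?_⟩
          push Not at hKb
          exact_mod_cast hKb
        have hle : f1 b * (k (K b) b * pp (K b) b) ≤ ∑ U ∈ 𝒰, f1 b * (k U b * pp U b) :=
          Finset.single_le_sum (f := fun U => f1 b * (k U b * pp U b))
            (fun U _ => mul_nonneg hf0 (mul_nonneg (hk0 U) (hpp0 U b))) hKU
        have hkk : k (K b) b = 1 := by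
          simp only [hk]
          rw [if_pos trivial]
        have hppp : pp (K b) b = 1 := by
          simp only [hpp]
          apply Finset.prod_eq_one
          intro i hi
          rw [Finset.mem_range] at hi
          rw [if_pos]
          have h1 := hb2 i (by omega)
          have h2 : dg (adj A b) (K b) (γ i) ≤
              dg (adj A b) (core (adj A b) (D / 4) univ) (γ i) := by
            unfold dg
            apply Finset.card_le_card
            apply Finset.filter_subset_filter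
            exact core_mono (Finset.subset_univ _)
          have h3 : (dg (adj A b) (K b) (γ i) : ℝ) ≤
              dg (adj A b) (core (adj A b) (D / 4) univ) (γ i) := by exact_mod_cast h2
          linarith
        have he : f1 b * (k (K b) b * pp (K b) b) = 1 := by
          rw [hf, hkk, hppp]
          norm_num
        rw [he] at hle
        have : 0 ≤ f1 b * g b := mul_nonneg hf0 hg0
        linarith
    · rw [if_neg hb]
      exact add_nonneg (mul_nonneg hf0 hg0) hsum0
  have hEf : EE q f1 = qs q A' ^ l1 := by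
    rw [← sawFix_E1 hq A' l1 γ hγ]
    unfold PP
    congr 1
    funext b
    simp only [hf1]
    by_cases hb : ∀ i < l1, b s(γ i, γ (i + 1)) ∈ A'
    · rw [if_pos hb, if_pos (show b ∈ {b : Sym2 V → B | ∀ i < l1, b s(γ i, γ (i + 1)) ∈ A'}
        from hb)]
    · rw [if_neg hb, if_neg (show ¬ b ∈ {b : Sym2 V → B | ∀ i < l1, b s(γ i, γ (i + 1)) ∈ A'}
        from hb)]
  have hEg : EE q g ≤ Real.exp (-(Fintype.card V : ℝ)) := by
    have h1 := core_small hq A D hD (by omega) hA W hWcard
    unfold PP at h1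
    refine le_trans (le_of_eq ?_) h1
    congr 1
  have hqs : 0 ≤ qs q A' ^ l1 := by
    apply pow_nonneg
    exact Finset.sum_nonneg fun x _ => hq.nonneg x
  have hterm : ∀ U ∈ 𝒰, EE q (fun b => f1 b * (k U b * pp U b)) ≤
      qs q A' ^ l1 * (EE q (k U) * Real.exp (-(19 / 100 * D * (l1 + 1)))) := by
    intro U hU
    rw [h𝒰, Finset.mem_filter, Finset.mem_powerset] at hU
    rw [EE_indep hq s1 f1 (fun b => k U b * pp U b) hdep1 (hdep2 U hU.1),
      EE_indep hq s2 (k U) (pp U) (hdepk U) (hdepp U hU.1), hEf]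
    apply mul_le_mul_of_nonneg_left _ hqs
    apply mul_le_mul_of_nonneg_left _ (EE_nonneg hq (fun b => sawFix_cast_ite _))
    exact sawFix_prod hq A D hD l1 hn0 hA γ hγ U (fun i hi h => hγW i hi (hU.1 h)) hU.2
  have hsumk : ∑ U ∈ 𝒰, EE q (k U) ≤ 1 := by
    rw [← EE_sum]
    have h1 : EE q (fun b : Sym2 V → B => ∑ U ∈ 𝒰, k U b) ≤ EE q (fun _ : Sym2 V → B => (1 : ℝ)) := by
      apply EE_mono hq
      intro b
      simp only [hk]
      rw [Finset.sum_ite_eq]
      split_ifs <;> norm_num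
    rw [EE_const hq] at h1
    exact h1
  have hexp0 : 0 ≤ Real.exp (-(19 / 100 * D * (l1 + 1))) := (Real.exp_pos _).le
  calc PP q {b : Sym2 V → B | (∀ i < l1, b s(γ i, γ (i + 1)) ∈ A') ∧
      ∀ i ≤ l1, (dg (adj A b) (core (adj A b) (D / 4) univ) (γ i) : ℝ) < D / 8}
      ≤ EE q (fun b => f1 b * g b + ∑ U ∈ 𝒰, f1 b * (k U b * pp U b)) := by
        unfold PP
        apply EE_mono hq
        intro b
        refine le_trans (le_of_eq ?_) (hpoint b)
        congr 1
    _ = EE q f1 * EE q g + ∑ U ∈ 𝒰, EE q (fun b => f1 b * (k U b * pp U b)) := by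
        rw [EE_add q (fun b => f1 b * g b) (fun b => ∑ U ∈ 𝒰, f1 b * (k U b * pp U b)),
          EE_indep hq s1 f1 g hdep1 hdepg, EE_sum]
    _ ≤ qs q A' ^ l1 * Real.exp (-(Fintype.card V : ℝ)) +
          ∑ U ∈ 𝒰, qs q A' ^ l1 * (EE q (k U) * Real.exp (-(19 / 100 * D * (l1 + 1)))) := by
        apply add_le_add
        · rw [hEf]
          exact mul_le_mul_of_nonneg_left hEg hqs
        · exact Finset.sum_le_sum hterm
    _ = qs q A' ^ l1 * Real.exp (-(Fintype.card V : ℝ)) +
          qs q A' ^ l1 * ((∑ U ∈ 𝒰, EE q (k U)) * Real.exp (-(19 / 100 * D * (l1 + 1)))) := by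
        rw [← Finset.mul_sum, ← Finset.sum_mul]
    _ ≤ qs q A' ^ l1 * Real.exp (-(Fintype.card V : ℝ)) +
          qs q A' ^ l1 * (1 * Real.exp (-(19 / 100 * D * (l1 + 1)))) := by
        apply add_le_add le_rfl
        apply mul_le_mul_of_nonneg_left _ hqs
        exact mul_le_mul_of_nonneg_right hsumk hexp0
    _ = qs q A' ^ l1 * (Real.exp (-(19 / 100 * D * (l1 + 1))) +
          Real.exp (-(Fintype.card V : ℝ))) := by ring

end RST.R
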